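import Pool.Agent.PinR.Defs

set_option autoImplicit false

/-!
PIN-Basic: elementary facts on the dyadic squares.
`volume (sq j a b)`: `Complex.volume_preserving_equiv_real_prod`, `sq` is the preimage of
`Ico (a/2^j) ((a+1)/2^j) ×ˢ Ico ..`.
-/

namespace PinR

open MeasureTheory

theorem measurableSet_sq (j : ℕ) (a b : ℤ) : MeasurableSet (sq j a b) := by
  have h1 : Measurable fun z : ℂ => ⌊(2 : ℝ) ^ j * z.re⌋ :=
    Int.measurable_floor.comp (Complex.measurable_re.const_mul _)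
  have h2 : Measurable fun z : ℂ => ⌊(2 : ℝ) ^ j * z.im⌋ :=
    Int.measurable_floor.comp (Complex.measurable_im.const_mul _)
  exact (h1 (MeasurableSet.singleton a)).inter (h2 (MeasurableSet.singleton b))

/-- coordinates of the points of a square -/
theorem mem_sq_iff {j : ℕ} {a b : ℤ} {z : ℂ} : z ∈ sq j a b ↔
    (a : ℝ) / 2 ^ j ≤ z.re ∧ z.re < ((a : ℝ) + 1) / 2 ^ j ∧
      (b : ℝ) / 2 ^ j ≤ z.im ∧ z.im < ((b : ℝ) + 1) / 2 ^ j := by
  have h2 : (0 : ℝ) < 2 ^ j := by positivity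
  unfold sq
  rw [Set.mem_setOf_eq, Int.floor_eq_iff, Int.floor_eq_iff, div_le_iff₀' h2, div_le_iff₀' h2,
    lt_div_iff₀' h2, lt_div_iff₀' h2, and_assoc]

theorem volume_sq (j : ℕ) (a b : ℤ) : volume (sq j a b) = ENNReal.ofReal ((1 / 4 : ℝ) ^ j) := by
  have h1 : sq j a b = Complex.measurableEquivRealProd ⁻¹'
      (Set.Ico ((a : ℝ) / 2 ^ j) (((a : ℝ) + 1) / 2 ^ j) ×ˢ
        Set.Ico ((b : ℝ) / 2 ^ j) (((b : ℝ) + 1) / 2 ^ j)) := by
    ext z
    rw [mem_sq_iff, Set.mem_preimage, Set.mem_prod, Set.mem_Ico, Set.mem_Ico, and_assoc]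
    rfl
  rw [h1, Complex.volume_preserving_equiv_real_prod.measure_preimage_equiv,
    Measure.volume_eq_prod, Measure.prod_prod, Real.volume_Ico, Real.volume_Ico,
    ← ENNReal.ofReal_mul]
  · congr 1
    have h4 : (1 / 4 : ℝ) ^ j = (1 / 2 ^ j) * (1 / 2 ^ j) := by
      rw [← one_div_pow, ← mul_pow]
      norm_num
    rw [h4]
    ring
  · rw [← sub_div]
    have : (a : ℝ) + 1 - a = 1 := by ring
    rw [this]
    positivity

theorem volume_real_sq (j : ℕ) (a b : ℤ) : volume.real (sq j a b) = (1 / 4 : ℝ) ^ j := by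
  rw [Measure.real, volume_sq, ENNReal.toReal_ofReal (by positivity)]

theorem sq_dist {j : ℕ} {a b : ℤ} {z z' : ℂ} (h : z ∈ sq j a b) (h' : z' ∈ sq j a b) :
    ‖z - z'‖ < 2 * (1 / 2 : ℝ) ^ j := by
  rw [mem_sq_iff, add_div, add_div] at h h'
  obtain ⟨h1, h2, h3, h4⟩ := h
  obtain ⟨h5, h6, h7, h8⟩ := h'
  have e : (1 : ℝ) / 2 ^ j = (1 / 2 : ℝ) ^ j := by rw [one_div_pow]
  rw [e] at h2 h4 h6 h8
  have hre : |(z - z').re| < (1 / 2 : ℝ) ^ j := by
    rw [Complex.sub_re, abs_lt]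
    constructor <;> linarith
  have him : |(z - z').im| < (1 / 2 : ℝ) ^ j := by
    rw [Complex.sub_im, abs_lt]
    constructor <;> linarith
  have := Complex.norm_le_abs_re_add_abs_im (z - z')
  linarith

theorem mem_unit_iff {z : ℂ} : z ∈ sq 0 0 0 ↔ 0 ≤ z.re ∧ z.re < 1 ∧ 0 ≤ z.im ∧ z.im < 1 := by
  rw [mem_sq_iff]
  norm_num

theorem sq_disjoint {j : ℕ} {p q : ℤ × ℤ} (h : p ≠ q) :
    Disjoint (sq j p.1 p.2) (sq j q.1 q.2) := by
  rw [Set.disjoint_left]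
  intro z hz hz'
  apply h
  exact Prod.ext (hz.1.symm.trans hz'.1) (hz.2.symm.trans hz'.2)

theorem iUnion_sq (j : ℕ) : (⋃ p : ℤ × ℤ, sq j p.1 p.2) = Set.univ := by
  rw [Set.eq_univ_iff_forall]
  intro z
  exact Set.mem_iUnion.2 ⟨(⌊(2 : ℝ) ^ j * z.re⌋, ⌊(2 : ℝ) ^ j * z.im⌋), rfl, rfl⟩

theorem hasSum_sq (j : ℕ) (F : ℂ → ℝ) (hF : Integrable F) :
    HasSum (fun p : ℤ × ℤ => ∫ z in sq j p.1 p.2, F z) (∫ z, F z) := by
  have h := hasSum_integral_iUnion (μ := volume) (f := F) (s := fun p : ℤ × ℤ => sq j p.1 p.2)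
    (fun p => measurableSet_sq j p.1 p.2) (fun p q hpq => sq_disjoint hpq) hF.integrableOn
  rw [iUnion_sq, setIntegral_univ] at h
  exact h

theorem Adm.integrable {B : ℝ} {F : ℂ → ℝ} (h : Adm B F) : Integrable F := by
  have h1 : IntegrableOn F (sq 0 0 0) := by
    refine Measure.integrableOn_of_bounded (M := B) ?_ h.1.aestronglyMeasurable ?_
    · rw [volume_sq]
      exact ENNReal.ofReal_ne_top
    · exact Filter.Eventually.of_forall h.2.1
  rw [integrableOn_iff_integrable_of_support_subset] at h1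
  · exact h1
  · intro z hz
    by_contra h2
    exact hz (h.2.2 z h2)

/-- `∫ |F| ≤ B`: the unit square has area one -/
theorem Adm.int_abs_le {B : ℝ} {F : ℂ → ℝ} (h : Adm B F) : ∫ z, |F z| ≤ B := by
  have h1 : ∫ z, |F z| = ∫ z in sq 0 0 0, |F z| := by
    refine (setIntegral_eq_integral_of_forall_compl_eq_zero ?_).symm
    intro z hz
    rw [h.2.2 z hz, abs_zero]
  have h2 : ‖∫ z in sq 0 0 0, |F z|‖ ≤ B * volume.real (sq 0 0 0) := by
    refine norm_setIntegral_le_of_norm_le_const ?_ ?_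
    · rw [volume_sq]
      exact ENNReal.ofReal_lt_top
    · intro z _
      rw [Real.norm_eq_abs, abs_abs]
      exact h.2.1 z
  rw [volume_real_sq, pow_zero, mul_one] at h2
  rw [h1]
  exact (le_abs_self _).trans h2

theorem Adm.nonneg_B {B : ℝ} {F : ℂ → ℝ} (h : Adm B F) : 0 ≤ B :=
  (abs_nonneg (F 0)).trans (h.2.1 0)

theorem basic_floor_nested {i j : ℕ} (hij : i ≤ j) {a : ℤ} {x : ℝ} (h : ⌊(2 : ℝ) ^ j * x⌋ = a) :
    ⌊(2 : ℝ) ^ i * x⌋ = a / 2 ^ (j - i) := by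
  rw [Int.floor_eq_iff] at h ⊢
  have hk : (0 : ℤ) < 2 ^ (j - i) := by positivity
  have hkR : (0 : ℝ) < 2 ^ (j - i) := by positivity
  have h1 : 2 ^ (j - i) * (a / 2 ^ (j - i)) ≤ a := Int.mul_ediv_self_le hk.ne'
  have h2 : a + 1 ≤ 2 ^ (j - i) * (a / 2 ^ (j - i)) + 2 ^ (j - i) := by
    have := Int.lt_mul_ediv_self_add (x := a) hk
    omega
  have h1R : (2 : ℝ) ^ (j - i) * ((a / 2 ^ (j - i) : ℤ) : ℝ) ≤ a := by exact_mod_cast h1
  have h2R : (a : ℝ) + 1 ≤ (2 : ℝ) ^ (j - i) * ((a / 2 ^ (j - i) : ℤ) : ℝ) + 2 ^ (j - i) := by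
    exact_mod_cast h2
  have h3 : (2 : ℝ) ^ j * x = 2 ^ (j - i) * ((2 : ℝ) ^ i * x) := by
    rw [← mul_assoc, ← pow_add, Nat.sub_add_cancel hij]
  rw [h3] at h
  constructor
  · have : (2 : ℝ) ^ (j - i) * ((a / 2 ^ (j - i) : ℤ) : ℝ) ≤ 2 ^ (j - i) * ((2 : ℝ) ^ i * x) :=
      h1R.trans h.1
    exact le_of_mul_le_mul_left this hkR
  · have : (2 : ℝ) ^ (j - i) * ((2 : ℝ) ^ i * x) <
        2 ^ (j - i) * (((a / 2 ^ (j - i) : ℤ) : ℝ) + 1) := by
      rw [mul_add, mul_one]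
      exact lt_of_lt_of_le h.2 h2R
    exact lt_of_mul_lt_mul_left this hkR.le

/-- nesting of the squares -/
theorem sq_nested {i j : ℕ} (hij : i ≤ j) {a b : ℤ} {z : ℂ} (h : z ∈ sq j a b) :
    z ∈ sq i (a / 2 ^ (j - i)) (b / 2 ^ (j - i)) :=
  ⟨basic_floor_nested hij h.1, basic_floor_nested hij h.2⟩

end PinR
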