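import Pool.Agent.PinR.Dens

set_option autoImplicit false

/-!
PIN-DensB.  `dens_int_le`: the integral is the sum of the masses (`hasSum_sq`, `dens_setInt`, or
`dens = ∑ indicators`), at most one by `MT.total`.  `dens_int_one`: the integral does not depend on
the level (sum of `dens_diff_zm`) and is `w 0 0 0 = 1` at level `0`.
`dens_L1`: with `D = dens w j - 1_{unit square}`, `∫ D = 0`, so `∫ |D| = 2 ∫ D⁺ ≤ 2 (β^j - 1)`, as
`D ≤ β^j - 1` on the unit square and `D = 0` outside.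
`restr_MT`, `dens_restr`: `⌊2^5 x⌋ = ⌊2^j x⌋ / 2^(j-5)` (`sq_nested`).
-/

namespace PinR

open MeasureTheory

theorem densB_inj : Function.Injective (fun p : ℕ × ℕ => ((p.1 : ℤ), (p.2 : ℤ))) := by
  intro p q h
  have h1 := congrArg Prod.fst h
  have h2 := congrArg Prod.snd h
  simp only at h1 h2
  apply Prod.ext
  · exact_mod_cast h1
  · exact_mod_cast h2

theorem dens_int_eq {j0 J : ℕ} {β : ℝ} {w : ℕ → ℤ → ℤ → ℝ} (h : MT j0 J β w) {j : ℕ}
    (hj0 : j0 ≤ j) (hj : j ≤ J) : ∫ z, dens w j z =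
      ∑ a ∈ Finset.range (2 ^ j), ∑ b ∈ Finset.range (2 ^ j), w j (a : ℤ) (b : ℤ) := by
  have hi : Integrable (dens w j) := (dens_adm' h hj0 hj).integrable
  have h1 := hasSum_sq j (dens w j) hi
  have h2 : HasSum (fun p : ℤ × ℤ => w j p.1 p.2)
      (∑ p ∈ (Finset.range (2 ^ j) ×ˢ Finset.range (2 ^ j)).map ⟨_, densB_inj⟩,
        w j p.1 p.2) := by
    apply hasSum_sum_of_ne_finset_zero
    intro p hp
    by_contra hne
    apply hp
    obtain ⟨ha, ha', hb, hb'⟩ := h.supp j p.1 p.2 hj0 hj hne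
    rw [Finset.mem_map]
    refine ⟨(p.1.toNat, p.2.toNat), ?_, ?_⟩
    · rw [Finset.mem_product, Finset.mem_range, Finset.mem_range]
      constructor
      · zify
        rw [Int.toNat_of_nonneg ha]
        exact ha'
      · zify
        rw [Int.toNat_of_nonneg hb]
        exact hb'
    · apply Prod.ext
      · exact Int.toNat_of_nonneg ha
      · exact Int.toNat_of_nonneg hb
  have h3 : (fun p : ℤ × ℤ => ∫ z in sq j p.1 p.2, dens w j z) = fun p : ℤ × ℤ => w j p.1 p.2 := by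
    funext p
    exact dens_setInt w j p.1 p.2
  rw [h3] at h1
  rw [h1.unique h2, Finset.sum_map, Finset.sum_product]
  rfl

theorem dens_int_le {j0 J : ℕ} {β : ℝ} {w : ℕ → ℤ → ℤ → ℝ} (h : MT j0 J β w) (hβ : 1 ≤ β) {j : ℕ}
    (hj0 : j0 ≤ j) (hj : j ≤ J) : ∫ z, |dens w j z| ≤ 1 := by
  have h1 : (fun z => |dens w j z|) = dens w j := by
    funext z
    exact abs_of_nonneg (dens_nonneg h hj0 hj z)
  rw [h1, dens_int_eq h hj0 hj]
  exact h.total j hj0 hj

theorem dens_int_one {J : ℕ} {β : ℝ} {w : ℕ → ℤ → ℤ → ℝ} (h : MT 0 J β w) (hβ : 1 ≤ β)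
    (h0 : w 0 0 0 = 1) {j : ℕ} (hj : j ≤ J) : ∫ z, dens w j z = 1 := by
  induction j with
  | zero =>
    rw [dens_int_eq h le_rfl hj]
    simp [h0]
  | succ j ih =>
    have hi1 : Integrable (dens w (j + 1)) := (dens_adm' h (Nat.zero_le _) hj).integrable
    have hi0 : Integrable (dens w j) := (dens_adm' h (Nat.zero_le _) (by omega)).integrable
    have hz := dens_diff_zm h (j := j) (Nat.zero_le _) (by omega)
    have h1 := hasSum_sq j (fun z => dens w (j + 1) z - dens w j z) (hi1.sub hi0)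
    have h2 : (fun p : ℤ × ℤ => ∫ z in sq j p.1 p.2, (dens w (j + 1) z - dens w j z)) =
        fun _ => 0 := by
      funext p
      exact hz p.1 p.2
    rw [h2] at h1
    have h3 := h1.unique hasSum_zero
    rw [integral_sub hi1 hi0, ih (by omega)] at h3
    linarith

theorem unit_integrable : Integrable ((sq 0 0 0).indicator (fun _ => (1 : ℝ))) := by
  rw [integrable_indicator_iff (measurableSet_sq 0 0 0)]
  have hv : volume (sq 0 0 0) ≠ ⊤ := by
    rw [volume_sq]
    exact ENNReal.ofReal_ne_top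
  exact integrableOn_const hv

theorem unit_integral : ∫ z, (sq 0 0 0).indicator (fun _ => (1 : ℝ)) z = 1 := by
  rw [integral_indicator (measurableSet_sq 0 0 0), setIntegral_const, volume_real_sq]
  simp

theorem dens_L1 {J : ℕ} {β : ℝ} {w : ℕ → ℤ → ℤ → ℝ} (h : MT 0 J β w) (hβ : 1 ≤ β)
    (h0 : w 0 0 0 = 1) {j : ℕ} (hj : j ≤ J) :
    ∫ z, |dens w j z - (sq 0 0 0).indicator (fun _ => (1 : ℝ)) z| ≤ 2 * (β ^ j - 1) := by
  have hi : Integrable (dens w j) := (dens_adm' h (Nat.zero_le _) hj).integrable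
  have hB : 1 ≤ β ^ j := one_le_pow₀ hβ
  have hpt : ∀ z, |dens w j z - (sq 0 0 0).indicator (fun _ => (1 : ℝ)) z| ≤
      2 * (β ^ j - 1) * (sq 0 0 0).indicator (fun _ => (1 : ℝ)) z -
        (dens w j z - (sq 0 0 0).indicator (fun _ => (1 : ℝ)) z) := by
    intro z
    by_cases hz : z ∈ sq 0 0 0
    · rw [Set.indicator_of_mem hz]
      have h1 := dens_le h (Nat.zero_le _) hj z
      rcases le_total 0 (dens w j z - 1) with h2 | h2
      · rw [abs_of_nonneg h2]
        linarith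
      · rw [abs_of_nonpos h2]
        linarith
    · rw [Set.indicator_of_notMem hz, dens_zero h (Nat.zero_le _) hj z hz]
      simp
  have hint : Integrable (fun z => 2 * (β ^ j - 1) * (sq 0 0 0).indicator (fun _ => (1 : ℝ)) z -
        (dens w j z - (sq 0 0 0).indicator (fun _ => (1 : ℝ)) z)) :=
    (unit_integrable.const_mul _).sub (hi.sub unit_integrable)
  refine le_trans (integral_mono (hi.sub unit_integrable).abs hint hpt) ?_
  have e1 : ∫ z, (2 * (β ^ j - 1) * (sq 0 0 0).indicator (fun _ => (1 : ℝ)) z -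
      (dens w j z - (sq 0 0 0).indicator (fun _ => (1 : ℝ)) z)) =
      (∫ z, 2 * (β ^ j - 1) * (sq 0 0 0).indicator (fun _ => (1 : ℝ)) z) -
      ∫ z, (dens w j z - (sq 0 0 0).indicator (fun _ => (1 : ℝ)) z) :=
    integral_sub (unit_integrable.const_mul _) (hi.sub unit_integrable)
  have e2 : ∫ z, (dens w j z - (sq 0 0 0).indicator (fun _ => (1 : ℝ)) z) =
      (∫ z, dens w j z) - ∫ z, (sq 0 0 0).indicator (fun _ => (1 : ℝ)) z :=
    integral_sub hi unit_integrable
  rw [e1, e2, integral_const_mul, unit_integral, dens_int_one h hβ h0 hj]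
  linarith

theorem restr_MT {J : ℕ} {β : ℝ} {w : ℕ → ℤ → ℤ → ℝ} (h : MT 0 J β w) (hβ : 1 ≤ β) (a5 b5 : ℤ) :
    MT 5 J β (restr w a5 b5) := by
  have hle : ∀ (j : ℕ) (a b : ℤ), j ≤ J → restr w a5 b5 j a b ≤ w j a b := by
    intro j a b hj
    unfold restr
    split_ifs with hc
    · exact le_rfl
    · exact h.nonneg j a b (Nat.zero_le _) hj
  constructor
  · intro j a b _ hj
    unfold restr
    split_ifs with hc
    · exact h.nonneg j a b (Nat.zero_le _) hj
    · exact le_rfl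
  · intro j a b _ hj
    exact le_trans (hle j a b hj) (h.le j a b (Nat.zero_le _) hj)
  · intro j a b hj5 hj
    obtain ⟨i, rfl⟩ : ∃ i, j = 5 + i := ⟨j - 5, by omega⟩
    have e1 : 5 + i + 1 - 5 = i + 1 := by omega
    have e2 : 5 + i - 5 = i := by omega
    have hdiv : ∀ c : ℤ, (2 * c) / 2 ^ (i + 1) = c / 2 ^ i ∧ (2 * c + 1) / 2 ^ (i + 1) = c / 2 ^ i := by
      intro c
      have e3 : (2 : ℤ) ^ (i + 1) = 2 * 2 ^ i := by rw [pow_succ]; ring
      rw [e3, ← Int.ediv_ediv_of_nonneg (by norm_num), ← Int.ediv_ediv_of_nonneg (by norm_num)]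
      constructor
      · congr 1
        omega
      · congr 1
        omega
    unfold restr
    rw [e1, e2, (hdiv a).1, (hdiv a).2, (hdiv b).1, (hdiv b).2]
    split_ifs with hc
    · exact h.add (5 + i) a b (Nat.zero_le _) hj
    · ring
  · intro j a b _ hj hne
    apply h.supp j a b (Nat.zero_le _) hj
    intro h0
    apply hne
    unfold restr
    split_ifs with hc
    · exact h0
    · rfl
  · intro j _ hj
    refine le_trans ?_ (h.total j (Nat.zero_le _) hj)
    exact Finset.sum_le_sum (fun a _ => Finset.sum_le_sum (fun b _ => hle j a b hj))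

theorem dens_restr (w : ℕ → ℤ → ℤ → ℝ) (a5 b5 : ℤ) {j : ℕ} (hj : 5 ≤ j) (z : ℂ) :
    dens (restr w a5 b5) j z = (sq 5 a5 b5).indicator (dens w j) z := by
  have hm : z ∈ sq j ⌊(2 : ℝ) ^ j * z.re⌋ ⌊(2 : ℝ) ^ j * z.im⌋ := ⟨rfl, rfl⟩
  have h1 := sq_nested hj hm
  by_cases hz : z ∈ sq 5 a5 b5
  · rw [Set.indicator_of_mem hz]
    have ha : ⌊(2 : ℝ) ^ j * z.re⌋ / 2 ^ (j - 5) = a5 := h1.1.symm.trans hz.1
    have hb : ⌊(2 : ℝ) ^ j * z.im⌋ / 2 ^ (j - 5) = b5 := h1.2.symm.trans hz.2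
    unfold dens restr
    rw [if_pos ⟨ha, hb⟩]
  · rw [Set.indicator_of_notMem hz]
    unfold dens restr
    rw [if_neg]
    · ring
    · rintro ⟨ha, hb⟩
      apply hz
      rw [ha, hb] at h1
      exact h1

theorem restr_L1 {J : ℕ} {β : ℝ} {w : ℕ → ℤ → ℤ → ℝ} (h : MT 0 J β w) (hβ : 1 ≤ β)
    (h0 : w 0 0 0 = 1) {a5 b5 : ℤ} (ha : 0 ≤ a5 ∧ a5 < 32) (hb : 0 ≤ b5 ∧ b5 < 32) {j : ℕ}
    (hj5 : 5 ≤ j) (hj : j ≤ J) :
    ∫ z, |dens (restr w a5 b5) j z - (sq 5 a5 b5).indicator (fun _ => (1 : ℝ)) z| ≤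
      2 * (β ^ j - 1) := by
  have hi : Integrable (dens w j) := (dens_adm' h (Nat.zero_le _) hj).integrable
  have hir : Integrable (dens (restr w a5 b5) j) :=
    (dens_adm' (restr_MT h hβ a5 b5) hj5 hj).integrable
  have hA : Integrable ((sq 5 a5 b5).indicator (fun _ => (1 : ℝ))) := by
    rw [integrable_indicator_iff (measurableSet_sq 5 a5 b5)]
    have hv : volume (sq 5 a5 b5) ≠ ⊤ := by
      rw [volume_sq]
      exact ENNReal.ofReal_ne_top
    exact integrableOn_const hv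
  refine le_trans (integral_mono (hir.sub hA).abs (hi.sub unit_integrable).abs ?_)
    (dens_L1 h hβ h0 hj)
  intro z
  show |dens (restr w a5 b5) j z - (sq 5 a5 b5).indicator (fun _ => (1 : ℝ)) z| ≤
    |dens w j z - (sq 0 0 0).indicator (fun _ => (1 : ℝ)) z|
  rw [dens_restr w a5 b5 hj5 z]
  by_cases hz : z ∈ sq 5 a5 b5
  · have hz0 : z ∈ sq 0 0 0 := by
      have h1 := sq_nested (i := 0) (j := 5) (by norm_num) hz
      have ea : a5 / 2 ^ (5 - 0) = 0 := by
        norm_num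
        omega
      have eb : b5 / 2 ^ (5 - 0) = 0 := by
        norm_num
        omega
      rw [ea, eb] at h1
      exact h1
    rw [Set.indicator_of_mem hz, Set.indicator_of_mem hz, Set.indicator_of_mem hz0]
  · rw [Set.indicator_of_notMem hz, Set.indicator_of_notMem hz, sub_zero, abs_zero]
    exact abs_nonneg _

end PinR
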