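import Pool.Agent.PinR.Basic

set_option autoImplicit false

/-!
PIN-Disc: a function with integral zero on all dyadic squares of level `j` has small integrals over
discs.  Let `U` be the union of the squares of level `j` contained in `ball c R`: `∫_U F = 0`
(`hasSum_sq`, or `integral_iUnion`), and every point of `ball c R \ U` has distance
`> R - 2 (1/2)^j` from `c` (`sq_dist`), so with `δ = (1/2)^j`,
`|∫_{ball} F| ≤ B * area (ball c R \ ball c (R - 2 δ)) ≤ 4 π δ R B`
(for `R < 2 δ` the area is `π R^2 ≤ 2 π δ R`; `Complex.volume_ball`).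
-/

namespace PinR

open MeasureTheory

theorem Disc_vol (c : ℂ) {r : ℝ} (hr : 0 ≤ r) : volume.real (Metric.ball c r) = Real.pi * r ^ 2 := by
  rw [measureReal_def, Complex.volume_ball, ENNReal.toReal_mul, ENNReal.toReal_pow,
    ENNReal.toReal_ofReal hr, mul_comm]
  rfl

theorem Disc_ann (c : ℂ) {R δ : ℝ} (hR : 0 < R) (hδ : 0 < δ) :
    volume.real (Metric.ball c R \ Metric.ball c (R - 2 * δ)) ≤ 4 * Real.pi * δ * R := by
  have hpi := Real.pi_pos
  rcases le_or_gt (2 * δ) R with h | h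
  · have h1 : Metric.ball c (R - 2 * δ) ⊆ Metric.ball c R := Metric.ball_subset_ball (by linarith)
    rw [measureReal_sdiff h1 Metric.isOpen_ball.measurableSet, Disc_vol c hR.le,
      Disc_vol c (by linarith : (0:ℝ) ≤ R - 2 * δ)]
    nlinarith [mul_pos hpi (mul_pos hδ hδ)]
  · have h1 : volume.real (Metric.ball c R \ Metric.ball c (R - 2 * δ)) ≤
        volume.real (Metric.ball c R) := measureReal_mono Set.sdiff_subset
    rw [Disc_vol c hR.le] at h1
    have h2 : Real.pi * R ^ 2 ≤ Real.pi * (4 * δ * R) :=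
      mul_le_mul_of_nonneg_left (by nlinarith) hpi.le
    linarith

theorem disc_bound (j : ℕ) (B : ℝ) (F : ℂ → ℝ) (hF : Adm B F) (hz : ZM j F) :
    DB ((1 / 2 : ℝ) ^ j) B F := by
  intro c R hR
  obtain ⟨δ, hδ⟩ : ∃ δ, δ = (1 / 2 : ℝ) ^ j := ⟨_, rfl⟩
  rw [← hδ]
  have hδ0 : 0 < δ := by rw [hδ]; positivity
  have hB := hF.nonneg_B
  have hint := hF.integrable
  obtain ⟨S, hS⟩ : ∃ S : Set (ℤ × ℤ), S = {p | sq j p.1 p.2 ⊆ Metric.ball c R} := ⟨_, rfl⟩
  obtain ⟨U, hU⟩ : ∃ U : Set ℂ, U = ⋃ p : S, sq j p.1.1 p.1.2 := ⟨_, rfl⟩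
  have hUm : MeasurableSet U := by
    rw [hU]
    exact MeasurableSet.iUnion fun p => measurableSet_sq j _ _
  have hUb : U ⊆ Metric.ball c R := by
    rw [hU]
    have hS' : ∀ p ∈ S, sq j p.1 p.2 ⊆ Metric.ball c R := by
      rw [hS]
      exact fun p hp => hp
    exact Set.iUnion_subset fun p => hS' p.1 p.2
  have hU0 : ∫ z in U, F z = 0 := by
    rw [hU, integral_iUnion (fun p : S => measurableSet_sq j p.1.1 p.1.2) ?_ hint.integrableOn]
    · simp only [hz _ _, tsum_zero]
    · intro p q hpq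
      exact sq_disjoint fun h => hpq (Subtype.ext h)
  have h1 : ∫ z in Metric.ball c R, F z = ∫ z in Metric.ball c R \ U, F z := by
    have h2 := setIntegral_sdiff hUm (f := F) (μ := volume) hint.integrableOn hUb
    rw [hU0, sub_zero] at h2
    exact h2.symm
  have hsub : Metric.ball c R \ U ⊆ Metric.ball c R \ Metric.ball c (R - 2 * δ) := by
    rintro z ⟨hz1, hz2⟩
    refine ⟨hz1, fun h3 => hz2 ?_⟩
    have h4 : z ∈ ⋃ p : ℤ × ℤ, sq j p.1 p.2 := by
      rw [iUnion_sq]
      exact Set.mem_univ z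
    obtain ⟨p, hp⟩ := Set.mem_iUnion.1 h4
    have h5 : p ∈ S := by
      rw [hS]
      intro z' hz'
      have h6 := sq_dist hz' hp
      rw [Metric.mem_ball, dist_eq_norm] at h3 ⊢
      have h7 : ‖z' - c‖ ≤ ‖z' - z‖ + ‖z - c‖ := by
        have e : z' - c = (z' - z) + (z - c) := by ring
        rw [e]
        exact norm_add_le _ _
      rw [← hδ] at h6
      linarith
    rw [hU]
    exact Set.mem_iUnion.2 ⟨⟨p, h5⟩, hp⟩
  have hfin : volume (Metric.ball c R) < ⊤ := measure_ball_lt_top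
  have hfin2 : volume (Metric.ball c R \ U) < ⊤ := (measure_mono Set.sdiff_subset).trans_lt hfin
  have h8 : ‖∫ z in Metric.ball c R \ U, F z‖ ≤ B * volume.real (Metric.ball c R \ U) :=
    norm_setIntegral_le_of_norm_le_const hfin2 fun z _ => by
      rw [Real.norm_eq_abs]
      exact hF.2.1 z
  have h9 : volume.real (Metric.ball c R \ U) ≤
      volume.real (Metric.ball c R \ Metric.ball c (R - 2 * δ)) :=
    measureReal_mono hsub ((measure_mono Set.sdiff_subset).trans_lt hfin).ne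
  rw [h1, ← Real.norm_eq_abs]
  calc ‖∫ z in Metric.ball c R \ U, F z‖ ≤ B * volume.real (Metric.ball c R \ U) := h8
    _ ≤ B * (4 * Real.pi * δ * R) :=
      mul_le_mul_of_nonneg_left (h9.trans (Disc_ann c hR hδ0)) hB
    _ = 4 * Real.pi * δ * R * B := by ring

end PinR
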