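import Pool.Agent.PinR.Basic

set_option autoImplicit false

/-!
PIN-Rot: the rotations.  `sI N i ∈ (-4/5, -3/5]` for `i < N`; `‖rot N i‖ = 1`;
`‖rot N i - rot N j‖ ≥ |re| = (1/5) |i - j| / N`.
With `l i = ρ rot N i - κ`: `re (l i) ≤ 0`, `‖l i‖^2 = ρ^2 - 2 κ ρ s + κ^2 ≥ ρ^2`,
`‖l i‖ ≤ ρ + κ`, and
`‖1/l i - 1/l j‖ = ρ ‖rot N i - rot N j‖ / (‖l i‖ ‖l j‖) ≥ (2/9) (1/5) |i - j|/N`
(`ρ/(ρ+κ)^2 ≥ ρ/(ρ+1)^2 ≥ 2/9` for `1 ≤ ρ ≤ 2`).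
-/

namespace PinR

open MeasureTheory

private lemma Rot_sI {N i : ℕ} (hN : 1 ≤ N) (hi : i < N) :
    -(4 / 5) ≤ sI N i ∧ sI N i ≤ -(3 / 5) := by
  have h1 : (0 : ℝ) < N := by exact_mod_cast hN
  have h2 : (0 : ℝ) ≤ (i : ℝ) / N := by positivity
  have h3 : (i : ℝ) / N ≤ 1 := by
    rw [div_le_one h1]
    exact_mod_cast hi.le
  unfold sI
  constructor <;> linarith

private lemma Rot_sq {N i : ℕ} (hN : 1 ≤ N) (hi : i < N) :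
    sI N i ^ 2 + Real.sqrt (1 - sI N i ^ 2) ^ 2 = 1 := by
  obtain ⟨h1, h2⟩ := Rot_sI hN hi
  rw [Real.sq_sqrt (by nlinarith)]
  ring

theorem norm_rot {N i : ℕ} (hN : 1 ≤ N) (hi : i < N) : ‖rot N i‖ = 1 := by
  have h1 : ‖rot N i‖ ^ 2 = 1 := by
    rw [Complex.sq_norm, Complex.normSq_apply]
    show sI N i * sI N i + Real.sqrt (1 - sI N i ^ 2) * Real.sqrt (1 - sI N i ^ 2) = 1
    linear_combination Rot_sq hN hi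
  nlinarith [norm_nonneg (rot N i)]

theorem rot_re {N i : ℕ} (hN : 1 ≤ N) (hi : i < N) :
    -(4 / 5) ≤ (rot N i).re ∧ (rot N i).re ≤ -(3 / 5) := Rot_sI hN hi

theorem rot_im {N i : ℕ} (hN : 1 ≤ N) (hi : i < N) :
    3 / 5 ≤ (rot N i).im ∧ (rot N i).im ≤ 4 / 5 := by
  obtain ⟨h1, h2⟩ := Rot_sI hN hi
  show 3 / 5 ≤ Real.sqrt (1 - sI N i ^ 2) ∧ Real.sqrt (1 - sI N i ^ 2) ≤ 4 / 5
  constructor
  · apply Real.le_sqrt_of_sq_le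
    nlinarith
  · rw [Real.sqrt_le_left (by norm_num)]
    nlinarith

theorem rot_sep {N i j : ℕ} (hN : 1 ≤ N) :
    (1 / 5 : ℝ) * (|(i : ℝ) - (j : ℝ)| / N) ≤ ‖rot N i - rot N j‖ := by
  have h0 : (0 : ℝ) < N := by exact_mod_cast hN
  refine le_trans (le_of_eq ?_) (Complex.abs_re_le_norm _)
  show (1 / 5 : ℝ) * (|(i : ℝ) - (j : ℝ)| / N) = |sI N i - sI N j|
  have h1 : sI N i - sI N j = -((1 / 5 : ℝ) * (((i : ℝ) - (j : ℝ)) / N)) := by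
    unfold sI
    ring
  rw [h1, abs_neg, abs_mul, abs_of_pos (by norm_num : (0 : ℝ) < 1 / 5), abs_div, abs_of_pos h0]

theorem conj_rot_sep {N i j : ℕ} (hN : 1 ≤ N) (_hi : i < N) (_hj : j < N) :
    (1 / 25 : ℝ) * (|(i : ℝ) - (j : ℝ)| / N) ≤
      ‖(starRingEnd ℂ) (rot N i) - (starRingEnd ℂ) (rot N j)‖ := by
  rw [← map_sub, RCLike.norm_conj]
  have h1 := rot_sep (N := N) (i := i) (j := j) hN
  have h2 : (0 : ℝ) ≤ |(i : ℝ) - (j : ℝ)| / N := by positivity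
  linarith

private lemma Rot_lam_sq {N i : ℕ} (hN : 1 ≤ N) (hi : i < N) (κ ρ : ℝ) :
    ‖(ρ : ℂ) * rot N i - (κ : ℂ)‖ ^ 2 = ρ ^ 2 - 2 * κ * ρ * sI N i + κ ^ 2 := by
  have h1 : ((ρ : ℂ) * rot N i - (κ : ℂ)).re = ρ * sI N i - κ := by
    simp [rot]
  have h2 : ((ρ : ℂ) * rot N i - (κ : ℂ)).im = ρ * Real.sqrt (1 - sI N i ^ 2) := by
    simp [rot]
  rw [Complex.sq_norm, Complex.normSq_apply, h1, h2]
  linear_combination ρ ^ 2 * Rot_sq hN hi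

theorem one_le_norm_lam {N i : ℕ} (hN : 1 ≤ N) (hi : i < N) {κ ρ : ℝ} (hκ : 0 ≤ κ) (hρ : 1 ≤ ρ) :
    1 ≤ ‖(ρ : ℂ) * rot N i - (κ : ℂ)‖ := by
  obtain ⟨h1, h2⟩ := Rot_sI hN hi
  have h3 := Rot_lam_sq hN hi κ ρ
  have h4 : 0 ≤ κ * ρ * (-sI N i) := by
    have : 0 ≤ -sI N i := by linarith
    positivity
  have h5 : 1 ≤ ‖(ρ : ℂ) * rot N i - (κ : ℂ)‖ ^ 2 := by
    rw [h3]
    nlinarith [sq_nonneg κ]
  nlinarith [norm_nonneg ((ρ : ℂ) * rot N i - (κ : ℂ))]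

private lemma Rot_lam_le {N i : ℕ} (hN : 1 ≤ N) (hi : i < N) {κ ρ : ℝ} (hκ : 0 ≤ κ) (hκ1 : κ ≤ 1)
    (hρ : 1 ≤ ρ) : ‖(ρ : ℂ) * rot N i - (κ : ℂ)‖ ≤ ρ + 1 := by
  refine (norm_sub_le _ _).trans ?_
  rw [norm_mul, norm_rot hN hi, mul_one, Complex.norm_real, Complex.norm_real,
    Real.norm_of_nonneg (by linarith), Real.norm_of_nonneg hκ]
  linarith

theorem norm_lam_le {N i : ℕ} (hN : 1 ≤ N) (hi : i < N) {κ ρ : ℝ} (hκ : 0 ≤ κ) (hκ1 : κ ≤ 1)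
    (hρ : 1 ≤ ρ) (hρ2 : ρ ≤ 2) : ‖(ρ : ℂ) * rot N i - (κ : ℂ)‖ ≤ 3 := by
  have h1 := Rot_lam_le hN hi hκ hκ1 hρ
  linarith

theorem inv_lam_sep {N i j : ℕ} (hN : 1 ≤ N) (hi : i < N) (hj : j < N) {κ ρ : ℝ} (hκ : 0 ≤ κ)
    (hκ1 : κ ≤ 1) (hρ : 1 ≤ ρ) (hρ2 : ρ ≤ 2) :
    (1 / 25 : ℝ) * (|(i : ℝ) - (j : ℝ)| / N) ≤
      ‖-((ρ : ℂ) * rot N i - (κ : ℂ))⁻¹ - -((ρ : ℂ) * rot N j - (κ : ℂ))⁻¹‖ := by
  obtain ⟨a, ha⟩ : ∃ a, a = (ρ : ℂ) * rot N i - (κ : ℂ) := ⟨_, rfl⟩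
  obtain ⟨b, hb⟩ : ∃ b, b = (ρ : ℂ) * rot N j - (κ : ℂ) := ⟨_, rfl⟩
  have ha1 : 1 ≤ ‖a‖ := by
    rw [ha]
    exact one_le_norm_lam hN hi hκ hρ
  have hb1 : 1 ≤ ‖b‖ := by
    rw [hb]
    exact one_le_norm_lam hN hj hκ hρ
  have ha2 : ‖a‖ ≤ ρ + 1 := by
    rw [ha]
    exact Rot_lam_le hN hi hκ hκ1 hρ
  have hb2 : ‖b‖ ≤ ρ + 1 := by
    rw [hb]
    exact Rot_lam_le hN hj hκ hκ1 hρ
  have ha0 : a ≠ 0 := by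
    intro h
    rw [h, norm_zero] at ha1
    linarith
  have hb0 : b ≠ 0 := by
    intro h
    rw [h, norm_zero] at hb1
    linarith
  rw [← ha, ← hb]
  have e1 : -a⁻¹ - -b⁻¹ = (a - b) * (a * b)⁻¹ := by
    field_simp
    ring
  have e2 : a - b = (ρ : ℂ) * (rot N i - rot N j) := by
    rw [ha, hb]
    ring
  obtain ⟨x, hx⟩ : ∃ x, x = |(i : ℝ) - (j : ℝ)| / N := ⟨_, rfl⟩
  have hx0 : 0 ≤ x := by
    rw [hx]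
    positivity
  have h1 : (1 / 5 : ℝ) * x ≤ ‖rot N i - rot N j‖ := by
    rw [hx]
    exact rot_sep hN
  rw [e1, norm_mul, norm_inv, norm_mul, e2, norm_mul, Complex.norm_real,
    Real.norm_of_nonneg (by linarith : (0 : ℝ) ≤ ρ), ← hx, ← div_eq_mul_inv,
    le_div_iff₀ (by positivity)]
  have h2 : ‖a‖ * ‖b‖ ≤ (ρ + 1) * (ρ + 1) :=
    mul_le_mul ha2 hb2 (norm_nonneg _) (by linarith)
  have h3 : (ρ + 1) * (ρ + 1) ≤ 5 * ρ := by nlinarith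
  calc 1 / 25 * x * (‖a‖ * ‖b‖) ≤ 1 / 25 * x * (5 * ρ) :=
        mul_le_mul_of_nonneg_left (h2.trans h3) (by positivity)
    _ = ρ * (1 / 5 * x) := by ring
    _ ≤ ρ * ‖rot N i - rot N j‖ := mul_le_mul_of_nonneg_left h1 (by linarith)

end PinR
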