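import Pool.Agent.PinR.Lin
import Pool.Agent.PinR.Rot

set_option autoImplicit false

/-!
PIN-Geo: the main term.  `x ∈ sq 5 15 15`; let `p0 = x0 + κ (15/32 + 15/32 i)`.
`re p0 < 1/2, im p0 < 1/2`: `(a2, b2) = (15, 9)` (direction `-i`);
`re p0 ≥ 1/2, im p0 < 1/2`: `(21, 15)` (direction `1`);
`re p0 ≥ 1/2, im p0 ≥ 1/2`: `(15, 21)` (direction `i`);
`re p0 < 1/2, im p0 ≥ 1/2`: `(9, 15)` (direction `-1`).
With `y - x = d (t + i τ)`, `5/32 < t < 7/32`, `|τ| < 1/32`, and `rot = (-m1, m2)`,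
`m1, m2 ∈ [3/5, 4/5]`: the two coordinates of `rot * (y - x)` have absolute value in
`[(3 - 0.8)/32, 6.4/32]` and the sign that points from `p0` to the centre; times `ρ ∈ [1, 2]`:
`[0.06, 0.4]`; and the coordinates of `p = x0 + κ x` are those of `p0` plus something in `[0, 1/32)`.
`lam_main`: the integrand is the indicator of `x ∈ A1, x + v ∈ A2`; shear, product,
area `(1/4)^5 * (1/4)^5`.
-/

namespace PinR

open MeasureTheory

/-- the displacements -/
theorem Geo_key {m m' t τ ρ : ℝ} (h1 : 3 / 5 ≤ m) (h2 : m ≤ 4 / 5) (h3 : 0 ≤ m')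
    (h4 : m' ≤ 4 / 5) (h5 : 5 / 32 ≤ t) (h6 : t ≤ 7 / 32) (h7 : -(1 / 32) ≤ τ) (h8 : τ ≤ 1 / 32)
    (h9 : 1 ≤ ρ) (h10 : ρ ≤ 2) : 1 / 16 ≤ ρ * (m * t + m' * τ) ∧ ρ * (m * t + m' * τ) ≤ 2 / 5 := by
  have a1 : 3 / 32 ≤ m * t := by
    calc (3 / 32 : ℝ) = 3 / 5 * (5 / 32) := by norm_num
      _ ≤ m * t := mul_le_mul h1 h5 (by norm_num) (by linarith)
  have a2 : m * t ≤ 7 / 40 := by
    calc m * t ≤ 4 / 5 * (7 / 32) := mul_le_mul h2 h6 (by linarith) (by norm_num)
      _ = 7 / 40 := by norm_num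
  have a3 : m' * τ ≤ 1 / 40 := by
    calc m' * τ ≤ m' * (1 / 32) := mul_le_mul_of_nonneg_left h8 h3
      _ ≤ 4 / 5 * (1 / 32) := mul_le_mul_of_nonneg_right h4 (by norm_num)
      _ = 1 / 40 := by norm_num
  have a4 : -(1 / 40) ≤ m' * τ := by
    calc -(1 / 40 : ℝ) = -(4 / 5 * (1 / 32)) := by norm_num
      _ ≤ -(m' * (1 / 32)) := neg_le_neg (mul_le_mul_of_nonneg_right h4 (by norm_num))
      _ = m' * (-(1 / 32)) := by ring
      _ ≤ m' * τ := mul_le_mul_of_nonneg_left h7 h3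
  have a5 : 1 / 16 ≤ m * t + m' * τ := by linarith
  have a6 : m * t + m' * τ ≤ 1 / 5 := by linarith
  constructor
  · calc (1 / 16 : ℝ) ≤ m * t + m' * τ := a5
      _ = 1 * (m * t + m' * τ) := (one_mul _).symm
      _ ≤ ρ * (m * t + m' * τ) := mul_le_mul_of_nonneg_right h9 (by linarith)
  · calc ρ * (m * t + m' * τ) ≤ 2 * (m * t + m' * τ) := mul_le_mul_of_nonneg_right h10 (by linarith)
      _ ≤ 2 / 5 := by linarith

/-- coordinates of the point -/
theorem Geo_re (κ ρ : ℝ) (x0 u x y : ℂ) : (x0 + (κ : ℂ) * x + (ρ : ℂ) * u * (y - x)).re =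
    x0.re + κ * x.re + ρ * (u.re * (y.re - x.re) - u.im * (y.im - x.im)) := by
  simp only [Complex.add_re, Complex.mul_re, Complex.mul_im, Complex.ofReal_re, Complex.ofReal_im,
    Complex.sub_re, Complex.sub_im]
  ring

theorem Geo_im (κ ρ : ℝ) (x0 u x y : ℂ) : (x0 + (κ : ℂ) * x + (ρ : ℂ) * u * (y - x)).im =
    x0.im + κ * x.im + ρ * (u.im * (y.re - x.re) + u.re * (y.im - x.im)) := by
  simp only [Complex.add_im, Complex.mul_re, Complex.mul_im, Complex.ofReal_re, Complex.ofReal_im,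
    Complex.sub_re, Complex.sub_im]
  ring

/-- the square of level five -/
theorem Geo_sq5 {a b : ℤ} {z : ℂ} (h : z ∈ sq 5 a b) :
    (a : ℝ) / 32 ≤ z.re ∧ z.re < ((a : ℝ) + 1) / 32 ∧
      (b : ℝ) / 32 ≤ z.im ∧ z.im < ((b : ℝ) + 1) / 32 := by
  have h1 := mem_sq_iff.1 h
  norm_num at h1
  exact h1

theorem Geo_norm_re {w : ℂ} {c : ℝ} (h : c ≤ |w.re|) : c ≤ ‖w‖ := h.trans (Complex.abs_re_le_norm w)

theorem Geo_norm_im {w : ℂ} {c : ℝ} (h : c ≤ |w.im|) : c ≤ ‖w‖ := h.trans (Complex.abs_im_le_norm w)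

/-- position of the coordinate of `x0 + κ x` -/
theorem Geo_pos {κ c s : ℝ} (h0 : 0 ≤ κ) (h1 : κ ≤ 1) (hc : 0 ≤ c) (hc1 : c + κ ≤ 1)
    (hs1 : 15 / 32 ≤ s) (hs2 : s < 1 / 2) :
    0 ≤ c + κ * s ∧ c + κ * s ≤ 1 ∧ c + κ * (15 / 32) ≤ c + κ * s ∧
      c + κ * s ≤ c + κ * (15 / 32) + 1 / 32 := by
  have a1 : κ * (15 / 32) ≤ κ * s := mul_le_mul_of_nonneg_left hs1 h0
  have a2 : κ * s ≤ κ * (1 / 2) := mul_le_mul_of_nonneg_left hs2.le h0
  refine ⟨?_, ?_, ?_, ?_⟩ <;> linarith

theorem geo (κ ρ : ℝ) (x0 : ℂ) (hP : Par κ ρ x0) :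
    ∃ a2 b2 : ℤ, (0 ≤ a2 ∧ a2 < 32) ∧ (0 ≤ b2 ∧ b2 < 32) ∧
      (∀ x ∈ sq 5 15 15, ∀ y ∈ sq 5 a2 b2, 1 / 8 ≤ ‖y - x‖) ∧
      ∀ N i : ℕ, 1 ≤ N → i < N → ∀ x ∈ sq 5 15 15, ∀ y ∈ sq 5 a2 b2,
        x0 + (κ : ℂ) * x + (ρ : ℂ) * rot N i * (y - x) ∈ sq 0 0 0 := by
  obtain ⟨k0, k1, r1, r2, re0, re1, im0, im1⟩ := hP
  rcases lt_or_ge (x0.re + κ * (15 / 32)) (1 / 2) with hre | hre
  · rcases lt_or_ge (x0.im + κ * (15 / 32)) (1 / 2) with him | him
    · -- direction `-i`
      refine ⟨15, 9, ⟨by norm_num, by norm_num⟩, ⟨by norm_num, by norm_num⟩, ?_, ?_⟩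
      · intro x hx y hy
        have hx' := Geo_sq5 hx
        have hy' := Geo_sq5 hy
        norm_num at hx' hy'
        apply Geo_norm_im
        rw [Complex.sub_im, abs_of_nonpos (by linarith)]
        linarith
      · intro N i hN hi x hx y hy
        have hx' := Geo_sq5 hx
        have hy' := Geo_sq5 hy
        norm_num at hx' hy'
        obtain ⟨hm1, hm2⟩ := rot_re hN hi
        obtain ⟨hm3, hm4⟩ := rot_im hN hi
        have P1 := Geo_pos k0 k1 re0 re1 (s := x.re) (by linarith) (by linarith)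
        have P2 := Geo_pos k0 k1 im0 im1 (s := x.im) (by linarith) (by linarith)
        rw [mem_unit_iff, Geo_re, Geo_im]
        have e1 : (rot N i).re * (y.re - x.re) - (rot N i).im * (y.im - x.im) =
            (rot N i).im * (x.im - y.im) + -(rot N i).re * (x.re - y.re) := by ring
        have e2 : (rot N i).im * (y.re - x.re) + (rot N i).re * (y.im - x.im) =
            -(rot N i).re * (x.im - y.im) + (rot N i).im * (y.re - x.re) := by ring
        rw [e1, e2]
        have K1 := Geo_key (m := (rot N i).im) (m' := -(rot N i).re) (t := x.im - y.im)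
          (τ := x.re - y.re) hm3 hm4 (by linarith) (by linarith) (by linarith) (by linarith)
          (by linarith) (by linarith) r1 r2
        have K2 := Geo_key (m := -(rot N i).re) (m' := (rot N i).im) (t := x.im - y.im)
          (τ := y.re - x.re) (by linarith) (by linarith) (by linarith) hm4 (by linarith)
          (by linarith) (by linarith) (by linarith) r1 r2
        refine ⟨?_, ?_, ?_, ?_⟩ <;> linarith [P1.1, P1.2.1, P1.2.2.1, P1.2.2.2, P2.1, P2.2.1,
          P2.2.2.1, P2.2.2.2, K1.1, K1.2, K2.1, K2.2]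
    · -- direction `-1`
      refine ⟨9, 15, ⟨by norm_num, by norm_num⟩, ⟨by norm_num, by norm_num⟩, ?_, ?_⟩
      · intro x hx y hy
        have hx' := Geo_sq5 hx
        have hy' := Geo_sq5 hy
        norm_num at hx' hy'
        apply Geo_norm_re
        rw [Complex.sub_re, abs_of_nonpos (by linarith)]
        linarith
      · intro N i hN hi x hx y hy
        have hx' := Geo_sq5 hx
        have hy' := Geo_sq5 hy
        norm_num at hx' hy'
        obtain ⟨hm1, hm2⟩ := rot_re hN hi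
        obtain ⟨hm3, hm4⟩ := rot_im hN hi
        have P1 := Geo_pos k0 k1 re0 re1 (s := x.re) (by linarith) (by linarith)
        have P2 := Geo_pos k0 k1 im0 im1 (s := x.im) (by linarith) (by linarith)
        rw [mem_unit_iff, Geo_re, Geo_im]
        have e1 : (rot N i).re * (y.re - x.re) - (rot N i).im * (y.im - x.im) =
            -(rot N i).re * (x.re - y.re) + (rot N i).im * (x.im - y.im) := by ring
        have e2 : (rot N i).im * (y.re - x.re) + (rot N i).re * (y.im - x.im) =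
            -((rot N i).im * (x.re - y.re) + -(rot N i).re * (y.im - x.im)) := by ring
        rw [e1, e2]
        have K1 := Geo_key (m := -(rot N i).re) (m' := (rot N i).im) (t := x.re - y.re)
          (τ := x.im - y.im) (by linarith) (by linarith) (by linarith) hm4 (by linarith)
          (by linarith) (by linarith) (by linarith) r1 r2
        have K2 := Geo_key (m := (rot N i).im) (m' := -(rot N i).re) (t := x.re - y.re)
          (τ := y.im - x.im) hm3 hm4 (by linarith) (by linarith) (by linarith) (by linarith)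
          (by linarith) (by linarith) r1 r2
        rw [mul_neg]
        refine ⟨?_, ?_, ?_, ?_⟩ <;> linarith [P1.1, P1.2.1, P1.2.2.1, P1.2.2.2, P2.1, P2.2.1,
          P2.2.2.1, P2.2.2.2, K1.1, K1.2, K2.1, K2.2]
  · rcases lt_or_ge (x0.im + κ * (15 / 32)) (1 / 2) with him | him
    · -- direction `1`
      refine ⟨21, 15, ⟨by norm_num, by norm_num⟩, ⟨by norm_num, by norm_num⟩, ?_, ?_⟩
      · intro x hx y hy
        have hx' := Geo_sq5 hx
        have hy' := Geo_sq5 hy
        norm_num at hx' hy'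
        apply Geo_norm_re
        rw [Complex.sub_re, abs_of_nonneg (by linarith)]
        linarith
      · intro N i hN hi x hx y hy
        have hx' := Geo_sq5 hx
        have hy' := Geo_sq5 hy
        norm_num at hx' hy'
        obtain ⟨hm1, hm2⟩ := rot_re hN hi
        obtain ⟨hm3, hm4⟩ := rot_im hN hi
        have P1 := Geo_pos k0 k1 re0 re1 (s := x.re) (by linarith) (by linarith)
        have P2 := Geo_pos k0 k1 im0 im1 (s := x.im) (by linarith) (by linarith)
        rw [mem_unit_iff, Geo_re, Geo_im]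
        have e1 : (rot N i).re * (y.re - x.re) - (rot N i).im * (y.im - x.im) =
            -(-(rot N i).re * (y.re - x.re) + (rot N i).im * (y.im - x.im)) := by ring
        have e2 : (rot N i).im * (y.re - x.re) + (rot N i).re * (y.im - x.im) =
            (rot N i).im * (y.re - x.re) + -(rot N i).re * (x.im - y.im) := by ring
        rw [e1, e2]
        have K1 := Geo_key (m := -(rot N i).re) (m' := (rot N i).im) (t := y.re - x.re)
          (τ := y.im - x.im) (by linarith) (by linarith) (by linarith) hm4 (by linarith)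
          (by linarith) (by linarith) (by linarith) r1 r2
        have K2 := Geo_key (m := (rot N i).im) (m' := -(rot N i).re) (t := y.re - x.re)
          (τ := x.im - y.im) hm3 hm4 (by linarith) (by linarith) (by linarith) (by linarith)
          (by linarith) (by linarith) r1 r2
        rw [mul_neg]
        refine ⟨?_, ?_, ?_, ?_⟩ <;> linarith [P1.1, P1.2.1, P1.2.2.1, P1.2.2.2, P2.1, P2.2.1,
          P2.2.2.1, P2.2.2.2, K1.1, K1.2, K2.1, K2.2]
    · -- direction `i`
      refine ⟨15, 21, ⟨by norm_num, by norm_num⟩, ⟨by norm_num, by norm_num⟩, ?_, ?_⟩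
      · intro x hx y hy
        have hx' := Geo_sq5 hx
        have hy' := Geo_sq5 hy
        norm_num at hx' hy'
        apply Geo_norm_im
        rw [Complex.sub_im, abs_of_nonneg (by linarith)]
        linarith
      · intro N i hN hi x hx y hy
        have hx' := Geo_sq5 hx
        have hy' := Geo_sq5 hy
        norm_num at hx' hy'
        obtain ⟨hm1, hm2⟩ := rot_re hN hi
        obtain ⟨hm3, hm4⟩ := rot_im hN hi
        have P1 := Geo_pos k0 k1 re0 re1 (s := x.re) (by linarith) (by linarith)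
        have P2 := Geo_pos k0 k1 im0 im1 (s := x.im) (by linarith) (by linarith)
        rw [mem_unit_iff, Geo_re, Geo_im]
        have e1 : (rot N i).re * (y.re - x.re) - (rot N i).im * (y.im - x.im) =
            -((rot N i).im * (y.im - x.im) + -(rot N i).re * (y.re - x.re)) := by ring
        have e2 : (rot N i).im * (y.re - x.re) + (rot N i).re * (y.im - x.im) =
            -(-(rot N i).re * (y.im - x.im) + (rot N i).im * (x.re - y.re)) := by ring
        rw [e1, e2]
        have K1 := Geo_key (m := (rot N i).im) (m' := -(rot N i).re) (t := y.im - x.im)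
          (τ := y.re - x.re) hm3 hm4 (by linarith) (by linarith) (by linarith) (by linarith)
          (by linarith) (by linarith) r1 r2
        have K2 := Geo_key (m := -(rot N i).re) (m' := (rot N i).im) (t := y.im - x.im)
          (τ := x.re - y.re) (by linarith) (by linarith) (by linarith) hm4 (by linarith)
          (by linarith) (by linarith) (by linarith) r1 r2
        rw [mul_neg, mul_neg]
        refine ⟨?_, ?_, ?_, ?_⟩ <;> linarith [P1.1, P1.2.1, P1.2.2.1, P1.2.2.2, P2.1, P2.2.1,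
          P2.2.2.1, P2.2.2.2, K1.1, K1.2, K2.1, K2.2]

/-- the set of the main term -/
theorem Geo_vol (A1 A2 : Set ℂ) (h1 : MeasurableSet A1) (h2 : MeasurableSet A2) :
    volume {p : ℂ × ℂ | p.2 ∈ A1 ∧ p.2 + p.1 ∈ A2} = volume A2 * volume A1 := by
  have hm : MeasurableSet {p : ℂ × ℂ | p.2 ∈ A1 ∧ p.2 + p.1 ∈ A2} :=
    (measurable_snd h1).inter ((measurable_snd.add measurable_fst) h2)
  rw [Measure.volume_eq_prod, Measure.prod_apply_symm hm]
  have h3 : ∀ y : ℂ, volume ((fun x : ℂ => (x, y)) ⁻¹' {p : ℂ × ℂ | p.2 ∈ A1 ∧ p.2 + p.1 ∈ A2}) =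
      A1.indicator (fun _ => volume A2) y := by
    intro y
    by_cases hy : y ∈ A1
    · rw [Set.indicator_of_mem hy]
      have : ((fun x : ℂ => (x, y)) ⁻¹' {p : ℂ × ℂ | p.2 ∈ A1 ∧ p.2 + p.1 ∈ A2}) =
          (fun x => y + x) ⁻¹' A2 := by
        ext x
        simp [hy]
      rw [this, measure_preimage_add]
    · rw [Set.indicator_of_notMem hy]
      have : ((fun x : ℂ => (x, y)) ⁻¹' {p : ℂ × ℂ | p.2 ∈ A1 ∧ p.2 + p.1 ∈ A2}) = ∅ := by
        ext x
        simp [hy]
      rw [this, measure_empty]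
  simp_rw [h3]
  rw [lintegral_indicator_const h1]

theorem lam_main (κ ρ : ℝ) (x0 u : ℂ) (a1 b1 a2 b2 : ℤ)
    (H : ∀ x ∈ sq 5 a1 b1, ∀ y ∈ sq 5 a2 b2,
      x0 + (κ : ℂ) * x + (ρ : ℂ) * u * (y - x) ∈ sq 0 0 0) :
    Lam κ ρ x0 u ((sq 5 a1 b1).indicator (fun _ => (1 : ℝ)))
      ((sq 5 a2 b2).indicator (fun _ => (1 : ℝ)))
      ((sq 0 0 0).indicator (fun _ => (1 : ℝ))) = (1 / 4 : ℝ) ^ 10 := by
  unfold Lam
  have hm : MeasurableSet {p : ℂ × ℂ | p.2 ∈ sq 5 a1 b1 ∧ p.2 + p.1 ∈ sq 5 a2 b2} :=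
    (measurable_snd (measurableSet_sq _ _ _)).inter
      ((measurable_snd.add measurable_fst) (measurableSet_sq _ _ _))
  have h1 : ∀ p : ℂ × ℂ, (sq 5 a1 b1).indicator (fun _ => (1 : ℝ)) p.2 *
      (sq 5 a2 b2).indicator (fun _ => (1 : ℝ)) (p.2 + p.1) *
      (sq 0 0 0).indicator (fun _ => (1 : ℝ)) (x0 + (κ : ℂ) * p.2 + (ρ : ℂ) * u * p.1) =
      {p : ℂ × ℂ | p.2 ∈ sq 5 a1 b1 ∧ p.2 + p.1 ∈ sq 5 a2 b2}.indicator (fun _ => (1 : ℝ)) p := by
    intro p
    by_cases hx : p.2 ∈ sq 5 a1 b1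
    · by_cases hy : p.2 + p.1 ∈ sq 5 a2 b2
      · have h2 := H p.2 hx (p.2 + p.1) hy
        rw [add_sub_cancel_left] at h2
        rw [Set.indicator_of_mem hx, Set.indicator_of_mem hy, Set.indicator_of_mem h2,
          Set.indicator_of_mem (show p ∈ {p : ℂ × ℂ | p.2 ∈ sq 5 a1 b1 ∧ p.2 + p.1 ∈ sq 5 a2 b2}
            from ⟨hx, hy⟩)]
        norm_num
      · rw [Set.indicator_of_notMem hy, Set.indicator_of_notMem
          (show p ∉ {p : ℂ × ℂ | p.2 ∈ sq 5 a1 b1 ∧ p.2 + p.1 ∈ sq 5 a2 b2} from fun h => hy h.2)]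
        simp
    · rw [Set.indicator_of_notMem hx, Set.indicator_of_notMem
        (show p ∉ {p : ℂ × ℂ | p.2 ∈ sq 5 a1 b1 ∧ p.2 + p.1 ∈ sq 5 a2 b2} from fun h => hx h.1)]
      simp
  simp_rw [h1]
  rw [integral_indicator_const _ hm, smul_eq_mul, mul_one, measureReal_def,
    Geo_vol _ _ (measurableSet_sq _ _ _) (measurableSet_sq _ _ _), ENNReal.toReal_mul]
  have h3 : ∀ a b : ℤ, (volume (sq 5 a b)).toReal = (1 / 4 : ℝ) ^ 5 := fun a b => volume_real_sq 5 a b
  rw [h3, h3, ← pow_add]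

end PinR
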