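import Pool.Agent.PinR.Dens

set_option autoImplicit false

/-!
PIN-Mod: the translation modulus of a density.  `dens w j = ∑_{a,b < 2^j} 4^j w j a b 1_{sq j a b}`,
and `∫ |1_Q y - 1_Q (y + e)| ≤ 2 (1/2)^j (|re e| + |im e|) ≤ 4 (1/2)^j ‖e‖` for a square `Q` of side
`(1/2)^j` (rectangles; symmetric difference of `Q` and `Q - e`), and the total mass is at most `1`.
-/

namespace PinR

open MeasureTheory

/-- A rectangle. -/
def modRect (p q c d : ℝ) : Set ℂ := {z | (p ≤ z.re ∧ z.re < q) ∧ (c ≤ z.im ∧ z.im < d)}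

theorem mod_rect_meas (p q c d : ℝ) : MeasurableSet (modRect p q c d) := by
  unfold modRect
  have h1 : Measurable (fun z : ℂ => z.re) := Complex.measurable_re
  have h2 : Measurable (fun z : ℂ => z.im) := Complex.measurable_im
  exact ((measurableSet_le measurable_const h1).inter (measurableSet_lt h1 measurable_const)).inter
    ((measurableSet_le measurable_const h2).inter (measurableSet_lt h2 measurable_const))

theorem mod_rect_vol (p q c d : ℝ) :
    volume (modRect p q c d) = ENNReal.ofReal (q - p) * ENNReal.ofReal (d - c) := by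
  have h := Complex.volume_preserving_equiv_real_prod.measure_preimage
    ((measurableSet_Ico (a := p) (b := q)).prod
      (measurableSet_Ico (a := c) (b := d))).nullMeasurableSet
  have e : modRect p q c d = Complex.measurableEquivRealProd ⁻¹' (Set.Ico p q ×ˢ Set.Ico c d) := by
    ext z
    simp [modRect, Complex.measurableEquivRealProd, Set.mem_prod, Set.mem_Ico]
  rw [e, h, Measure.volume_eq_prod, Measure.prod_prod, Real.volume_Ico, Real.volume_Ico]

theorem mod_rect_real (p q c d : ℝ) (h1 : p ≤ q) (h2 : c ≤ d) :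
    volume.real (modRect p q c d) = (q - p) * (d - c) := by
  rw [Measure.real, mod_rect_vol, ← ENNReal.ofReal_mul (by linarith),
    ENNReal.toReal_ofReal (mul_nonneg (by linarith) (by linarith))]

theorem mod_rect_fin (p q c d : ℝ) : volume (modRect p q c d) ≠ ⊤ := by
  rw [mod_rect_vol]
  exact ENNReal.mul_ne_top ENNReal.ofReal_ne_top ENNReal.ofReal_ne_top

theorem mod_rect_intble (p q c d : ℝ) :
    Integrable ((modRect p q c d).indicator (fun _ => (1 : ℝ))) := by
  rw [integrable_indicator_iff (mod_rect_meas p q c d)]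
  exact integrableOn_const (mod_rect_fin p q c d)

theorem mod_rect_int (p q c d : ℝ) (h1 : p ≤ q) (h2 : c ≤ d) :
    ∫ z, (modRect p q c d).indicator (fun _ => (1 : ℝ)) z = (q - p) * (d - c) := by
  rw [integral_indicator (mod_rect_meas p q c d)]
  simp [mod_rect_real p q c d h1 h2]

/-- pointwise bound in one variable -/
theorem mod_one (p q t x : ℝ) (hpq : p ≤ q) :
    ((p ≤ x ∧ x < q) ↔ (p ≤ x + t ∧ x + t < q)) ∨
      (min p (p - t) ≤ x ∧ x < max p (p - t)) ∨ (min q (q - t) ≤ x ∧ x < max q (q - t)) := by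
  rcases le_total 0 t with ht | ht
  · rw [min_eq_right (by linarith : p - t ≤ p), max_eq_left (by linarith : p - t ≤ p),
      min_eq_right (by linarith : q - t ≤ q), max_eq_left (by linarith : q - t ≤ q)]
    by_cases h1 : p - t ≤ x ∧ x < p
    · exact Or.inr (Or.inl h1)
    · by_cases h2 : q - t ≤ x ∧ x < q
      · exact Or.inr (Or.inr h2)
      · left
        constructor
        · rintro ⟨h3, h4⟩
          refine ⟨by linarith, ?_⟩
          by_contra h5
          exact h2 ⟨by linarith, h4⟩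
        · rintro ⟨h3, h4⟩
          refine ⟨?_, by linarith⟩
          by_contra h5
          exact h1 ⟨by linarith, by linarith⟩
  · rw [min_eq_left (by linarith : p ≤ p - t), max_eq_right (by linarith : p ≤ p - t),
      min_eq_left (by linarith : q ≤ q - t), max_eq_right (by linarith : q ≤ q - t)]
    by_cases h1 : p ≤ x ∧ x < p - t
    · exact Or.inr (Or.inl h1)
    · by_cases h2 : q ≤ x ∧ x < q - t
      · exact Or.inr (Or.inr h2)
      · left
        constructor
        · rintro ⟨h3, h4⟩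
          refine ⟨?_, by linarith⟩
          by_contra h5
          exact h1 ⟨h3, by linarith⟩
        · rintro ⟨h3, h4⟩
          refine ⟨by linarith, ?_⟩
          by_contra h5
          exact h2 ⟨by linarith, by linarith⟩

theorem mod_len (p t : ℝ) : max p (p - t) - min p (p - t) = |t| := by
  rw [max_sub_min_eq_abs]
  rw [show p - t - p = -t by ring, abs_neg]

theorem mod_le (p t : ℝ) : min p (p - t) ≤ max p (p - t) :=
  le_trans (min_le_left _ _) (le_max_left _ _)

/-- the four rectangles which carry the symmetric difference -/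
theorem mod_pt (p q c d : ℝ) (e y : ℂ) (hpq : p ≤ q) (hcd : c ≤ d) :
    |(modRect p q c d).indicator (fun _ => (1 : ℝ)) y -
      (modRect p q c d).indicator (fun _ => (1 : ℝ)) (y + e)| ≤
    ((modRect (min p (p - e.re)) (max p (p - e.re)) c d).indicator (fun _ => (1 : ℝ)) y +
      (modRect (min q (q - e.re)) (max q (q - e.re)) c d).indicator (fun _ => (1 : ℝ)) y) +
    ((modRect (p - e.re) (q - e.re) (min c (c - e.im)) (max c (c - e.im))).indicator
        (fun _ => (1 : ℝ)) y +
      (modRect (p - e.re) (q - e.re) (min d (d - e.im)) (max d (d - e.im))).indicator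
        (fun _ => (1 : ℝ)) y) := by
  have n : ∀ (p q c d : ℝ), 0 ≤ (modRect p q c d).indicator (fun _ => (1 : ℝ)) y :=
    fun p q c d => Set.indicator_nonneg (fun _ _ => zero_le_one) y
  have n1 := n (min p (p - e.re)) (max p (p - e.re)) c d
  have n2 := n (min q (q - e.re)) (max q (q - e.re)) c d
  have n3 := n (p - e.re) (q - e.re) (min c (c - e.im)) (max c (c - e.im))
  have n4 := n (p - e.re) (q - e.re) (min d (d - e.im)) (max d (d - e.im))
  have key : ∀ P Q : Prop, ∀ [Decidable P], ∀ [Decidable Q],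
      |(if P then (1 : ℝ) else 0) - (if Q then (1 : ℝ) else 0)| ≤ 1 := by
    intro P Q _ _
    split_ifs <;> norm_num
  have o := mod_one p q e.re y.re hpq
  have o' := mod_one c d e.im y.im hcd
  classical
  by_cases hY : y ∈ modRect p q c d
  · by_cases hE : y + e ∈ modRect p q c d
    · rw [Set.indicator_of_mem hY, Set.indicator_of_mem hE, sub_self, abs_zero]
      linarith
    · rw [Set.indicator_of_mem hY, Set.indicator_of_notMem hE, sub_zero, abs_one]
      obtain ⟨hy1, hy2⟩ := hY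
      rcases o with o | o | o
      · rcases o' with o' | o' | o'
        · exfalso
          apply hE
          refine ⟨?_, ?_⟩
          · simpa [Complex.add_re] using o.1 hy1
          · simpa [Complex.add_im] using o'.1 hy2
        · have : y ∈ modRect (p - e.re) (q - e.re) (min c (c - e.im)) (max c (c - e.im)) := by
            refine ⟨⟨?_, ?_⟩, o'⟩
            · have := (o.1 hy1).1
              linarith
            · have := (o.1 hy1).2
              linarith
          rw [Set.indicator_of_mem this]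
          linarith
        · have : y ∈ modRect (p - e.re) (q - e.re) (min d (d - e.im)) (max d (d - e.im)) := by
            refine ⟨⟨?_, ?_⟩, o'⟩
            · have := (o.1 hy1).1
              linarith
            · have := (o.1 hy1).2
              linarith
          rw [Set.indicator_of_mem this]
          linarith
      · have : y ∈ modRect (min p (p - e.re)) (max p (p - e.re)) c d := ⟨o, hy2⟩
        rw [Set.indicator_of_mem this]
        linarith
      · have : y ∈ modRect (min q (q - e.re)) (max q (q - e.re)) c d := ⟨o, hy2⟩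
        rw [Set.indicator_of_mem this]
        linarith
  · by_cases hE : y + e ∈ modRect p q c d
    · rw [Set.indicator_of_notMem hY, Set.indicator_of_mem hE, zero_sub, abs_neg, abs_one]
      obtain ⟨he1, he2⟩ := hE
      rw [Complex.add_re] at he1
      rw [Complex.add_im] at he2
      rcases o' with o' | o' | o'
      · rcases o with o | o | o
        · exfalso
          exact hY ⟨o.2 he1, o'.2 he2⟩
        · have : y ∈ modRect (min p (p - e.re)) (max p (p - e.re)) c d := ⟨o, o'.2 he2⟩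
          rw [Set.indicator_of_mem this]
          linarith
        · have : y ∈ modRect (min q (q - e.re)) (max q (q - e.re)) c d := ⟨o, o'.2 he2⟩
          rw [Set.indicator_of_mem this]
          linarith
      · have : y ∈ modRect (p - e.re) (q - e.re) (min c (c - e.im)) (max c (c - e.im)) :=
          ⟨⟨by linarith, by linarith⟩, o'⟩
        rw [Set.indicator_of_mem this]
        linarith
      · have : y ∈ modRect (p - e.re) (q - e.re) (min d (d - e.im)) (max d (d - e.im)) :=
          ⟨⟨by linarith, by linarith⟩, o'⟩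
        rw [Set.indicator_of_mem this]
        linarith
    · rw [Set.indicator_of_notMem hY, Set.indicator_of_notMem hE, sub_zero, abs_zero]
      linarith

theorem mod_sq_rect (j : ℕ) (a b : ℤ) : sq j a b =
    modRect ((a : ℝ) / 2 ^ j) (((a : ℝ) + 1) / 2 ^ j) ((b : ℝ) / 2 ^ j) (((b : ℝ) + 1) / 2 ^ j) := by
  ext z
  rw [mem_sq_iff]
  constructor
  · rintro ⟨h1, h2, h3, h4⟩
    exact ⟨⟨h1, h2⟩, ⟨h3, h4⟩⟩
  · rintro ⟨⟨h1, h2⟩, ⟨h3, h4⟩⟩
    exact ⟨h1, h2, h3, h4⟩

theorem mod_diff_intble (j : ℕ) (a b : ℤ) (e : ℂ) :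
    Integrable (fun y : ℂ => (sq j a b).indicator (fun _ => (1 : ℝ)) y -
      (sq j a b).indicator (fun _ => (1 : ℝ)) (y + e)) := by
  have h : Integrable ((sq j a b).indicator (fun _ => (1 : ℝ)) : ℂ → ℝ) := by
    rw [mod_sq_rect]
    exact mod_rect_intble _ _ _ _
  exact h.sub (h.comp_add_right e)

theorem sq_mod (j : ℕ) (a b : ℤ) (e : ℂ) :
    ∫ y, |(sq j a b).indicator (fun _ => (1 : ℝ)) y -
      (sq j a b).indicator (fun _ => (1 : ℝ)) (y + e)| ≤ 4 * (1 / 2 : ℝ) ^ j * ‖e‖ := by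
  have h2 : (0 : ℝ) < 2 ^ j := by positivity
  set p : ℝ := (a : ℝ) / 2 ^ j with hp
  set q : ℝ := ((a : ℝ) + 1) / 2 ^ j with hq
  set c : ℝ := (b : ℝ) / 2 ^ j with hc
  set d : ℝ := ((b : ℝ) + 1) / 2 ^ j with hd
  have hqp : q - p = (1 / 2 : ℝ) ^ j := by
    rw [hp, hq, ← sub_div]
    rw [show (a : ℝ) + 1 - a = 1 by ring, one_div, one_div, inv_pow]
  have hdc : d - c = (1 / 2 : ℝ) ^ j := by
    rw [hc, hd, ← sub_div]
    rw [show (b : ℝ) + 1 - b = 1 by ring, one_div, one_div, inv_pow]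
  have hpos : (0 : ℝ) < (1 / 2 : ℝ) ^ j := by positivity
  have hpq : p ≤ q := by linarith
  have hcd : c ≤ d := by linarith
  have hS : sq j a b = modRect p q c d := mod_sq_rect j a b
  have hI := mod_diff_intble j a b e
  rw [hS] at hI ⊢
  set r1 := (modRect (min p (p - e.re)) (max p (p - e.re)) c d).indicator (fun _ => (1 : ℝ)) with r1d
  set r2 := (modRect (min q (q - e.re)) (max q (q - e.re)) c d).indicator (fun _ => (1 : ℝ)) with r2d
  set r3 := (modRect (p - e.re) (q - e.re) (min c (c - e.im)) (max c (c - e.im))).indicator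
        (fun _ => (1 : ℝ)) with r3d
  set r4 := (modRect (p - e.re) (q - e.re) (min d (d - e.im)) (max d (d - e.im))).indicator
        (fun _ => (1 : ℝ)) with r4d
  have i1 : Integrable r1 := mod_rect_intble _ _ _ _
  have i2 : Integrable r2 := mod_rect_intble _ _ _ _
  have i3 : Integrable r3 := mod_rect_intble _ _ _ _
  have i4 : Integrable r4 := mod_rect_intble _ _ _ _
  have v1 : ∫ z, r1 z = |e.re| * (1 / 2 : ℝ) ^ j := by
    rw [r1d, mod_rect_int _ _ _ _ (mod_le _ _) hcd, mod_len, hdc]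
  have v2 : ∫ z, r2 z = |e.re| * (1 / 2 : ℝ) ^ j := by
    rw [r2d, mod_rect_int _ _ _ _ (mod_le _ _) hcd, mod_len, hdc]
  have v3 : ∫ z, r3 z = (1 / 2 : ℝ) ^ j * |e.im| := by
    rw [r3d, mod_rect_int _ _ _ _ (by linarith) (mod_le _ _), mod_len,
      show q - e.re - (p - e.re) = q - p by ring, hqp]
  have v4 : ∫ z, r4 z = (1 / 2 : ℝ) ^ j * |e.im| := by
    rw [r4d, mod_rect_int _ _ _ _ (by linarith) (mod_le _ _), mod_len,
      show q - e.re - (p - e.re) = q - p by ring, hqp]
  have hmono : ∫ y, |(modRect p q c d).indicator (fun _ => (1 : ℝ)) y -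
      (modRect p q c d).indicator (fun _ => (1 : ℝ)) (y + e)| ≤
      ∫ y, ((r1 y + r2 y) + (r3 y + r4 y)) := by
    apply integral_mono hI.abs ((i1.add i2).add (i3.add i4))
    intro y
    exact mod_pt p q c d e y hpq hcd
  have hsum : ∫ y, ((r1 y + r2 y) + (r3 y + r4 y)) =
      ((∫ y, r1 y) + (∫ y, r2 y)) + ((∫ y, r3 y) + (∫ y, r4 y)) := by
    have e1 : ∫ y, ((r1 y + r2 y) + (r3 y + r4 y)) =
        (∫ y, (r1 y + r2 y)) + (∫ y, (r3 y + r4 y)) :=
      integral_add (i1.add i2) (i3.add i4)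
    rw [e1, integral_add i1 i2, integral_add i3 i4]
  rw [hsum, v1, v2, v3, v4] at hmono
  have a1 : |e.re| ≤ ‖e‖ := Complex.abs_re_le_norm e
  have a2 : |e.im| ≤ ‖e‖ := Complex.abs_im_le_norm e
  nlinarith [mul_le_mul_of_nonneg_left a1 hpos.le, mul_le_mul_of_nonneg_left a2 hpos.le]

/-- a density is a finite combination of indicator functions -/
theorem mod_dens_eq {j0 J : ℕ} {β : ℝ} {w : ℕ → ℤ → ℤ → ℝ} (h : MT j0 J β w) {j : ℕ}
    (hj0 : j0 ≤ j) (hj : j ≤ J) (y : ℂ) :
    dens w j y = ∑ a ∈ Finset.range (2 ^ j), ∑ b ∈ Finset.range (2 ^ j),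
      4 ^ j * w j (a : ℤ) (b : ℤ) * (sq j (a : ℤ) (b : ℤ)).indicator (fun _ => (1 : ℝ)) y := by
  unfold dens
  set A : ℤ := ⌊(2 : ℝ) ^ j * y.re⌋ with hA
  set B : ℤ := ⌊(2 : ℝ) ^ j * y.im⌋ with hB
  have hmem : ∀ a b : ℤ, y ∈ sq j a b ↔ A = a ∧ B = b := fun a b => Iff.rfl
  by_cases hw : w j A B = 0
  · rw [hw, mul_zero]
    symm
    apply Finset.sum_eq_zero
    intro a _
    apply Finset.sum_eq_zero
    intro b _
    by_cases hy : y ∈ sq j (a : ℤ) (b : ℤ)
    · obtain ⟨h1, h2⟩ := (hmem _ _).1 hy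
      rw [← h1, ← h2, hw, mul_zero, zero_mul]
    · rw [Set.indicator_of_notMem hy, mul_zero]
  · obtain ⟨h1, h2, h3, h4⟩ := h.supp j A B hj0 hj hw
    have hA' : ((A.toNat : ℕ) : ℤ) = A := Int.toNat_of_nonneg h1
    have hB' : ((B.toNat : ℕ) : ℤ) = B := Int.toNat_of_nonneg h3
    have hAm : A.toNat ∈ Finset.range (2 ^ j) := by
      rw [Finset.mem_range]
      zify
      rw [hA']
      exact h2
    have hBm : B.toNat ∈ Finset.range (2 ^ j) := by
      rw [Finset.mem_range]
      zify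
      rw [hB']
      exact h4
    rw [Finset.sum_eq_single_of_mem A.toNat hAm, Finset.sum_eq_single_of_mem B.toNat hBm]
    · rw [hA', hB', Set.indicator_of_mem ((hmem A B).2 ⟨rfl, rfl⟩), mul_one]
    · intro b _ hb
      rw [Set.indicator_of_notMem, mul_zero]
      intro hy
      have := ((hmem _ _).1 hy).2
      apply hb
      rw [this]
      simp
    · intro a _ ha
      apply Finset.sum_eq_zero
      intro b _
      rw [Set.indicator_of_notMem, mul_zero]
      intro hy
      have := ((hmem _ _).1 hy).1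
      apply ha
      rw [this]
      simp

theorem dens_mod {j0 J : ℕ} {β : ℝ} {w : ℕ → ℤ → ℤ → ℝ} (h : MT j0 J β w) (hβ : 1 ≤ β) {j : ℕ}
    (hj0 : j0 ≤ j) (hj : j ≤ J) (e : ℂ) :
    ∫ y, |dens w j y - dens w j (y + e)| ≤ 4 * 2 ^ j * ‖e‖ := by
  have hint : ∀ a b : ℕ, Integrable (fun y : ℂ => 4 ^ j * w j (a : ℤ) (b : ℤ) *
      |(sq j (a : ℤ) (b : ℤ)).indicator (fun _ => (1 : ℝ)) y -
        (sq j (a : ℤ) (b : ℤ)).indicator (fun _ => (1 : ℝ)) (y + e)|) :=
    fun a b => (mod_diff_intble j a b e).abs.const_mul _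
  have hw0 : ∀ a b : ℤ, 0 ≤ 4 ^ j * w j a b := fun a b =>
    mul_nonneg (by positivity) (h.nonneg j a b hj0 hj)
  have hpt : ∀ y : ℂ, |dens w j y - dens w j (y + e)| ≤
      ∑ a ∈ Finset.range (2 ^ j), ∑ b ∈ Finset.range (2 ^ j), 4 ^ j * w j (a : ℤ) (b : ℤ) *
      |(sq j (a : ℤ) (b : ℤ)).indicator (fun _ => (1 : ℝ)) y -
        (sq j (a : ℤ) (b : ℤ)).indicator (fun _ => (1 : ℝ)) (y + e)| := by
    intro y
    rw [mod_dens_eq h hj0 hj y, mod_dens_eq h hj0 hj (y + e), ← Finset.sum_sub_distrib]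
    refine le_trans (Finset.abs_sum_le_sum_abs _ _) (Finset.sum_le_sum fun a _ => ?_)
    rw [← Finset.sum_sub_distrib]
    refine le_trans (Finset.abs_sum_le_sum_abs _ _) (Finset.sum_le_sum fun b _ => ?_)
    rw [← mul_sub, abs_mul, abs_of_nonneg (hw0 a b)]
  have hsumint : Integrable (fun y : ℂ => ∑ a ∈ Finset.range (2 ^ j),
      ∑ b ∈ Finset.range (2 ^ j), 4 ^ j * w j (a : ℤ) (b : ℤ) *
      |(sq j (a : ℤ) (b : ℤ)).indicator (fun _ => (1 : ℝ)) y -
        (sq j (a : ℤ) (b : ℤ)).indicator (fun _ => (1 : ℝ)) (y + e)|) :=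
    integrable_finsetSum _ fun a _ => integrable_finsetSum _ fun b _ => hint a b
  have h1 : ∫ y, |dens w j y - dens w j (y + e)| ≤ ∫ y : ℂ, ∑ a ∈ Finset.range (2 ^ j),
      ∑ b ∈ Finset.range (2 ^ j), 4 ^ j * w j (a : ℤ) (b : ℤ) *
      |(sq j (a : ℤ) (b : ℤ)).indicator (fun _ => (1 : ℝ)) y -
        (sq j (a : ℤ) (b : ℤ)).indicator (fun _ => (1 : ℝ)) (y + e)| := by
    apply integral_mono_of_nonneg
    · exact Filter.Eventually.of_forall fun y => abs_nonneg _
    · exact hsumint
    · exact Filter.Eventually.of_forall hpt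
  refine le_trans h1 ?_
  rw [integral_finsetSum _ fun a _ => integrable_finsetSum _ fun b _ => hint a b]
  have h2 : ∀ a ∈ Finset.range (2 ^ j), ∫ y : ℂ, ∑ b ∈ Finset.range (2 ^ j),
      4 ^ j * w j (a : ℤ) (b : ℤ) *
      |(sq j (a : ℤ) (b : ℤ)).indicator (fun _ => (1 : ℝ)) y -
        (sq j (a : ℤ) (b : ℤ)).indicator (fun _ => (1 : ℝ)) (y + e)| ≤
      ∑ b ∈ Finset.range (2 ^ j), 4 ^ j * w j (a : ℤ) (b : ℤ) * (4 * (1 / 2 : ℝ) ^ j * ‖e‖) := by
    intro a _
    rw [integral_finsetSum _ fun b _ => hint a b]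
    refine Finset.sum_le_sum fun b _ => ?_
    rw [integral_const_mul]
    exact mul_le_mul_of_nonneg_left (sq_mod j a b e) (hw0 a b)
  refine le_trans (Finset.sum_le_sum h2) ?_
  have h3 : ∑ a ∈ Finset.range (2 ^ j), ∑ b ∈ Finset.range (2 ^ j),
      4 ^ j * w j (a : ℤ) (b : ℤ) * (4 * (1 / 2 : ℝ) ^ j * ‖e‖) =
      (4 ^ j * (4 * (1 / 2 : ℝ) ^ j * ‖e‖)) *
        ∑ a ∈ Finset.range (2 ^ j), ∑ b ∈ Finset.range (2 ^ j), w j (a : ℤ) (b : ℤ) := by
    rw [Finset.mul_sum]
    refine Finset.sum_congr rfl fun a _ => ?_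
    rw [Finset.mul_sum]
    refine Finset.sum_congr rfl fun b _ => ?_
    ring
  rw [h3]
  have h4 : (4 : ℝ) ^ j * (4 * (1 / 2 : ℝ) ^ j * ‖e‖) = 4 * 2 ^ j * ‖e‖ := by
    have : (4 : ℝ) ^ j * (1 / 2 : ℝ) ^ j = 2 ^ j := by
      rw [← mul_pow]
      norm_num
    calc (4 : ℝ) ^ j * (4 * (1 / 2 : ℝ) ^ j * ‖e‖) = 4 * ((4 : ℝ) ^ j * (1 / 2 : ℝ) ^ j) * ‖e‖ := by
          ring
      _ = _ := by rw [this]
  rw [h4]
  have h5 := h.total j hj0 hj
  have h6 : (0 : ℝ) ≤ 4 * 2 ^ j * ‖e‖ := by positivity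
  calc 4 * 2 ^ j * ‖e‖ * ∑ a ∈ Finset.range (2 ^ j), ∑ b ∈ Finset.range (2 ^ j),
        w j (a : ℤ) (b : ℤ) ≤ 4 * 2 ^ j * ‖e‖ * 1 := mul_le_mul_of_nonneg_left h5 h6
    _ = _ := mul_one _

end PinR
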