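import Pool.Agent.PinR.Subst

set_option autoImplicit false

/-!
PIN-Lin: the form `Lam`: integrability, linearity in each slot, the `L^1` bounds.
The integrand is measurable, bounded by `Bf Bg Bh` and zero unless `p.2 ∈ unit square` and
`p.2 + p.1 ∈ unit square` (then `‖p.1‖ < 4`).
`lam_L1_f`: `∫∫ |f x| |g (x+v)| ≤ ∫|f| ∫|g|` (shear, then product).
`lam_L1_h`: for fixed `x`, `∫_v |h (x0 + κ x + ρ u v)| = ρ^-2 ∫ |h| ≤ ∫ |h|` (`subst_mul`).
-/

namespace PinR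

open MeasureTheory

/-- a bounded measurable function of bounded support is integrable -/
theorem lin_bdd {F : ℂ × ℂ → ℝ} (hm : Measurable F) {B R : ℝ} (hB : ∀ p, |F p| ≤ B)
    (hR : ∀ p, F p ≠ 0 → ‖p‖ ≤ R) : Integrable F := by
  have h1 : IntegrableOn F (Metric.closedBall 0 R) := by
    refine Measure.integrableOn_of_bounded (M := B) ?_ hm.aestronglyMeasurable ?_
    · exact (isCompact_closedBall (0 : ℂ × ℂ) R).measure_lt_top.ne
    · exact Filter.Eventually.of_forall fun p => by simpa [Real.norm_eq_abs] using hB p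
  refine h1.integrable_of_forall_notMem_eq_zero fun p hp => ?_
  by_contra h
  exact hp (mem_closedBall_zero_iff.2 (hR p h))

theorem lin_unit {z : ℂ} (h : z ∈ sq 0 0 0) : ‖z‖ ≤ 2 := by
  obtain ⟨h1, h2, h3, h4⟩ := mem_unit_iff.1 h
  calc ‖z‖ ≤ |z.re| + |z.im| := Complex.norm_le_abs_re_add_abs_im z
    _ ≤ 2 := by rw [abs_of_nonneg h1, abs_of_nonneg h3]; linarith

theorem lin_supp {B : ℝ} {F : ℂ → ℝ} (h : Adm B F) {z : ℂ} (hz : F z ≠ 0) : ‖z‖ ≤ 2 := by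
  by_contra h1
  exact hz (h.2.2 z fun h2 => h1 (lin_unit h2))

theorem lin_meas (κ ρ : ℝ) (x0 u : ℂ) {Bf Bg Bh : ℝ} {f g h : ℂ → ℝ} (hf : Adm Bf f)
    (hg : Adm Bg g) (hh : Adm Bh h) :
    Measurable (fun p : ℂ × ℂ =>
      f p.2 * g (p.2 + p.1) * h (x0 + (κ : ℂ) * p.2 + (ρ : ℂ) * u * p.1)) := by
  have h1 : Measurable fun p : ℂ × ℂ => p.2 + p.1 := by fun_prop
  have h2 : Measurable fun p : ℂ × ℂ => x0 + (κ : ℂ) * p.2 + (ρ : ℂ) * u * p.1 := by fun_prop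
  exact ((hf.1.comp measurable_snd).mul (hg.1.comp h1)).mul (hh.1.comp h2)

theorem lam_integrable (κ ρ : ℝ) (x0 u : ℂ) {Bf Bg Bh : ℝ} {f g h : ℂ → ℝ} (hf : Adm Bf f)
    (hg : Adm Bg g) (hh : Adm Bh h) :
    Integrable (fun p : ℂ × ℂ =>
      f p.2 * g (p.2 + p.1) * h (x0 + (κ : ℂ) * p.2 + (ρ : ℂ) * u * p.1)) := by
  have hf0 := hf.nonneg_B
  have hg0 := hg.nonneg_B
  refine lin_bdd (lin_meas κ ρ x0 u hf hg hh) (B := Bf * Bg * Bh) (R := 4) (fun p => ?_)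
    fun p hp => ?_
  · rw [abs_mul, abs_mul]
    exact mul_le_mul (mul_le_mul (hf.2.1 _) (hg.2.1 _) (abs_nonneg _) hf0) (hh.2.1 _)
      (abs_nonneg _) (mul_nonneg hf0 hg0)
  · have h1 : f p.2 ≠ 0 := fun h => hp (by simp only [h, zero_mul])
    have h2 : g (p.2 + p.1) ≠ 0 := fun h => hp (by simp only [h, mul_zero, zero_mul])
    have h3 := lin_supp hf h1
    have h4 := lin_supp hg h2
    rw [Prod.norm_def]
    refine max_le ?_ (by linarith)
    calc ‖p.1‖ = ‖(p.2 + p.1) - p.2‖ := by congr 1; ring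
      _ ≤ ‖p.2 + p.1‖ + ‖p.2‖ := norm_sub_le _ _
      _ ≤ 4 := by linarith

theorem lam_sub_f (κ ρ : ℝ) (x0 u : ℂ) {B B' Bg Bh : ℝ} {f f' g h : ℂ → ℝ} (hf : Adm B f)
    (hf' : Adm B' f') (hg : Adm Bg g) (hh : Adm Bh h) :
    Lam κ ρ x0 u (fun z => f z - f' z) g h = Lam κ ρ x0 u f g h - Lam κ ρ x0 u f' g h := by
  unfold Lam
  rw [← integral_sub (lam_integrable κ ρ x0 u hf hg hh) (lam_integrable κ ρ x0 u hf' hg hh)]
  refine integral_congr_ae (Filter.Eventually.of_forall fun p => ?_)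
  simp only
  ring

theorem lam_sub_g (κ ρ : ℝ) (x0 u : ℂ) {B B' Bf Bh : ℝ} {f g g' h : ℂ → ℝ} (hf : Adm Bf f)
    (hg : Adm B g) (hg' : Adm B' g') (hh : Adm Bh h) :
    Lam κ ρ x0 u f (fun z => g z - g' z) h = Lam κ ρ x0 u f g h - Lam κ ρ x0 u f g' h := by
  unfold Lam
  rw [← integral_sub (lam_integrable κ ρ x0 u hf hg hh) (lam_integrable κ ρ x0 u hf hg' hh)]
  refine integral_congr_ae (Filter.Eventually.of_forall fun p => ?_)
  simp only
  ring

theorem lam_sub_h (κ ρ : ℝ) (x0 u : ℂ) {B B' Bf Bg : ℝ} {f g h h' : ℂ → ℝ} (hf : Adm Bf f)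
    (hg : Adm Bg g) (hh : Adm B h) (hh' : Adm B' h') :
    Lam κ ρ x0 u f g (fun z => h z - h' z) = Lam κ ρ x0 u f g h - Lam κ ρ x0 u f g h' := by
  unfold Lam
  rw [← integral_sub (lam_integrable κ ρ x0 u hf hg hh) (lam_integrable κ ρ x0 u hf hg hh')]
  refine integral_congr_ae (Filter.Eventually.of_forall fun p => ?_)
  simp only
  ring

theorem lam_L1_f (κ ρ : ℝ) (x0 u : ℂ) {Bf Bg Bh : ℝ} {f g h : ℂ → ℝ} (hf : Adm Bf f)
    (hg : Adm Bg g) (hh : Adm Bh h) :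
    |Lam κ ρ x0 u f g h| ≤ Bh * (∫ z, |f z|) * ∫ z, |g z| := by
  have hmp : MeasurePreserving (fun z : ℂ × ℂ => (z.2, z.2 + z.1)) (volume.prod volume)
      (volume.prod volume) := measurePreserving_prod_add_swap volume volume
  have hfg : Integrable (fun q : ℂ × ℂ => |f q.1| * |g q.2|) (volume.prod volume) :=
    Integrable.mul_prod hf.integrable.abs hg.integrable.abs
  have hfg' : Integrable (fun p : ℂ × ℂ => |f p.2| * |g (p.2 + p.1)|) (volume.prod volume) :=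
    (hmp.integrable_comp hfg.aestronglyMeasurable).2 hfg
  have h1 : ∫ p : ℂ × ℂ, |f p.2| * |g (p.2 + p.1)| = (∫ z, |f z|) * ∫ z, |g z| := by
    have h2 : ∫ p : ℂ × ℂ, |f p.2| * |g (p.2 + p.1)| ∂(volume.prod volume) =
        ∫ q : ℂ × ℂ, |f q.1| * |g q.2| ∂(volume.prod volume) := by
      have h3 := integral_map (μ := volume.prod volume) (φ := fun z : ℂ × ℂ => (z.2, z.2 + z.1))
        hmp.measurable.aemeasurable (f := fun q : ℂ × ℂ => |f q.1| * |g q.2|)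
        (by rw [hmp.map_eq]; exact hfg.aestronglyMeasurable)
      rw [hmp.map_eq] at h3
      exact h3.symm
    rw [Measure.volume_eq_prod, h2]
    exact integral_prod_mul (fun z => |f z|) (fun z => |g z|)
  calc |Lam κ ρ x0 u f g h|
      ≤ ∫ p : ℂ × ℂ, |f p.2 * g (p.2 + p.1) * h (x0 + (κ : ℂ) * p.2 + (ρ : ℂ) * u * p.1)| :=
        abs_integral_le_integral_abs
    _ ≤ ∫ p : ℂ × ℂ, Bh * (|f p.2| * |g (p.2 + p.1)|) := by
        refine integral_mono_of_nonneg (Filter.Eventually.of_forall fun p => abs_nonneg _)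
          (hfg'.const_mul Bh) (Filter.Eventually.of_forall fun p => ?_)
        simp only
        rw [abs_mul, abs_mul, mul_comm Bh]
        exact mul_le_mul_of_nonneg_left (hh.2.1 _) (mul_nonneg (abs_nonneg _) (abs_nonneg _))
    _ = Bh * (∫ z, |f z|) * ∫ z, |g z| := by
        rw [integral_const_mul, h1, mul_assoc]

theorem lam_L1_h (κ ρ : ℝ) (x0 u : ℂ) (hρ : 1 ≤ ρ) (hu : ‖u‖ = 1) {Bf Bg Bh : ℝ} {f g h : ℂ → ℝ}
    (hf : Adm Bf f) (hg : Adm Bg g) (hh : Adm Bh h) :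
    |Lam κ ρ x0 u f g h| ≤ Bf * Bg * ∫ z, |h z| := by
  have hf0 := hf.nonneg_B
  have hg0 := hg.nonneg_B
  have hρ0 : 0 < ρ := by linarith
  have hl : ‖(ρ : ℂ) * u‖ = ρ := by
    rw [norm_mul, hu, mul_one, Complex.norm_real, Real.norm_eq_abs, abs_of_pos hρ0]
  have hl0 : (ρ : ℂ) * u ≠ 0 := by
    rw [← norm_pos_iff, hl]; exact hρ0
  set U : ℂ → ℝ := (sq 0 0 0).indicator fun _ => 1 with hU
  have hUm : Measurable U := measurable_const.indicator (measurableSet_sq 0 0 0)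
  have hU0 : ∀ z, 0 ≤ U z := fun z => Set.indicator_nonneg (fun _ _ => zero_le_one) z
  have hU1 : ∀ z, U z ≤ 1 := fun z => Set.indicator_le_self' (fun _ _ => zero_le_one) z
  have hfU : ∀ z, |f z| ≤ Bf * U z := by
    intro z
    by_cases hz : z ∈ sq 0 0 0
    · rw [hU, Set.indicator_of_mem hz, mul_one]
      exact hf.2.1 z
    · rw [hf.2.2 z hz, abs_zero]
      exact mul_nonneg hf0 (hU0 z)
  have hint : Integrable fun p : ℂ × ℂ => U p.2 * |h (x0 + (κ : ℂ) * p.2 + (ρ : ℂ) * u * p.1)| := by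
    have h2 : Measurable fun p : ℂ × ℂ => x0 + (κ : ℂ) * p.2 + (ρ : ℂ) * u * p.1 := by fun_prop
    have h3 : Measurable fun z => |h z| := hh.1.abs
    refine lin_bdd ((hUm.comp measurable_snd).mul (h3.comp h2)) (B := Bh)
      (R := 2 + 2 + ‖x0‖ + |κ| * 2) (fun p => ?_) fun p hp => ?_
    · rw [abs_mul, abs_abs, abs_of_nonneg (hU0 _)]
      calc U p.2 * |h (x0 + (κ : ℂ) * p.2 + (ρ : ℂ) * u * p.1)|
          ≤ 1 * |h (x0 + (κ : ℂ) * p.2 + (ρ : ℂ) * u * p.1)| :=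
            mul_le_mul_of_nonneg_right (hU1 _) (abs_nonneg _)
        _ ≤ Bh := by rw [one_mul]; exact hh.2.1 _
    · have h4 : p.2 ∈ sq 0 0 0 := by
        by_contra h
        exact hp (by rw [hU, Set.indicator_of_notMem h, zero_mul])
      have h5 : h (x0 + (κ : ℂ) * p.2 + (ρ : ℂ) * u * p.1) ≠ 0 :=
        fun h => hp (by rw [h, abs_zero, mul_zero])
      have h6 := lin_supp hh h5
      have h7 := lin_unit h4
      have h8 : ‖(κ : ℂ) * p.2‖ ≤ |κ| * 2 := by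
        rw [norm_mul, Complex.norm_real, Real.norm_eq_abs]
        exact mul_le_mul_of_nonneg_left h7 (abs_nonneg _)
      have h9 : ‖p.1‖ ≤ 2 + ‖x0‖ + |κ| * 2 := by
        calc ‖p.1‖ ≤ ρ * ‖p.1‖ := le_mul_of_one_le_left (norm_nonneg _) hρ
          _ = ‖(ρ : ℂ) * u * p.1‖ := by rw [norm_mul, hl]
          _ = ‖(x0 + (κ : ℂ) * p.2 + (ρ : ℂ) * u * p.1) - (x0 + (κ : ℂ) * p.2)‖ := by
              congr 1; ring
          _ ≤ ‖x0 + (κ : ℂ) * p.2 + (ρ : ℂ) * u * p.1‖ + ‖x0 + (κ : ℂ) * p.2‖ := norm_sub_le _ _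
          _ ≤ 2 + (‖x0‖ + |κ| * 2) := by
              refine add_le_add h6 ((norm_add_le _ _).trans ?_)
              linarith
          _ = _ := by ring
      rw [Prod.norm_def]
      have := norm_nonneg x0
      have := abs_nonneg κ
      exact max_le (by linarith) (by linarith)
  have h1 : ∫ p : ℂ × ℂ, U p.2 * |h (x0 + (κ : ℂ) * p.2 + (ρ : ℂ) * u * p.1)| =
      (ρ ^ 2)⁻¹ * ∫ z, |h z| := by
    rw [Measure.volume_eq_prod, integral_prod_symm _ hint]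
    have h2 : ∀ x : ℂ, ∫ v : ℂ, U x * |h (x0 + (κ : ℂ) * x + (ρ : ℂ) * u * v)| =
        (sq 0 0 0).indicator (fun _ => (ρ ^ 2)⁻¹ * ∫ z, |h z|) x := by
      intro x
      rw [integral_const_mul]
      have h3 := subst_mul (fun z => |h z|) (x0 + (κ : ℂ) * x) ((ρ : ℂ) * u) hl0
      rw [h3, hl]
      by_cases hx : x ∈ sq 0 0 0
      · rw [hU, Set.indicator_of_mem hx, Set.indicator_of_mem hx, one_mul]
      · rw [hU, Set.indicator_of_notMem hx, Set.indicator_of_notMem hx, zero_mul]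
    simp only [h2]
    rw [integral_indicator (measurableSet_sq 0 0 0), setIntegral_const, volume_real_sq, pow_zero,
      one_smul]
  have h2 : 0 ≤ ∫ z, |h z| := integral_nonneg fun z => abs_nonneg _
  calc |Lam κ ρ x0 u f g h|
      ≤ ∫ p : ℂ × ℂ, |f p.2 * g (p.2 + p.1) * h (x0 + (κ : ℂ) * p.2 + (ρ : ℂ) * u * p.1)| :=
        abs_integral_le_integral_abs
    _ ≤ ∫ p : ℂ × ℂ, (Bf * Bg) * (U p.2 * |h (x0 + (κ : ℂ) * p.2 + (ρ : ℂ) * u * p.1)|) := by
        refine integral_mono_of_nonneg (Filter.Eventually.of_forall fun p => abs_nonneg _)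
          (hint.const_mul (Bf * Bg)) (Filter.Eventually.of_forall fun p => ?_)
        simp only
        rw [abs_mul, abs_mul]
        calc |f p.2| * |g (p.2 + p.1)| * |h (x0 + (κ : ℂ) * p.2 + (ρ : ℂ) * u * p.1)|
            ≤ (Bf * U p.2) * Bg * |h (x0 + (κ : ℂ) * p.2 + (ρ : ℂ) * u * p.1)| := by
              refine mul_le_mul_of_nonneg_right ?_ (abs_nonneg _)
              exact mul_le_mul (hfU _) (hg.2.1 _) (abs_nonneg _) (mul_nonneg hf0 (hU0 _))
          _ = _ := by ring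
    _ = (Bf * Bg) * ((ρ ^ 2)⁻¹ * ∫ z, |h z|) := by rw [integral_const_mul, h1]
    _ ≤ (Bf * Bg) * (1 * ∫ z, |h z|) := by
        refine mul_le_mul_of_nonneg_left (mul_le_mul_of_nonneg_right ?_ h2) (mul_nonneg hf0 hg0)
        exact inv_le_one_of_one_le₀ (one_le_pow₀ hρ)
    _ = Bf * Bg * ∫ z, |h z| := by rw [one_mul]

/-- if the form is positive there is a point where the integrand is nonzero -/
theorem lam_pos_exists (κ ρ : ℝ) (x0 u : ℂ) {f g h : ℂ → ℝ} (hf : ∀ z, 0 ≤ f z)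
    (hg : ∀ z, 0 ≤ g z) (hh : ∀ z, 0 ≤ h z) (hpos : 0 < Lam κ ρ x0 u f g h) :
    ∃ x v : ℂ, 0 < f x ∧ 0 < g (x + v) ∧ 0 < h (x0 + (κ : ℂ) * x + (ρ : ℂ) * u * v) := by
  by_contra hcon
  push Not at hcon
  have h0 : Lam κ ρ x0 u f g h = 0 := by
    unfold Lam
    refine (integral_congr_ae (Filter.Eventually.of_forall fun p => ?_)).trans
      (integral_zero (ℂ × ℂ) ℝ)
    rcases (hf p.2).eq_or_lt with h1 | h1
    · rw [← h1, zero_mul, zero_mul]
    rcases (hg (p.2 + p.1)).eq_or_lt with h2 | h2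
    · rw [← h2, mul_zero, zero_mul]
    rw [le_antisymm (hcon p.2 p.1 h1 h2) (hh _), mul_zero]
  exact hpos.ne' h0

end PinR
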