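import Pool.Agent.PinR.TT
import Pool.Agent.PinR.Lin
import Pool.Agent.PinR.Rot

set_option autoImplicit false

/-!
PIN-SlotF.  With `x = y - v` (`subst_shear`): `Lam u_i F g h = ∫ F (y - v) g y h (x0 + κ y + l_i v)`,
`l_i = ρ u_i - κ`; with `v = ω / l_i` (`subst_fst`)
`= ‖l_i‖^-2 ∫ F (y + a_i ω) g y h (x0 + κ y + ω)`, `a_i = -(l_i)⁻¹`, `c_i = (‖l_i‖^2)⁻¹ ∈ [0, 1]`
(`one_le_norm_lam`).  `g y ≠ 0` and `F (y + a_i ω) ≠ 0` need `y ∈ unit square`,
`‖ω‖ < 3 √2 < 5` (`norm_lam_le`).  Then `tt_L1` with `inv_lam_sep`.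
-/

namespace PinR

open MeasureTheory

/-- bounded measurable functions on `ball 0 5 × unit square` are integrable -/
private theorem SlotF_int {φ : ℂ × ℂ → ℝ} (hm : Measurable φ) {M : ℝ} (hb : ∀ p, |φ p| ≤ M)
    (hz : ∀ p, φ p ≠ 0 → p.1 ∈ Metric.ball (0 : ℂ) 5 ∧ p.2 ∈ sq 0 0 0) : Integrable φ := by
  have hms : MeasurableSet (Metric.ball (0 : ℂ) 5 ×ˢ sq 0 0 0) :=
    measurableSet_ball.prod (measurableSet_sq 0 0 0)
  have hfin : volume (Metric.ball (0 : ℂ) 5 ×ˢ sq 0 0 0) ≠ ⊤ := by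
    rw [Measure.volume_eq_prod, Measure.prod_prod, volume_sq]
    exact ENNReal.mul_ne_top measure_ball_lt_top.ne ENNReal.ofReal_ne_top
  have h1 : Integrable ((Metric.ball (0 : ℂ) 5 ×ˢ sq 0 0 0).indicator fun _ => M) := by
    rw [integrable_indicator_iff hms]
    exact integrableOn_const hfin
  refine h1.mono' hm.aestronglyMeasurable (Filter.Eventually.of_forall fun p => ?_)
  by_cases hp : p ∈ Metric.ball (0 : ℂ) 5 ×ˢ sq 0 0 0
  · rw [Set.indicator_of_mem hp, Real.norm_eq_abs]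
    exact hb p
  · rw [Set.indicator_of_notMem hp]
    have h2 : φ p = 0 := by
      by_contra h
      exact hp (hz p h)
    rw [h2, norm_zero]

/-- the substitution -/
private theorem SlotF_subst (κ ρ : ℝ) (x0 u : ℂ) (F g h : ℂ → ℝ) (hl : (ρ : ℂ) * u - (κ : ℂ) ≠ 0) :
    Lam κ ρ x0 u F g h = (‖(ρ : ℂ) * u - (κ : ℂ)‖ ^ 2)⁻¹ *
      ∫ p : ℂ × ℂ, F (p.2 + -((ρ : ℂ) * u - (κ : ℂ))⁻¹ * p.1) *
        (g p.2 * h (x0 + (κ : ℂ) * p.2 + p.1)) := by
  set l := (ρ : ℂ) * u - (κ : ℂ) with hldef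
  rw [← subst_fst (fun p : ℂ × ℂ => F (p.2 + -l⁻¹ * p.1) * (g p.2 * h (x0 + (κ : ℂ) * p.2 + p.1))) l hl]
  rw [← subst_shear (fun p : ℂ × ℂ => F (p.2 + -l⁻¹ * (l * p.1)) *
    (g p.2 * h (x0 + (κ : ℂ) * p.2 + l * p.1))) 1]
  unfold Lam
  congr 1
  funext p
  have e1 : p.2 + 1 * p.1 + -l⁻¹ * (l * p.1) = p.2 := by
    field_simp
    ring
  have e2 : x0 + (κ : ℂ) * (p.2 + 1 * p.1) + l * p.1 = x0 + (κ : ℂ) * p.2 + (ρ : ℂ) * u * p.1 := by
    rw [hldef]
    ring
  show F p.2 * g (p.2 + p.1) * h (x0 + (κ : ℂ) * p.2 + (ρ : ℂ) * u * p.1) =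
    F (p.2 + 1 * p.1 + -l⁻¹ * (l * p.1)) *
      (g (p.2 + 1 * p.1) * h (x0 + (κ : ℂ) * (p.2 + 1 * p.1) + l * p.1))
  rw [e1, e2, one_mul, mul_assoc]

theorem slotF (N : ℕ) (hN : 1 ≤ N) (κ ρ : ℝ) (x0 : ℂ) (hP : Par κ ρ x0) (B δ Bg Bh : ℝ)
    (hδ : 0 < δ) (hδ1 : δ ≤ 1) (hNδ : 1 ≤ (N : ℝ) * δ) (F g h : ℂ → ℝ) (hF : Adm B F)
    (hD : DB δ B F) (hg : Adm Bg g) (hh : Adm Bh h) :
    |(1 / (N : ℝ)) * ∑ i ∈ Finset.range N, Lam κ ρ x0 (rot N i) F g h| ≤
      400 * Bg * Bh * B * Real.sqrt (Real.sqrt δ) := by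
  have hBg := hg.nonneg_B
  have hBh := hh.nonneg_B
  have hB := hF.nonneg_B
  set a : ℕ → ℂ := fun i => -((ρ : ℂ) * rot N i - (κ : ℂ))⁻¹ with ha
  set c : ℕ → ℝ := fun i => if i < N then (‖(ρ : ℂ) * rot N i - (κ : ℂ)‖ ^ 2)⁻¹ else 0 with hc
  have hl1 : ∀ i, i < N → 1 ≤ ‖(ρ : ℂ) * rot N i - (κ : ℂ)‖ := fun i hi =>
    one_le_norm_lam hN hi hP.k0 hP.r1
  have hc01 : ∀ i, 0 ≤ c i ∧ c i ≤ 1 := by
    intro i
    simp only [hc]
    split_ifs with hi
    · have h1 := hl1 i hi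
      exact ⟨by positivity, inv_le_one_of_one_le₀ (one_le_pow₀ h1)⟩
    · exact ⟨le_refl _, zero_le_one⟩
  set W : ℂ × ℂ → ℝ := fun p => g p.2 * h (x0 + (κ : ℂ) * p.2 + p.1) with hW
  have hWm : Measurable W := by
    have m1 : Measurable (fun p : ℂ × ℂ => g p.2) := hg.1.comp measurable_snd
    have m2 : Measurable (fun p : ℂ × ℂ => h (x0 + (κ : ℂ) * p.2 + p.1)) :=
      hh.1.comp (by fun_prop)
    exact m1.mul m2
  have hWb : ∀ p, |W p| ≤ Bg * Bh := by
    intro p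
    rw [hW, abs_mul]
    exact mul_le_mul (hg.2.1 _) (hh.2.1 _) (abs_nonneg _) hBg
  have hWz : ∀ p, W p ≠ 0 → p.1 ∈ Metric.ball (0 : ℂ) 5 ∧ p.2 ∈ sq 0 0 0 := by
    intro p hp
    have h1 : p.2 ∈ sq 0 0 0 := by
      by_contra hcon
      exact hp (by simp only [hW]; rw [hg.2.2 _ hcon, zero_mul])
    have h2 : x0 + (κ : ℂ) * p.2 + p.1 ∈ sq 0 0 0 := by
      by_contra hcon
      exact hp (by simp only [hW]; rw [hh.2.2 _ hcon, mul_zero])
    refine ⟨?_, h1⟩
    rw [mem_unit_iff] at h1 h2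
    simp only [Complex.add_re, Complex.add_im, Complex.mul_re, Complex.mul_im, Complex.ofReal_re,
      Complex.ofReal_im, zero_mul, sub_zero, add_zero] at h2
    obtain ⟨y1, y2, y3, y4⟩ := h1
    obtain ⟨z1, z2, z3, z4⟩ := h2
    have k0 := hP.k0
    have q1 : 0 ≤ κ * p.2.re := mul_nonneg k0 y1
    have q2 : κ * p.2.re ≤ κ := by nlinarith
    have q3 : 0 ≤ κ * p.2.im := mul_nonneg k0 y3
    have q4 : κ * p.2.im ≤ κ := by nlinarith
    have r1 := hP.re0
    have r2 := hP.re1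
    have r3 := hP.im0
    have r4 := hP.im1
    have t1 : |p.1.re| ≤ 1 := by rw [abs_le]; constructor <;> linarith
    have t2 : |p.1.im| ≤ 1 := by rw [abs_le]; constructor <;> linarith
    rw [mem_ball_zero_iff]
    have := Complex.norm_le_abs_re_add_abs_im p.1
    linarith
  -- the terms
  have hterm : ∀ i ∈ Finset.range N, Lam κ ρ x0 (rot N i) F g h =
      ∫ p : ℂ × ℂ, c i * F (p.2 + a i * p.1) * W p := by
    intro i hi
    rw [Finset.mem_range] at hi
    have hne : (ρ : ℂ) * rot N i - (κ : ℂ) ≠ 0 := by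
      intro h0
      have h1 := hl1 i hi
      rw [h0, norm_zero] at h1
      linarith
    rw [SlotF_subst κ ρ x0 (rot N i) F g h hne, ← integral_const_mul]
    congr 1
    funext p
    simp only [hc, ha, hW, if_pos hi]
    ring
  have hFm : ∀ i, Measurable (fun p : ℂ × ℂ => F (p.2 + a i * p.1)) := fun i =>
    hF.1.comp (by fun_prop)
  have hint : ∀ i ∈ Finset.range N, Integrable (fun p : ℂ × ℂ => c i * F (p.2 + a i * p.1) * W p) := by
    intro i _
    refine SlotF_int (((hFm i).const_mul (c i)).mul hWm) (M := 1 * B * (Bg * Bh)) ?_ ?_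
    · intro p
      rw [abs_mul, abs_mul]
      refine mul_le_mul (mul_le_mul ?_ (hF.2.1 _) (abs_nonneg _) zero_le_one) (hWb p) (abs_nonneg _)
        (by positivity)
      rw [abs_of_nonneg (hc01 i).1]
      exact (hc01 i).2
    · intro p hp
      exact hWz p (right_ne_zero_of_mul hp)
  have hsum : (1 / (N : ℝ)) * ∑ i ∈ Finset.range N, Lam κ ρ x0 (rot N i) F g h =
      ∫ p : ℂ × ℂ, ((1 / (N : ℝ)) * ∑ i ∈ Finset.range N, c i * F (p.2 + a i * p.1)) * W p := by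
    rw [Finset.sum_congr rfl hterm, ← integral_finsetSum _ hint, ← integral_const_mul]
    congr 1
    funext p
    rw [mul_assoc, Finset.sum_mul]
  have hAm : Measurable (fun p : ℂ × ℂ =>
      (1 / (N : ℝ)) * ∑ i ∈ Finset.range N, c i * F (p.2 + a i * p.1)) :=
    (Finset.measurable_sum _ fun i _ => (hFm i).const_mul (c i)).const_mul _
  have hAb : ∀ p : ℂ × ℂ, |(1 / (N : ℝ)) * ∑ i ∈ Finset.range N, c i * F (p.2 + a i * p.1)| ≤ B := by
    intro p
    have hNpos : (0 : ℝ) < N := by exact_mod_cast hN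
    have h1 : |∑ i ∈ Finset.range N, c i * F (p.2 + a i * p.1)| ≤ N * B := by
      refine (Finset.abs_sum_le_sum_abs _ _).trans ?_
      have h2 : ∀ i ∈ Finset.range N, |c i * F (p.2 + a i * p.1)| ≤ B := by
        intro i _
        rw [abs_mul, abs_of_nonneg (hc01 i).1]
        calc c i * |F (p.2 + a i * p.1)| ≤ 1 * B :=
              mul_le_mul (hc01 i).2 (hF.2.1 _) (abs_nonneg _) zero_le_one
          _ = B := one_mul B
      refine (Finset.sum_le_sum h2).trans ?_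
      rw [Finset.sum_const, Finset.card_range, nsmul_eq_mul]
    rw [abs_mul, abs_of_nonneg (by positivity : (0 : ℝ) ≤ 1 / (N : ℝ))]
    calc 1 / (N : ℝ) * |∑ i ∈ Finset.range N, c i * F (p.2 + a i * p.1)| ≤ 1 / (N : ℝ) * (N * B) :=
          mul_le_mul_of_nonneg_left h1 (by positivity)
      _ = B := by field_simp
  -- the majorant
  set V : ℂ × ℂ → ℝ := fun p => (Metric.ball (0 : ℂ) 5).indicator (fun _ => (1 : ℝ)) p.1 *
      (sq 0 0 0).indicator (fun _ => (1 : ℝ)) p.2 *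
      |(1 / (N : ℝ)) * ∑ i ∈ Finset.range N, c i * F (p.2 + a i * p.1)| with hV
  have hVm : Measurable V := by
    have m1 : Measurable (fun p : ℂ × ℂ => (Metric.ball (0 : ℂ) 5).indicator (fun _ => (1 : ℝ)) p.1) :=
      (measurable_const.indicator measurableSet_ball).comp measurable_fst
    have m2 : Measurable (fun p : ℂ × ℂ => (sq 0 0 0).indicator (fun _ => (1 : ℝ)) p.2) :=
      (measurable_const.indicator (measurableSet_sq 0 0 0)).comp measurable_snd
    exact (m1.mul m2).mul hAm.abs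
  have hind : ∀ (s : Set ℂ) (z : ℂ), |s.indicator (fun _ => (1 : ℝ)) z| ≤ 1 := by
    intro s z
    by_cases hz : z ∈ s
    · rw [Set.indicator_of_mem hz, abs_one]
    · rw [Set.indicator_of_notMem hz, abs_zero]
      exact zero_le_one
  have hVi : Integrable V := by
    refine SlotF_int hVm (M := 1 * 1 * B) ?_ ?_
    · intro p
      simp only [hV]
      rw [abs_mul, abs_mul, abs_abs]
      exact mul_le_mul (mul_le_mul (hind _ _) (hind _ _) (abs_nonneg _) zero_le_one) (hAb p)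
        (abs_nonneg _) (by norm_num)
    · intro p hp
      constructor
      · by_contra hcon
        apply hp
        simp only [hV]
        rw [Set.indicator_of_notMem hcon, zero_mul, zero_mul]
      · by_contra hcon
        apply hp
        simp only [hV]
        rw [Set.indicator_of_notMem hcon, mul_zero, zero_mul]
  have htt := tt_L1 N hN B δ hδ hδ1 hNδ F hF hD a c hc01
    (fun i j hi hj => inv_lam_sep hN hi hj hP.k0 hP.k1 hP.r1 hP.r2)
  rw [hsum, ← Real.norm_eq_abs]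
  refine (norm_integral_le_integral_norm _).trans ?_
  have hle : ∫ p : ℂ × ℂ, ‖((1 / (N : ℝ)) * ∑ i ∈ Finset.range N, c i * F (p.2 + a i * p.1)) * W p‖ ≤
      ∫ p : ℂ × ℂ, (Bg * Bh) * V p := by
    refine integral_mono_of_nonneg (Filter.Eventually.of_forall fun p => norm_nonneg _)
      (hVi.const_mul _) (Filter.Eventually.of_forall fun p => ?_)
    simp only [Real.norm_eq_abs]
    rw [abs_mul]
    by_cases hp : W p = 0
    · rw [hp, abs_zero, mul_zero]
      have hV0 : 0 ≤ V p := by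
        simp only [hV]
        refine mul_nonneg (mul_nonneg ?_ ?_) (abs_nonneg _) <;>
          exact Set.indicator_nonneg (fun _ _ => zero_le_one) _
      positivity
    · obtain ⟨h1, h2⟩ := hWz p hp
      simp only [hV]
      rw [Set.indicator_of_mem h1, Set.indicator_of_mem h2, one_mul, one_mul, mul_comm]
      exact mul_le_mul_of_nonneg_right (hWb p) (abs_nonneg _)
  refine hle.trans ?_
  rw [integral_const_mul]
  calc Bg * Bh * ∫ p : ℂ × ℂ, V p ≤ Bg * Bh * (400 * B * Real.sqrt (Real.sqrt δ)) :=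
        mul_le_mul_of_nonneg_left htt (mul_nonneg hBg hBh)
    _ = 400 * Bg * Bh * B * Real.sqrt (Real.sqrt δ) := by ring

end PinR
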