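import Pool.Agent.PinR.Subst
import Pool.Agent.PinR.Lin

set_option autoImplicit false

/-!
PIN-SlotH.  `lip_pair`: on each square `Q` of level `j` pick a point `z_Q`:
`∫_Q F G = ∫_Q F (G - G z_Q)`, `|G z - G z_Q| ≤ L * 2 (1/2)^j` (`sq_dist`), sum over the squares
(`hasSum_sq`), `∫ |F| ≤ B`.  (`G` is continuous, so `F G` is integrable.)
`slotH`: for fixed `x` substitute `z = x0 + κ x + ρ u v`: `Lam = ρ^-2 ∫_z F z G z` (Fubini),
`G z = ∫_x f x * g (β x + (ρ u)⁻¹ (z - x0))`, `β = 1 - κ (ρ u)⁻¹`, `‖β‖ ≥ re β ≥ 1` as `re u ≤ 0`,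
`‖u‖ = 1`.  `|G z - G z'| ≤ Bf ∫_x |g (β x + γ) - g (β x + γ + e)| = Bf ‖β‖^-2 ∫ |g y - g (y + e)|
≤ Bf M ‖e‖`, `‖e‖ = ‖z - z'‖ / ρ ≤ ‖z - z'‖`.
-/

namespace PinR

open MeasureTheory

theorem SlotH_unit {z : ℂ} (h : z ∈ sq 0 0 0) : ‖z‖ ≤ 2 := by
  obtain ⟨h1, h2, h3, h4⟩ := mem_unit_iff.1 h
  have h5 := Complex.norm_le_abs_re_add_abs_im z
  rw [abs_of_nonneg h1, abs_of_nonneg h3] at h5
  linarith

theorem SlotH_aff {B : ℝ} {g : ℂ → ℝ} (hg : Adm B g) (β γ : ℂ) (hβ : β ≠ 0) :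
    Integrable fun x => g (γ + β * x) := by
  have hp : 0 < ‖β‖ := norm_pos_iff.2 hβ
  have hm : Measurable fun x => g (γ + β * x) :=
    hg.1.comp (measurable_const.add (measurable_const.mul measurable_id))
  have h1 : IntegrableOn (fun x => g (γ + β * x)) (Metric.closedBall 0 ((2 + ‖γ‖) / ‖β‖)) := by
    refine Measure.integrableOn_of_bounded (M := B) ?_ hm.aestronglyMeasurable ?_
    · exact (isCompact_closedBall (0 : ℂ) _).measure_lt_top.ne
    · exact Filter.Eventually.of_forall fun x => hg.2.1 _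
  rw [integrableOn_iff_integrable_of_support_subset] at h1
  · exact h1
  · intro x hx
    rw [mem_closedBall_zero_iff, le_div_iff₀ hp]
    have h2 : γ + β * x ∈ sq 0 0 0 := by
      by_contra h3
      exact hx (hg.2.2 _ h3)
    have h3 := SlotH_unit h2
    have h4 : ‖β * x‖ ≤ ‖γ + β * x‖ + ‖γ‖ := by
      have : β * x = (γ + β * x) - γ := by ring
      calc ‖β * x‖ = ‖(γ + β * x) - γ‖ := by rw [← this]
        _ ≤ _ := norm_sub_le _ _
    rw [norm_mul] at h4
    linarith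

theorem lip_pair (j : ℕ) (B L : ℝ) (F G : ℂ → ℝ) (hF : Adm B F) (hz : ZM j F)
    (hG : ∀ z z' : ℂ, |G z - G z'| ≤ L * ‖z - z'‖) :
    |∫ z, F z * G z| ≤ 2 * B * L * (1 / 2 : ℝ) ^ j := by
  have hL : 0 ≤ L := by
    have h := hG 1 0
    rw [sub_zero, norm_one, mul_one] at h
    exact (abs_nonneg _).trans h
  have hGc : Continuous G := by
    have h1 : LipschitzWith L.toNNReal G := by
      refine LipschitzWith.of_dist_le_mul fun x y => ?_
      rw [Real.dist_eq, dist_eq_norm, Real.coe_toNNReal L hL]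
      exact hG x y
    exact h1.continuous
  have hB := hF.nonneg_B
  have hFG : Adm (B * (|G 0| + L * 2)) (fun z => F z * G z) := by
    refine ⟨hF.1.mul hGc.measurable, fun z => ?_, fun z hz => ?_⟩
    · rw [abs_mul]
      by_cases h : z ∈ sq 0 0 0
      · have h1 := hG z 0
        rw [sub_zero] at h1
        have h2 := SlotH_unit h
        have h3 : |G z| ≤ |G 0| + L * 2 := by
          have h4 : |G z| ≤ |G z - G 0| + |G 0| := by
            have : G z = (G z - G 0) + G 0 := by ring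
            calc |G z| = |(G z - G 0) + G 0| := by rw [← this]
              _ ≤ _ := abs_add_le _ _
          have h5 := mul_le_mul_of_nonneg_left h2 hL
          linarith
        exact mul_le_mul (hF.2.1 z) h3 (abs_nonneg _) hB
      · rw [hF.2.2 z h, abs_zero, zero_mul]
        exact mul_nonneg hB (add_nonneg (abs_nonneg _) (mul_nonneg hL zero_le_two))
    · change F z * G z = 0
      rw [hF.2.2 z hz, zero_mul]
  have hc : (0 : ℝ) ≤ L * (2 * (1 / 2 : ℝ) ^ j) := by positivity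
  have hs1 := hasSum_sq j _ hFG.integrable
  have hs2 := (hasSum_sq j _ hF.integrable.abs).mul_left (L * (2 * (1 / 2 : ℝ) ^ j))
  have key := hs1.norm_le_of_bounded hs2 (fun p => by
    have hFi : IntegrableOn F (sq j p.1 p.2) := hF.integrable.integrableOn
    have hFGi : IntegrableOn (fun z => F z * G z) (sq j p.1 p.2) := hFG.integrable.integrableOn
    rcases (sq j p.1 p.2).eq_empty_or_nonempty with he | ⟨z0, hz0⟩
    · rw [he]
      simp
    have e1 : ∫ z in sq j p.1 p.2, F z * G z = ∫ z in sq j p.1 p.2, F z * (G z - G z0) := by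
      have e2 : (fun z => F z * (G z - G z0)) = fun z => F z * G z - F z * G z0 := by
        funext z
        ring
      rw [e2, integral_sub hFGi (hFi.mul_const _), integral_mul_const, hz p.1 p.2, zero_mul,
        sub_zero]
    rw [e1, ← integral_const_mul]
    refine norm_integral_le_of_norm_le ((hFi.abs).const_mul _) ?_
    refine (ae_restrict_iff' (measurableSet_sq j p.1 p.2)).2 (Filter.Eventually.of_forall
      fun z hzm => ?_)
    rw [Real.norm_eq_abs, abs_mul, mul_comm]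
    refine mul_le_mul_of_nonneg_right ?_ (abs_nonneg _)
    exact (hG z z0).trans (mul_le_mul_of_nonneg_left (sq_dist hzm hz0).le hL))
  rw [Real.norm_eq_abs] at key
  refine key.trans ?_
  have h5 := mul_le_mul_of_nonneg_left hF.int_abs_le hc
  refine h5.trans (le_of_eq (by ring))

theorem slotH (κ ρ : ℝ) (x0 u : ℂ) (hP : Par κ ρ x0) (hu : ‖u‖ = 1) (hre : u.re ≤ 0) (j : ℕ)
    (B Bf Bg M : ℝ) (f g F : ℂ → ℝ) (hf : Adm Bf f) (hg : Adm Bg g) (hF : Adm B F) (hz : ZM j F)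
    (hM : ∀ e : ℂ, ∫ y, |g y - g (y + e)| ≤ M * ‖e‖) :
    |Lam κ ρ x0 u f g F| ≤ 2 * B * Bf * M * (1 / 2 : ℝ) ^ j := by
  have hρ : 0 < ρ := lt_of_lt_of_le one_pos hP.r1
  have hM0 : 0 ≤ M := by
    have h := hM 1
    rw [norm_one, mul_one] at h
    exact (integral_nonneg fun y => abs_nonneg _).trans h
  have hB := hF.nonneg_B
  have hBf := hf.nonneg_B
  have hBg := hg.nonneg_B
  obtain ⟨l, hl⟩ : ∃ l : ℂ, l = (ρ : ℂ) * u := ⟨_, rfl⟩
  have hln : ‖l‖ = ρ := by
    rw [hl, norm_mul, hu, mul_one, Complex.norm_real, Real.norm_of_nonneg hρ.le]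
  have hl0 : l ≠ 0 := by
    rw [← norm_pos_iff, hln]
    exact hρ
  obtain ⟨β, hβ⟩ : ∃ β : ℂ, β = 1 - (κ : ℂ) * l⁻¹ := ⟨_, rfl⟩
  have hβre : 1 ≤ β.re := by
    have h1 : (l⁻¹).re ≤ 0 := by
      rw [Complex.inv_re]
      refine div_nonpos_of_nonpos_of_nonneg ?_ (Complex.normSq_nonneg _)
      rw [hl, Complex.re_ofReal_mul]
      exact mul_nonpos_of_nonneg_of_nonpos hρ.le hre
    rw [hβ, Complex.sub_re, Complex.one_re, Complex.re_ofReal_mul]
    have := mul_nonpos_of_nonneg_of_nonpos hP.k0 h1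
    linarith
  have hβn : 1 ≤ ‖β‖ := hβre.trans ((le_abs_self _).trans (Complex.abs_re_le_norm β))
  have hβ0 : β ≠ 0 := by
    rw [← norm_pos_iff]
    linarith
  -- the function `G`
  obtain ⟨G, hGd⟩ : ∃ G : ℂ → ℝ, G = fun z => ∫ x, f x * g (l⁻¹ * (z - x0) + β * x) := ⟨_, rfl⟩
  have hGi : ∀ γ : ℂ, Integrable fun x => f x * g (γ + β * x) := by
    intro γ
    refine (hf.integrable.abs.const_mul Bg).mono' ?_ (Filter.Eventually.of_forall fun x => ?_)
    · exact (hf.1.mul (hg.1.comp (measurable_const.add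
        (measurable_const.mul measurable_id)))).aestronglyMeasurable
    · rw [Real.norm_eq_abs, abs_mul, mul_comm]
      exact mul_le_mul_of_nonneg_right (hg.2.1 _) (abs_nonneg _)
  have hG : ∀ z z' : ℂ, |G z - G z'| ≤ (Bf * M) * ‖z - z'‖ := by
    intro z z'
    have e1 : ∀ x, g (l⁻¹ * (z' - x0) + β * x) = g ((l⁻¹ * (z - x0) + β * x) + l⁻¹ * (z' - z)) := by
      intro x
      congr 1
      ring
    have e2 : G z - G z' = ∫ x, f x * (g (l⁻¹ * (z - x0) + β * x) -
        g ((l⁻¹ * (z - x0) + β * x) + l⁻¹ * (z' - z))) := by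
      rw [hGd]
      change (∫ x, f x * g (l⁻¹ * (z - x0) + β * x)) - (∫ x, f x * g (l⁻¹ * (z' - x0) + β * x)) = _
      rw [← integral_sub (hGi _) (hGi _)]
      refine integral_congr_ae (Filter.Eventually.of_forall fun x => ?_)
      change f x * g (l⁻¹ * (z - x0) + β * x) - f x * g (l⁻¹ * (z' - x0) + β * x) = _
      rw [e1 x]
      ring
    have hint : Integrable fun x => |g (l⁻¹ * (z - x0) + β * x) -
        g ((l⁻¹ * (z - x0) + β * x) + l⁻¹ * (z' - z))| := by
      have h1 := (SlotH_aff hg β (l⁻¹ * (z - x0)) hβ0).sub (SlotH_aff hg β (l⁻¹ * (z' - x0)) hβ0)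
      refine h1.abs.congr (Filter.Eventually.of_forall fun x => ?_)
      change |g (l⁻¹ * (z - x0) + β * x) - g (l⁻¹ * (z' - x0) + β * x)| = _
      rw [e1 x]
    have h2 : |G z - G z'| ≤ ∫ x, Bf * |g (l⁻¹ * (z - x0) + β * x) -
        g ((l⁻¹ * (z - x0) + β * x) + l⁻¹ * (z' - z))| := by
      rw [e2, ← Real.norm_eq_abs]
      refine norm_integral_le_of_norm_le (hint.const_mul Bf) (Filter.Eventually.of_forall fun x => ?_)
      rw [Real.norm_eq_abs, abs_mul]
      exact mul_le_mul_of_nonneg_right (hf.2.1 x) (abs_nonneg _)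
    have h3 := subst_mul (fun y => |g y - g (y + l⁻¹ * (z' - z))|) (l⁻¹ * (z - x0)) β hβ0
    have h4 := hM (l⁻¹ * (z' - z))
    have h5 : 0 ≤ ∫ y, |g y - g (y + l⁻¹ * (z' - z))| := integral_nonneg fun y => abs_nonneg _
    have h6 : (‖β‖ ^ 2)⁻¹ ≤ 1 := inv_le_one_of_one_le₀ (one_le_pow₀ hβn)
    have h7 : ‖l⁻¹ * (z' - z)‖ ≤ ‖z - z'‖ := by
      rw [norm_mul, norm_inv, hln, norm_sub_rev z' z]
      have : ρ⁻¹ ≤ 1 := inv_le_one_of_one_le₀ hP.r1
      exact mul_le_of_le_one_left (norm_nonneg _) this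
    rw [integral_const_mul] at h2
    refine h2.trans ?_
    have h8 : (∫ x, |g (l⁻¹ * (z - x0) + β * x) -
        g ((l⁻¹ * (z - x0) + β * x) + l⁻¹ * (z' - z))|) ≤ M * ‖z - z'‖ := by
      calc (∫ x, |g (l⁻¹ * (z - x0) + β * x) -
            g ((l⁻¹ * (z - x0) + β * x) + l⁻¹ * (z' - z))|) =
            (‖β‖ ^ 2)⁻¹ * ∫ y, |g y - g (y + l⁻¹ * (z' - z))| := h3
        _ ≤ 1 * ∫ y, |g y - g (y + l⁻¹ * (z' - z))| := mul_le_mul_of_nonneg_right h6 h5
        _ = ∫ y, |g y - g (y + l⁻¹ * (z' - z))| := one_mul _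
        _ ≤ M * ‖l⁻¹ * (z' - z)‖ := h4
        _ ≤ M * ‖z - z'‖ := mul_le_mul_of_nonneg_left h7 hM0
    rw [mul_assoc]
    exact mul_le_mul_of_nonneg_left h8 hBf
  -- Fubini and the substitution
  have hK : Integrable (fun p : ℂ × ℂ => f p.1 * g (l⁻¹ * (p.2 - x0) + β * p.1) * F p.2)
      ((volume : Measure ℂ).prod volume) := by
    refine ((hf.integrable.abs.mul_prod hF.integrable.abs).const_mul Bg).mono' ?_
      (Filter.Eventually.of_forall fun p => ?_)
    · exact ((hf.1.comp measurable_fst).mul (hg.1.comp ((measurable_const.mul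
        (measurable_snd.sub measurable_const)).add (measurable_const.mul measurable_fst)))).mul
          (hF.1.comp measurable_snd) |>.aestronglyMeasurable
    · rw [Real.norm_eq_abs, abs_mul, abs_mul]
      calc |f p.1| * |g (l⁻¹ * (p.2 - x0) + β * p.1)| * |F p.2| ≤ |f p.1| * Bg * |F p.2| :=
            mul_le_mul_of_nonneg_right (mul_le_mul_of_nonneg_left (hg.2.1 _) (abs_nonneg _))
              (abs_nonneg _)
        _ = Bg * (|f p.1| * |F p.2|) := by ring
  have hLam : Lam κ ρ x0 u f g F = (ρ ^ 2)⁻¹ * ∫ z, F z * G z := by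
    have hi := lam_integrable κ ρ x0 u hf hg hF
    rw [Measure.volume_eq_prod] at hi
    unfold Lam
    rw [Measure.volume_eq_prod, integral_prod_symm _ hi]
    have h1 : ∀ x : ℂ, (∫ v, f x * g (x + v) * F (x0 + (κ : ℂ) * x + (ρ : ℂ) * u * v)) =
        (ρ ^ 2)⁻¹ * ∫ z, f x * g (l⁻¹ * (z - x0) + β * x) * F z := by
      intro x
      have h2 := subst_mul (fun z => f x * g (l⁻¹ * (z - x0) + β * x) * F z)
        (x0 + (κ : ℂ) * x) l hl0
      rw [hln] at h2
      rw [← h2]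
      refine integral_congr_ae (Filter.Eventually.of_forall fun v => ?_)
      change f x * g (x + v) * F (x0 + (κ : ℂ) * x + (ρ : ℂ) * u * v) =
        f x * g (l⁻¹ * (x0 + (κ : ℂ) * x + l * v - x0) + β * x) * F (x0 + (κ : ℂ) * x + l * v)
      have e3 : l⁻¹ * (x0 + (κ : ℂ) * x + l * v - x0) + β * x = x + v := by
        rw [hβ]
        field_simp
        ring
      rw [e3, hl]
    have h4 : (∫ x : ℂ, ∫ v, f x * g (x + v) * F (x0 + (κ : ℂ) * x + (ρ : ℂ) * u * v)) =
        (ρ ^ 2)⁻¹ * ∫ x, ∫ z, f x * g (l⁻¹ * (z - x0) + β * x) * F z := by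
      rw [← integral_const_mul]
      exact integral_congr_ae (Filter.Eventually.of_forall h1)
    change (∫ x : ℂ, ∫ v, f x * g (x + v) * F (x0 + (κ : ℂ) * x + (ρ : ℂ) * u * v)) = _
    rw [h4, integral_integral_swap hK]
    congr 1
    refine integral_congr_ae (Filter.Eventually.of_forall fun z => ?_)
    change (∫ x, f x * g (l⁻¹ * (z - x0) + β * x) * F z) = F z * G z
    rw [integral_mul_const, hGd, mul_comm]
  have hmain := lip_pair j B (Bf * M) F G hF hz hG
  rw [hLam, abs_mul, abs_of_nonneg (by positivity)]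
  have h9 : (ρ ^ 2)⁻¹ ≤ 1 := inv_le_one_of_one_le₀ (one_le_pow₀ hP.r1)
  calc (ρ ^ 2)⁻¹ * |∫ z, F z * G z| ≤ 1 * |∫ z, F z * G z| :=
        mul_le_mul_of_nonneg_right h9 (abs_nonneg _)
    _ = |∫ z, F z * G z| := one_mul _
    _ ≤ 2 * B * (Bf * M) * (1 / 2 : ℝ) ^ j := hmain
    _ = 2 * B * Bf * M * (1 / 2 : ℝ) ^ j := by ring

end PinR
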