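import Pool.Agent.PinR.SlotG
import Pool.Agent.PinR.SlotF
import Pool.Agent.PinR.SlotH
import Pool.Agent.PinR.Disc
import Pool.Agent.PinR.DensB
import Pool.Agent.PinR.Mod
import Pool.Agent.PinR.Geo

set_option autoImplicit false

/-!
PIN-Core (helper73): the telescoping sum and the main term.
-/

namespace PinR

open MeasureTheory

theorem sqrt_sqrt_half (k : ℕ) :
    Real.sqrt (Real.sqrt ((1 / 2 : ℝ) ^ k)) ≤ (841 / 1000 : ℝ) ^ k := by
  have h1 : Real.sqrt ((1 / 2 : ℝ) ^ k) ≤ ((841 / 1000 : ℝ) ^ k) ^ 2 := by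
    apply Real.sqrt_le_iff.mpr
    refine ⟨by positivity, ?_⟩
    have e : (((841 / 1000 : ℝ) ^ k) ^ 2) ^ 2 = ((841 / 1000 : ℝ) ^ 4) ^ k := by
      rw [← pow_mul, ← pow_mul, ← pow_mul]
      ring_nf
    rw [e]
    apply pow_le_pow_left₀ (by norm_num)
    norm_num
  apply Real.sqrt_le_iff.mpr
  exact ⟨by positivity, h1⟩

theorem half_le_sqrt_sqrt (k : ℕ) :
    (1 / 2 : ℝ) ^ k ≤ Real.sqrt (Real.sqrt ((1 / 2 : ℝ) ^ k)) := by
  have h0 : (0 : ℝ) ≤ (1 / 2 : ℝ) ^ k := by positivity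
  have h1 : (1 / 2 : ℝ) ^ k ≤ 1 := pow_le_one₀ (by norm_num) (by norm_num)
  apply Real.le_sqrt_of_sq_le
  apply Real.le_sqrt_of_sq_le
  have h2 : ((1 / 2 : ℝ) ^ k) ^ 2 ≤ (1 / 2 : ℝ) ^ k := by nlinarith
  have h3 : 0 ≤ ((1 / 2 : ℝ) ^ k) ^ 2 := by positivity
  nlinarith

theorem adm_ind {a b : ℤ} (ha : 0 ≤ a ∧ a < 32) (hb : 0 ≤ b ∧ b < 32) :
    Adm 1 ((sq 5 a b).indicator (fun _ => (1 : ℝ))) := by
  refine ⟨measurable_const.indicator (measurableSet_sq 5 a b), ?_, ?_⟩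
  · intro z
    by_cases h : z ∈ sq 5 a b
    · rw [Set.indicator_of_mem h]; norm_num
    · rw [Set.indicator_of_notMem h]; norm_num
  · intro z hz
    rw [Set.indicator_of_notMem]
    intro h
    apply hz
    have h1 := sq_nested (i := 0) (j := 5) (by norm_num) h
    have ea : a / 2 ^ (5 - 0) = 0 := by
      norm_num
      omega
    have eb : b / 2 ^ (5 - 0) = 0 := by
      norm_num
      omega
    rw [ea, eb] at h1
    exact h1

theorem adm_unit : Adm 1 ((sq 0 0 0).indicator (fun _ => (1 : ℝ))) := by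
  refine ⟨measurable_const.indicator (measurableSet_sq 0 0 0), ?_, ?_⟩
  · intro z
    by_cases h : z ∈ sq 0 0 0
    · rw [Set.indicator_of_mem h]; norm_num
    · rw [Set.indicator_of_notMem h]; norm_num
  · intro z hz
    rw [Set.indicator_of_notMem hz]

theorem Adm.sub {B B' : ℝ} {F F' : ℂ → ℝ} (h : Adm B F) (h' : Adm B' F') :
    Adm (B + B') (fun z => F z - F' z) := by
  refine ⟨h.1.sub h'.1, ?_, ?_⟩
  · intro z
    have h1 := abs_sub (F z) (F' z)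
    have h2 := h.2.1 z
    have h3 := h'.2.1 z
    linarith
  · intro z hz
    show F z - F' z = 0
    rw [h.2.2 z hz, h'.2.2 z hz, sub_zero]

/-- the averaged form -/
noncomputable def TT (N : ℕ) (κ ρ : ℝ) (x0 : ℂ) (f g h : ℂ → ℝ) : ℝ :=
  (1 / (N : ℝ)) * ∑ i ∈ Finset.range N, Lam κ ρ x0 (rot N i) f g h

theorem TT_sub_f (N : ℕ) (κ ρ : ℝ) (x0 : ℂ) {B B' Bg Bh : ℝ} {f f' g h : ℂ → ℝ} (hf : Adm B f)
    (hf' : Adm B' f') (hg : Adm Bg g) (hh : Adm Bh h) :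
    TT N κ ρ x0 (fun z => f z - f' z) g h = TT N κ ρ x0 f g h - TT N κ ρ x0 f' g h := by
  unfold TT
  rw [← mul_sub, ← Finset.sum_sub_distrib]
  congr 1
  exact Finset.sum_congr rfl (fun i _ => lam_sub_f κ ρ x0 _ hf hf' hg hh)

theorem TT_sub_g (N : ℕ) (κ ρ : ℝ) (x0 : ℂ) {B B' Bf Bh : ℝ} {f g g' h : ℂ → ℝ} (hf : Adm Bf f)
    (hg : Adm B g) (hg' : Adm B' g') (hh : Adm Bh h) :
    TT N κ ρ x0 f (fun z => g z - g' z) h = TT N κ ρ x0 f g h - TT N κ ρ x0 f g' h := by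
  unfold TT
  rw [← mul_sub, ← Finset.sum_sub_distrib]
  congr 1
  exact Finset.sum_congr rfl (fun i _ => lam_sub_g κ ρ x0 _ hf hg hg' hh)

theorem TT_sub_h (N : ℕ) (κ ρ : ℝ) (x0 : ℂ) {B B' Bf Bg : ℝ} {f g h h' : ℂ → ℝ} (hf : Adm Bf f)
    (hg : Adm Bg g) (hh : Adm B h) (hh' : Adm B' h') :
    TT N κ ρ x0 f g (fun z => h z - h' z) = TT N κ ρ x0 f g h - TT N κ ρ x0 f g h' := by
  unfold TT
  rw [← mul_sub, ← Finset.sum_sub_distrib]
  congr 1
  exact Finset.sum_congr rfl (fun i _ => lam_sub_h κ ρ x0 _ hf hg hh hh')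

theorem TT_abs_le (N : ℕ) (hN : 1 ≤ N) (κ ρ : ℝ) (x0 : ℂ) (f g h : ℂ → ℝ) (C : ℝ)
    (H : ∀ i, i < N → |Lam κ ρ x0 (rot N i) f g h| ≤ C) : |TT N κ ρ x0 f g h| ≤ C := by
  unfold TT
  have hN' : (0 : ℝ) < N := by exact_mod_cast hN
  rw [abs_mul, abs_of_nonneg (by positivity : (0 : ℝ) ≤ 1 / (N : ℝ))]
  have h1 : |∑ i ∈ Finset.range N, Lam κ ρ x0 (rot N i) f g h| ≤ N * C := by
    refine le_trans (Finset.abs_sum_le_sum_abs _ _) ?_
    refine le_trans (Finset.sum_le_sum (fun i hi => H i (Finset.mem_range.mp hi))) ?_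
    rw [Finset.sum_const, Finset.card_range, nsmul_eq_mul]
  rw [div_mul_eq_mul_div, one_mul, div_le_iff₀ hN']
  linarith

/-- one step of the telescoping sum -/
theorem step (β : ℝ) (hβ : 1 ≤ β) (hβ4 : β ^ 4 ≤ 21 / 20) (κ ρ : ℝ) (x0 : ℂ) (hP : Par κ ρ x0)
    (n J : ℕ) (hJ : 2 * n ≤ J) (wf wg w' : ℕ → ℤ → ℤ → ℝ) (hwf : MT 5 J β wf) (hwg : MT 5 J β wg)
    (hw' : MT 0 J β w') (k : ℕ) (hk5 : 5 ≤ k) (hkn : k < n) :
    |TT (2 ^ n) κ ρ x0 (dens wf (k + 1)) (dens wg (k + 1)) (dens w' (2 * (k + 1))) -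
      TT (2 ^ n) κ ρ x0 (dens wf k) (dens wg k) (dens w' (2 * k))| ≤ 900 * (9 / 10 : ℝ) ^ k := by
  set N : ℕ := 2 ^ n with hNdef
  have hN : 1 ≤ N := Nat.one_le_two_pow
  set δ : ℝ := (1 / 2 : ℝ) ^ k with hδdef
  have hδ : 0 < δ := by positivity
  have hδ1 : δ ≤ 1 := pow_le_one₀ (by norm_num) (by norm_num)
  have hNδ : 1 ≤ (N : ℝ) * δ := by
    rw [hNdef, hδdef]
    push_cast
    obtain ⟨d, rfl⟩ : ∃ d, n = k + d := ⟨n - k, by omega⟩
    rw [pow_add]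
    have e1 : (2 : ℝ) ^ k * 2 ^ d * (1 / 2) ^ k = 2 ^ d * ((2 : ℝ) ^ k * (1 / 2) ^ k) := by ring
    rw [e1, ← mul_pow]
    norm_num
    exact one_le_pow₀ (by norm_num)
  have a_f0 : Adm (β ^ k) (dens wf k) := dens_adm hwf hβ (by omega) (by omega)
  have a_f1 : Adm (β ^ (k + 1)) (dens wf (k + 1)) := dens_adm hwf hβ (by omega) (by omega)
  have a_g0 : Adm (β ^ k) (dens wg k) := dens_adm hwg hβ (by omega) (by omega)
  have a_g1 : Adm (β ^ (k + 1)) (dens wg (k + 1)) := dens_adm hwg hβ (by omega) (by omega)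
  have a_h0 : Adm (β ^ (2 * k)) (dens w' (2 * k)) := dens_adm hw' hβ (by omega) (by omega)
  have a_h1 : Adm (β ^ (2 * k + 1)) (dens w' (2 * k + 1)) := dens_adm hw' hβ (by omega) (by omega)
  have a_h2 : Adm (β ^ (2 * k + 1 + 1)) (dens w' (2 * k + 1 + 1)) :=
    dens_adm hw' hβ (by omega) (by omega)
  have e22 : 2 * (k + 1) = 2 * k + 1 + 1 := by ring
  rw [e22]
  have d_f := dens_diff_adm hwf hβ (j := k) (by omega) (by omega)
  have d_g := dens_diff_adm hwg hβ (j := k) (by omega) (by omega)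
  have d_h1 := dens_diff_adm hw' hβ (j := 2 * k) (by omega) (by omega)
  have d_h2 := dens_diff_adm hw' hβ (j := 2 * k + 1) (by omega) (by omega)
  have z_f := dens_diff_zm hwf (j := k) (by omega) (by omega)
  have z_g := dens_diff_zm hwg (j := k) (by omega) (by omega)
  have z_h1 := dens_diff_zm hw' (j := 2 * k) (by omega) (by omega)
  have z_h2 := dens_diff_zm hw' (j := 2 * k + 1) (by omega) (by omega)
  have m_g : ∀ e : ℂ, ∫ y, |dens wg k y - dens wg k (y + e)| ≤ (4 * 2 ^ k) * ‖e‖ :=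
    fun e => dens_mod hwg hβ (by omega) (by omega) e
  -- the four terms
  have A1 : |TT N κ ρ x0 (fun z => dens wf (k + 1) z - dens wf k z) (dens wg (k + 1))
      (dens w' (2 * k + 1 + 1))| ≤
      400 * β ^ (k + 1) * β ^ (2 * k + 1 + 1) * β ^ (k + 1) * Real.sqrt (Real.sqrt δ) :=
    slotF N hN κ ρ x0 hP _ δ _ _ hδ hδ1 hNδ _ _ _ d_f (disc_bound k _ _ d_f z_f) a_g1 a_h2
  have A2 : |TT N κ ρ x0 (dens wf k) (fun z => dens wg (k + 1) z - dens wg k z)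
      (dens w' (2 * k + 1 + 1))| ≤
      400 * β ^ k * β ^ (2 * k + 1 + 1) * β ^ (k + 1) * Real.sqrt (Real.sqrt δ) :=
    slotG N hN κ ρ x0 hP _ δ _ _ hδ hδ1 hNδ _ _ _ a_f0 d_g (disc_bound k _ _ d_g z_g) a_h2
  have A3 : |TT N κ ρ x0 (dens wf k) (dens wg k)
      (fun z => dens w' (2 * k + 1 + 1) z - dens w' (2 * k + 1) z)| ≤
      2 * β ^ (2 * k + 1 + 1) * β ^ k * (4 * 2 ^ k) * (1 / 2 : ℝ) ^ (2 * k + 1) :=
    TT_abs_le N hN κ ρ x0 _ _ _ _ (fun i hi =>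
      slotH κ ρ x0 (rot N i) hP (norm_rot hN hi) (by linarith [(rot_re hN hi).2]) _ _ _ _ _
        _ _ _ a_f0 a_g0 d_h2 z_h2 m_g)
  have A4 : |TT N κ ρ x0 (dens wf k) (dens wg k)
      (fun z => dens w' (2 * k + 1) z - dens w' (2 * k) z)| ≤
      2 * β ^ (2 * k + 1) * β ^ k * (4 * 2 ^ k) * (1 / 2 : ℝ) ^ (2 * k) :=
    TT_abs_le N hN κ ρ x0 _ _ _ _ (fun i hi =>
      slotH κ ρ x0 (rot N i) hP (norm_rot hN hi) (by linarith [(rot_re hN hi).2]) _ _ _ _ _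
        _ _ _ a_f0 a_g0 d_h1 z_h1 m_g)
  rw [TT_sub_f N κ ρ x0 a_f1 a_f0 a_g1 a_h2] at A1
  rw [TT_sub_g N κ ρ x0 a_f0 a_g1 a_g0 a_h2] at A2
  rw [TT_sub_h N κ ρ x0 a_f0 a_g0 a_h2 a_h1] at A3
  rw [TT_sub_h N κ ρ x0 a_f0 a_g0 a_h1 a_h0] at A4
  set t0 := TT N κ ρ x0 (dens wf k) (dens wg k) (dens w' (2 * k))
  set t1 := TT N κ ρ x0 (dens wf k) (dens wg k) (dens w' (2 * k + 1))
  set t2 := TT N κ ρ x0 (dens wf k) (dens wg k) (dens w' (2 * k + 1 + 1))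
  set t3 := TT N κ ρ x0 (dens wf k) (dens wg (k + 1)) (dens w' (2 * k + 1 + 1))
  set t4 := TT N κ ρ x0 (dens wf (k + 1)) (dens wg (k + 1)) (dens w' (2 * k + 1 + 1))
  -- bounds
  set r : ℝ := Real.sqrt (Real.sqrt δ) with hr
  have hr0 : 0 ≤ r := Real.sqrt_nonneg _
  have hδr : δ ≤ r := half_le_sqrt_sqrt k
  set Q : ℝ := β ^ (4 * k + 4) with hQ
  have hQ0 : 0 ≤ Q := by positivity
  have b1 : β ^ (k + 1) * β ^ (2 * k + 1 + 1) * β ^ (k + 1) ≤ Q := by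
    rw [← pow_add, ← pow_add]
    exact pow_le_pow_right₀ hβ (by omega)
  have b2 : β ^ k * β ^ (2 * k + 1 + 1) * β ^ (k + 1) ≤ Q := by
    rw [← pow_add, ← pow_add]
    exact pow_le_pow_right₀ hβ (by omega)
  have b3 : β ^ (2 * k + 1 + 1) * β ^ k ≤ Q := by
    rw [← pow_add]
    exact pow_le_pow_right₀ hβ (by omega)
  have b4 : β ^ (2 * k + 1) * β ^ k ≤ Q := by
    rw [← pow_add]
    exact pow_le_pow_right₀ hβ (by omega)
  have p1 : (2 : ℝ) ^ k * (1 / 2 : ℝ) ^ (2 * k) = δ := by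
    rw [hδdef, two_mul, pow_add, ← mul_assoc, ← mul_pow]
    norm_num
  have p2 : (2 : ℝ) ^ k * (1 / 2 : ℝ) ^ (2 * k + 1) = δ / 2 := by
    rw [pow_succ, ← mul_assoc, p1]
    ring
  have c1 : 400 * β ^ (k + 1) * β ^ (2 * k + 1 + 1) * β ^ (k + 1) * r ≤ 400 * Q * r := by
    have := mul_le_mul_of_nonneg_right (mul_le_mul_of_nonneg_left b1 (by norm_num : (0:ℝ) ≤ 400)) hr0
    calc _ = 400 * (β ^ (k + 1) * β ^ (2 * k + 1 + 1) * β ^ (k + 1)) * r := by ring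
      _ ≤ _ := this
  have c2 : 400 * β ^ k * β ^ (2 * k + 1 + 1) * β ^ (k + 1) * r ≤ 400 * Q * r := by
    have := mul_le_mul_of_nonneg_right (mul_le_mul_of_nonneg_left b2 (by norm_num : (0:ℝ) ≤ 400)) hr0
    calc _ = 400 * (β ^ k * β ^ (2 * k + 1 + 1) * β ^ (k + 1)) * r := by ring
      _ ≤ _ := this
  have c3 : 2 * β ^ (2 * k + 1 + 1) * β ^ k * (4 * 2 ^ k) * (1 / 2 : ℝ) ^ (2 * k + 1) ≤
      4 * Q * r := by
    calc 2 * β ^ (2 * k + 1 + 1) * β ^ k * (4 * 2 ^ k) * (1 / 2 : ℝ) ^ (2 * k + 1) =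
        8 * (β ^ (2 * k + 1 + 1) * β ^ k) * ((2 : ℝ) ^ k * (1 / 2 : ℝ) ^ (2 * k + 1)) := by ring
      _ = 4 * (β ^ (2 * k + 1 + 1) * β ^ k) * δ := by rw [p2]; ring
      _ ≤ 4 * Q * r := by
          apply mul_le_mul _ hδr hδ.le (by positivity)
          linarith
  have c4 : 2 * β ^ (2 * k + 1) * β ^ k * (4 * 2 ^ k) * (1 / 2 : ℝ) ^ (2 * k) ≤
      8 * Q * r := by
    calc 2 * β ^ (2 * k + 1) * β ^ k * (4 * 2 ^ k) * (1 / 2 : ℝ) ^ (2 * k) =
        8 * (β ^ (2 * k + 1) * β ^ k) * ((2 : ℝ) ^ k * (1 / 2 : ℝ) ^ (2 * k)) := by ring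
      _ = 8 * (β ^ (2 * k + 1) * β ^ k) * δ := by rw [p1]
      _ ≤ 8 * Q * r := by
          apply mul_le_mul _ hδr hδ.le (by positivity)
          linarith
  have tot : |t4 - t0| ≤ 816 * Q * r := by
    have h5 : t4 - t0 = (t4 - t3) + (t3 - t2) + (t2 - t1) + (t1 - t0) := by ring
    rw [h5]
    have q1 := abs_add_le ((t4 - t3) + (t3 - t2) + (t2 - t1)) (t1 - t0)
    have q2 := abs_add_le ((t4 - t3) + (t3 - t2)) (t2 - t1)
    have q3 := abs_add_le (t4 - t3) (t3 - t2)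
    have hQr : 0 ≤ Q * r := by positivity
    linarith
  refine le_trans tot ?_
  have hQ4 : Q = (β ^ 4) ^ (k + 1) := by
    rw [hQ, ← pow_mul]
    congr 1
  have hrk : r ≤ (841 / 1000 : ℝ) ^ k := sqrt_sqrt_half k
  have hQle : Q ≤ (21 / 20 : ℝ) ^ (k + 1) := by
    rw [hQ4]
    exact pow_le_pow_left₀ (by positivity) hβ4 _
  calc 816 * Q * r ≤ 816 * (21 / 20 : ℝ) ^ (k + 1) * (841 / 1000 : ℝ) ^ k := by
        apply mul_le_mul _ hrk hr0 (by positivity)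
        linarith
    _ = 816 * (21 / 20) * ((21 / 20 : ℝ) * (841 / 1000)) ^ k := by
        rw [pow_succ, mul_pow]; ring
    _ ≤ 900 * (9 / 10 : ℝ) ^ k := by
        apply mul_le_mul (by norm_num) _ (by positivity) (by norm_num)
        apply pow_le_pow_left₀ (by norm_num)
        norm_num

theorem core : ∃ (β1 : ℝ) (K0 : ℕ), 1 < β1 ∧ ∀ (κ ρ : ℝ) (x0 : ℂ), Par κ ρ x0 →
    ∀ n J : ℕ, K0 ≤ n → 2 * n ≤ J → ∀ w w' : ℕ → ℤ → ℤ → ℝ, MT 0 J β1 w → w 0 0 0 = 1 →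
      MT 0 J β1 w' → w' 0 0 0 = 1 →
      ∃ x y z : ℂ, 1 / 8 ≤ ‖y - x‖ ∧ ‖z - (x0 + (κ : ℂ) * x)‖ = ρ * ‖y - x‖ ∧
        0 < dens w n x ∧ 0 < dens w n y ∧ 0 < dens w' (2 * n) z := by
  have hex : ∃ β : ℝ, 1 < β ∧ β ^ 480 < 1 + (1 / 2 : ℝ) ^ 26 ∧ β ^ 4 < 21 / 20 := by
    have hc1 : Filter.Tendsto (fun β : ℝ => β ^ 480) (nhdsWithin 1 (Set.Ioi 1)) (nhds 1) := by
      have : Filter.Tendsto (fun β : ℝ => β ^ 480) (nhds 1) (nhds (1 ^ 480)) :=
        (continuous_pow 480).tendsto 1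
      rw [one_pow] at this
      exact this.mono_left nhdsWithin_le_nhds
    have hc2 : Filter.Tendsto (fun β : ℝ => β ^ 4) (nhdsWithin 1 (Set.Ioi 1)) (nhds 1) := by
      have : Filter.Tendsto (fun β : ℝ => β ^ 4) (nhds 1) (nhds (1 ^ 4)) :=
        (continuous_pow 4).tendsto 1
      rw [one_pow] at this
      exact this.mono_left nhdsWithin_le_nhds
    have e1 := hc1.eventually (gt_mem_nhds (show (1 : ℝ) < 1 + (1 / 2 : ℝ) ^ 26 by
      have : (0 : ℝ) < (1 / 2 : ℝ) ^ 26 := by positivity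
      linarith))
    have e2 := hc2.eventually (gt_mem_nhds (show (1 : ℝ) < 21 / 20 by norm_num))
    have e3 : ∀ᶠ β : ℝ in nhdsWithin 1 (Set.Ioi 1), 1 < β := eventually_mem_nhdsWithin
    obtain ⟨β, h1, h2, h3⟩ := (e1.and (e2.and e3)).exists
    exact ⟨β, h3, h1, h2⟩
  obtain ⟨β, hβ1, hβ480, hβ4⟩ := hex
  have hβ : 1 ≤ β := hβ1.le
  refine ⟨β, 240, hβ1, ?_⟩
  intro κ ρ x0 hP n J hn hJ w w' hw hw1 hw' hw1'
  obtain ⟨a2, b2, ha2, hb2, hsep, hgeo⟩ := geo κ ρ x0 hP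
  set wf := restr w 15 15 with hwf_def
  set wg := restr w a2 b2 with hwg_def
  have hwf : MT 5 J β wf := restr_MT hw hβ 15 15
  have hwg : MT 5 J β wg := restr_MT hw hβ a2 b2
  set N : ℕ := 2 ^ n with hNdef
  have hN : 1 ≤ N := Nat.one_le_two_pow
  set T : ℕ → ℝ := fun k => TT N κ ρ x0 (dens wf k) (dens wg k) (dens w' (2 * k)) with hT
  -- telescoping
  have htel : ∀ d : ℕ, 240 + d ≤ n →
      T 240 - 9000 * ((9 / 10 : ℝ) ^ 240 - (9 / 10 : ℝ) ^ (240 + d)) ≤ T (240 + d) := by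
    intro d
    induction d with
    | zero => intro _; simp
    | succ d ih =>
      intro hd
      have h1 := ih (by omega)
      have h2 := step β hβ hβ4.le κ ρ x0 hP n J hJ wf wg w' hwf hwg hw' (240 + d) (by omega)
        (by omega)
      have h3 := (abs_le.mp h2).1
      have e : T (240 + (d + 1)) = TT (2 ^ n) κ ρ x0 (dens wf (240 + d + 1))
        (dens wg (240 + d + 1)) (dens w' (2 * (240 + d + 1))) := rfl
      have e' : T (240 + d) = TT (2 ^ n) κ ρ x0 (dens wf (240 + d))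
        (dens wg (240 + d)) (dens w' (2 * (240 + d))) := rfl
      rw [← e, ← e'] at h3
      have h4 : (9 / 10 : ℝ) ^ (240 + (d + 1)) = (9 / 10 : ℝ) ^ (240 + d) * (9 / 10) := by
        rw [← add_assoc, pow_succ]
      rw [h4]
      linarith
  -- the main term
  have hη : β ^ 480 - 1 ≤ (1 / 2 : ℝ) ^ 26 := by linarith
  have hη240 : β ^ 240 - 1 ≤ (1 / 2 : ℝ) ^ 26 := by
    have := pow_le_pow_right₀ hβ (show 240 ≤ 480 by norm_num)
    linarith
  have h26 : (1 / 2 : ℝ) ^ 26 ≤ 1 := pow_le_one₀ (by norm_num) (by norm_num)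
  have h26p : (0 : ℝ) < (1 / 2 : ℝ) ^ 26 := by positivity
  have main : ∀ i, i < N → (1 / 4 : ℝ) ^ 10 - 10 * (1 / 2 : ℝ) ^ 26 ≤
      Lam κ ρ x0 (rot N i) (dens wf 240) (dens wg 240) (dens w' (2 * 240)) := by
    intro i hi
    have aI1 : Adm 1 ((sq 5 15 15).indicator (fun _ => (1 : ℝ))) :=
      adm_ind ⟨by norm_num, by norm_num⟩ ⟨by norm_num, by norm_num⟩
    have aI2 : Adm 1 ((sq 5 a2 b2).indicator (fun _ => (1 : ℝ))) := adm_ind ha2 hb2
    have aI0 := adm_unit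
    have a_f : Adm (β ^ 240) (dens wf 240) := dens_adm hwf hβ (by omega) (by omega)
    have a_g : Adm (β ^ 240) (dens wg 240) := dens_adm hwg hβ (by omega) (by omega)
    have a_h : Adm (β ^ (2 * 240)) (dens w' (2 * 240)) := dens_adm hw' hβ (by omega) (by omega)
    have l_f := restr_L1 hw hβ hw1 (a5 := 15) (b5 := 15) ⟨by norm_num, by norm_num⟩
      ⟨by norm_num, by norm_num⟩ (j := 240) (by norm_num) (by omega)
    have l_g := restr_L1 hw hβ hw1 ha2 hb2 (j := 240) (by norm_num) (by omega)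
    have l_h := dens_L1 hw' hβ hw1' (j := 2 * 240) (by omega)
    have i_g : ∫ z, |dens wg 240 z| ≤ 1 := dens_int_le hwg hβ (by omega) (by omega)
    have i_g0 : 0 ≤ ∫ z, |dens wg 240 z| := integral_nonneg (fun z => abs_nonneg _)
    have i_1 := aI1.int_abs_le
    have i_10 : 0 ≤ ∫ z, |(sq 5 15 15).indicator (fun _ => (1 : ℝ)) z| :=
      integral_nonneg (fun z => abs_nonneg _)
    have hM := lam_main κ ρ x0 (rot N i) 15 15 a2 b2 (fun x hx y hy => hgeo N i hN hi x hx y hy)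
    have E1 := lam_L1_f κ ρ x0 (rot N i) (a_f.sub aI1) a_g a_h
    have E2 := lam_L1_f κ ρ x0 (rot N i) aI1 (a_g.sub aI2) a_h
    have E3 := lam_L1_h κ ρ x0 (rot N i) hP.r1 (norm_rot hN hi) aI1 aI2 (a_h.sub aI0)
    rw [lam_sub_f κ ρ x0 _ a_f aI1 a_g a_h] at E1
    rw [lam_sub_g κ ρ x0 _ aI1 a_g aI2 a_h] at E2
    rw [lam_sub_h κ ρ x0 _ aI1 aI2 a_h aI0, hM] at E3
    have e240 : 2 * 240 = 480 := by norm_num
    have hB2 : β ^ (2 * 240) ≤ 2 := by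
      rw [e240]; linarith
    have hB0 : 0 ≤ β ^ (2 * 240) := by positivity
    have hE1 : β ^ (2 * 240) * (∫ z, |dens wf 240 z - (sq 5 15 15).indicator (fun _ => (1 : ℝ)) z|)
        * ∫ z, |dens wg 240 z| ≤ 4 * (1 / 2 : ℝ) ^ 26 := by
      have x0' : 0 ≤ ∫ z, |dens wf 240 z - (sq 5 15 15).indicator (fun _ => (1 : ℝ)) z| :=
        integral_nonneg (fun z => abs_nonneg _)
      calc _ ≤ 2 * (2 * (1 / 2 : ℝ) ^ 26) * 1 := by
            apply mul_le_mul _ i_g i_g0 (by positivity)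
            apply mul_le_mul hB2 _ x0' (by norm_num)
            linarith
        _ = _ := by ring
    have hE2 : β ^ (2 * 240) * (∫ z, |(sq 5 15 15).indicator (fun _ => (1 : ℝ)) z|)
        * ∫ z, |dens wg 240 z - (sq 5 a2 b2).indicator (fun _ => (1 : ℝ)) z| ≤
        4 * (1 / 2 : ℝ) ^ 26 := by
      have x0' : 0 ≤ ∫ z, |dens wg 240 z - (sq 5 a2 b2).indicator (fun _ => (1 : ℝ)) z| :=
        integral_nonneg (fun z => abs_nonneg _)
      calc _ ≤ (2 * 1) * (2 * (1 / 2 : ℝ) ^ 26) := by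
            apply mul_le_mul _ _ x0' (by norm_num)
            · apply mul_le_mul hB2 i_1 i_10 (by norm_num)
            · linarith
        _ = _ := by ring
    have hE3 : 1 * 1 * (∫ z, |dens w' (2 * 240) z - (sq 0 0 0).indicator (fun _ => (1 : ℝ)) z|) ≤
        2 * (1 / 2 : ℝ) ^ 26 := by
      rw [one_mul, one_mul]
      rw [e240] at l_h ⊢
      linarith
    have r1 := le_trans (neg_le_neg hE1) (abs_le.mp E1).1
    have r2 := le_trans (neg_le_neg hE2) (abs_le.mp E2).1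
    have r3 := le_trans (neg_le_neg hE3) (abs_le.mp E3).1
    clear E1 E2 E3 hE1 hE2 hE3 l_f l_g l_h i_g i_g0 i_1 i_10 hM hη hη240 hB2 hB0 htel
    linarith
  have hTmain : (1 / 4 : ℝ) ^ 10 - 10 * (1 / 2 : ℝ) ^ 26 ≤ T 240 := by
    have hN' : (0 : ℝ) < N := by exact_mod_cast hN
    have h1 : (N : ℝ) * ((1 / 4 : ℝ) ^ 10 - 10 * (1 / 2 : ℝ) ^ 26) ≤
        ∑ i ∈ Finset.range N,
          Lam κ ρ x0 (rot N i) (dens wf 240) (dens wg 240) (dens w' (2 * 240)) := by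
      have h2 := Finset.sum_le_sum (fun i hi => main i (Finset.mem_range.mp hi))
      rw [Finset.sum_const, Finset.card_range, nsmul_eq_mul] at h2
      exact h2
    show _ ≤ TT N κ ρ x0 (dens wf 240) (dens wg 240) (dens w' (2 * 240))
    unfold TT
    rw [div_mul_eq_mul_div, one_mul, le_div_iff₀ hN']
    linarith
  have hTn : 0 < T n := by
    obtain ⟨d, rfl⟩ : ∃ d, n = 240 + d := ⟨n - 240, by omega⟩
    have h1 := htel d le_rfl
    have h2 : (0 : ℝ) < (9 / 10 : ℝ) ^ (240 + d) := by positivity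
    have h3 : 9000 * (9 / 10 : ℝ) ^ 240 < (1 / 4 : ℝ) ^ 10 - 10 * (1 / 2 : ℝ) ^ 26 := by norm_num
    linarith
  -- a good rotation
  have hgood : ∃ i, i < N ∧
      0 < Lam κ ρ x0 (rot N i) (dens wf n) (dens wg n) (dens w' (2 * n)) := by
    by_contra hcon
    push Not at hcon
    have h1 : T n ≤ 0 := by
      show TT N κ ρ x0 (dens wf n) (dens wg n) (dens w' (2 * n)) ≤ 0
      unfold TT
      apply mul_nonpos_of_nonneg_of_nonpos (by positivity)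
      exact Finset.sum_nonpos (fun i hi => hcon i (Finset.mem_range.mp hi))
    linarith
  obtain ⟨i, hi, hLam⟩ := hgood
  obtain ⟨x, v, hx, hy, hz⟩ := lam_pos_exists κ ρ x0 (rot N i)
    (fun z => dens_nonneg hwf (by omega) (by omega) z)
    (fun z => dens_nonneg hwg (by omega) (by omega) z)
    (fun z => dens_nonneg hw' (by omega) (by omega) z) hLam
  rw [hwf_def, dens_restr w 15 15 (by omega)] at hx
  rw [hwg_def, dens_restr w a2 b2 (by omega)] at hy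
  have hx1 : x ∈ sq 5 15 15 := by
    by_contra h
    rw [Set.indicator_of_notMem h] at hx
    exact lt_irrefl _ hx
  have hy1 : x + v ∈ sq 5 a2 b2 := by
    by_contra h
    rw [Set.indicator_of_notMem h] at hy
    exact lt_irrefl _ hy
  rw [Set.indicator_of_mem hx1] at hx
  rw [Set.indicator_of_mem hy1] at hy
  refine ⟨x, x + v, _, hsep x hx1 (x + v) hy1, ?_, hx, hy, hz⟩
  have e1 : x0 + (κ : ℂ) * x + (ρ : ℂ) * rot N i * v - (x0 + (κ : ℂ) * x) =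
      (ρ : ℂ) * rot N i * v := by ring
  have e2 : x + v - x = v := by ring
  rw [e1, e2, norm_mul, norm_mul, norm_rot hN hi, mul_one]
  congr 1
  rw [Complex.norm_real, Real.norm_eq_abs, abs_of_nonneg (by linarith [hP.r1])]

end PinR
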