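import Mathlib

set_option autoImplicit false

/-!
MP_16a8ab: pinned distance ratios in planar compact sets of nearly full dimension.  Definitions.
-/

namespace PinR

open MeasureTheory

/-- The dyadic square of level `j` and index `(a, b)`. -/
def sq (j : ℕ) (a b : ℤ) : Set ℂ :=
  {z | ⌊(2 : ℝ) ^ j * z.re⌋ = a ∧ ⌊(2 : ℝ) ^ j * z.im⌋ = b}

/-- Measurable, bounded by `B`, zero outside the unit square. -/
def Adm (B : ℝ) (F : ℂ → ℝ) : Prop :=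
  Measurable F ∧ (∀ z, |F z| ≤ B) ∧ ∀ z, z ∉ sq 0 0 0 → F z = 0

/-- Integral zero on every dyadic square of level `j`. -/
def ZM (j : ℕ) (F : ℂ → ℝ) : Prop := ∀ a b : ℤ, ∫ z in sq j a b, F z = 0

/-- The disc bound. -/
def DB (δ B : ℝ) (F : ℂ → ℝ) : Prop :=
  ∀ (c : ℂ) (R : ℝ), 0 < R → |∫ z in Metric.ball c R, F z| ≤ 4 * Real.pi * δ * R * B

/-- The real parts of the rotations. -/
noncomputable def sI (N i : ℕ) : ℝ := -(3 / 5) - (1 / 5) * ((i : ℝ) / (N : ℝ))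

/-- The rotations. -/
noncomputable def rot (N i : ℕ) : ℂ := ⟨sI N i, Real.sqrt (1 - sI N i ^ 2)⟩

/-- The trilinear form for one rotation `u`; `p.2` is the pin `x`, `p.1` is `v = y - x`. -/
noncomputable def Lam (κ ρ : ℝ) (x0 u : ℂ) (f g h : ℂ → ℝ) : ℝ :=
  ∫ p : ℂ × ℂ, f p.2 * g (p.2 + p.1) * h (x0 + (κ : ℂ) * p.2 + (ρ : ℂ) * u * p.1)

/-- The parameters: `x0 + κ [0,1)^2` lies in the unit square, `1 ≤ ρ ≤ 2`. -/
structure Par (κ ρ : ℝ) (x0 : ℂ) : Prop where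
  k0 : 0 ≤ κ
  k1 : κ ≤ 1
  r1 : 1 ≤ ρ
  r2 : ρ ≤ 2
  re0 : 0 ≤ x0.re
  re1 : x0.re + κ ≤ 1
  im0 : 0 ≤ x0.im
  im1 : x0.im + κ ≤ 1

/-- The density at level `j` of a mass function on dyadic squares. -/
noncomputable def dens (w : ℕ → ℤ → ℤ → ℝ) (j : ℕ) (z : ℂ) : ℝ :=
  4 ^ j * w j ⌊(2 : ℝ) ^ j * z.re⌋ ⌊(2 : ℝ) ^ j * z.im⌋

/-- A mass function on the dyadic squares of the levels `j0 ≤ j ≤ J` inside the unit square, total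
mass at most `1`, masses at most `(β/4)^j`. -/
structure MT (j0 J : ℕ) (β : ℝ) (w : ℕ → ℤ → ℤ → ℝ) : Prop where
  nonneg : ∀ (j : ℕ) (a b : ℤ), j0 ≤ j → j ≤ J → 0 ≤ w j a b
  le : ∀ (j : ℕ) (a b : ℤ), j0 ≤ j → j ≤ J → w j a b ≤ (β / 4) ^ j
  add : ∀ (j : ℕ) (a b : ℤ), j0 ≤ j → j < J → w j a b =
    w (j + 1) (2 * a) (2 * b) + w (j + 1) (2 * a + 1) (2 * b) +
      w (j + 1) (2 * a) (2 * b + 1) + w (j + 1) (2 * a + 1) (2 * b + 1)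
  supp : ∀ (j : ℕ) (a b : ℤ), j0 ≤ j → j ≤ J → w j a b ≠ 0 →
    0 ≤ a ∧ a < 2 ^ j ∧ 0 ≤ b ∧ b < 2 ^ j
  total : ∀ j : ℕ, j0 ≤ j → j ≤ J →
    ∑ a ∈ Finset.range (2 ^ j), ∑ b ∈ Finset.range (2 ^ j), w j (a : ℤ) (b : ℤ) ≤ 1

/-- Restriction of a mass function to the level `5` square of index `(a5, b5)` (levels `≥ 5`). -/
def restr (w : ℕ → ℤ → ℤ → ℝ) (a5 b5 : ℤ) (j : ℕ) (a b : ℤ) : ℝ :=
  if a / 2 ^ (j - 5) = a5 ∧ b / 2 ^ (j - 5) = b5 then w j a b else 0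

end PinR
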