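import Pool.Agent.PinR.Basic

set_option autoImplicit false

/-!
PIN-Dens: densities of mass functions.  `dens w j` is constant `4^j w j a b` on `sq j a b`.
`sq j a b` is the disjoint union of the four squares `sq (j+1) (2a + s) (2b + t)`, `s, t ∈ {0, 1}`
(`⌊2^(j+1) x⌋ / 2 = ⌊2^j x⌋`), each of area `(1/4)^(j+1)`: `dens_diff_zm` from `MT.add`.
-/

namespace PinR

open MeasureTheory

theorem dens_nonneg {j0 J : ℕ} {β : ℝ} {w : ℕ → ℤ → ℤ → ℝ} (h : MT j0 J β w) {j : ℕ}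
    (hj0 : j0 ≤ j) (hj : j ≤ J) (z : ℂ) : 0 ≤ dens w j z :=
  mul_nonneg (by positivity) (h.nonneg j _ _ hj0 hj)

theorem dens_measurable (w : ℕ → ℤ → ℤ → ℝ) (j : ℕ) : Measurable (dens w j) := by
  have h1 : Measurable fun z : ℂ => ⌊(2 : ℝ) ^ j * z.re⌋ :=
    Int.measurable_floor.comp (Complex.measurable_re.const_mul _)
  have h2 : Measurable fun z : ℂ => ⌊(2 : ℝ) ^ j * z.im⌋ :=
    Int.measurable_floor.comp (Complex.measurable_im.const_mul _)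
  exact ((measurable_of_countable (fun p : ℤ × ℤ => w j p.1 p.2)).comp
    (h1.prodMk h2)).const_mul _

theorem dens_le {j0 J : ℕ} {β : ℝ} {w : ℕ → ℤ → ℤ → ℝ} (h : MT j0 J β w) {j : ℕ}
    (hj0 : j0 ≤ j) (hj : j ≤ J) (z : ℂ) : dens w j z ≤ β ^ j := by
  have h1 := mul_le_mul_of_nonneg_left
    (h.le j ⌊(2 : ℝ) ^ j * z.re⌋ ⌊(2 : ℝ) ^ j * z.im⌋ hj0 hj) (by positivity : (0 : ℝ) ≤ 4 ^ j)
  have e : (4 : ℝ) ^ j * (β / 4) ^ j = β ^ j := by
    rw [← mul_pow]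
    congr 1
    ring
  rw [e] at h1
  exact h1

theorem dens_zero {j0 J : ℕ} {β : ℝ} {w : ℕ → ℤ → ℤ → ℝ} (h : MT j0 J β w) {j : ℕ}
    (hj0 : j0 ≤ j) (hj : j ≤ J) (z : ℂ) (hz : z ∉ sq 0 0 0) : dens w j z = 0 := by
  by_contra hne
  have h0 : w j ⌊(2 : ℝ) ^ j * z.re⌋ ⌊(2 : ℝ) ^ j * z.im⌋ ≠ 0 := fun h0 => hne (by
    rw [dens, h0, mul_zero])
  obtain ⟨ha, ha', hb, hb'⟩ := h.supp j _ _ hj0 hj h0
  apply hz
  have hm : z ∈ sq j ⌊(2 : ℝ) ^ j * z.re⌋ ⌊(2 : ℝ) ^ j * z.im⌋ := ⟨rfl, rfl⟩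
  have h1 := sq_nested (Nat.zero_le j) hm
  rw [Nat.sub_zero, Int.ediv_eq_zero_of_lt ha ha', Int.ediv_eq_zero_of_lt hb hb'] at h1
  exact h1

theorem dens_adm' {j0 J : ℕ} {β : ℝ} {w : ℕ → ℤ → ℤ → ℝ} (h : MT j0 J β w) {j : ℕ}
    (hj0 : j0 ≤ j) (hj : j ≤ J) : Adm (β ^ j) (dens w j) := by
  refine ⟨dens_measurable w j, fun z => ?_, dens_zero h hj0 hj⟩
  rw [abs_of_nonneg (dens_nonneg h hj0 hj z)]
  exact dens_le h hj0 hj z

theorem dens_adm {j0 J : ℕ} {β : ℝ} {w : ℕ → ℤ → ℤ → ℝ} (h : MT j0 J β w) (hβ : 1 ≤ β) {j : ℕ}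
    (hj0 : j0 ≤ j) (hj : j ≤ J) : Adm (β ^ j) (dens w j) :=
  dens_adm' h hj0 hj

theorem dens_diff_adm {j0 J : ℕ} {β : ℝ} {w : ℕ → ℤ → ℤ → ℝ} (h : MT j0 J β w) (hβ : 1 ≤ β)
    {j : ℕ} (hj0 : j0 ≤ j) (hj : j < J) :
    Adm (β ^ (j + 1)) (fun z => dens w (j + 1) z - dens w j z) := by
  refine ⟨(dens_measurable w _).sub (dens_measurable w _), fun z => ?_, fun z hz => ?_⟩
  · have h1 := dens_nonneg h (hj0.trans (Nat.le_succ j)) hj z
    have h2 := dens_le h (hj0.trans (Nat.le_succ j)) hj z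
    have h3 := dens_nonneg h hj0 hj.le z
    have h4 := dens_le h hj0 hj.le z
    have h5 : β ^ j ≤ β ^ (j + 1) := pow_le_pow_right₀ hβ (Nat.le_succ j)
    simp only [Nat.succ_eq_add_one] at h1 h2
    rw [abs_le]
    constructor <;> linarith
  · simp only
    rw [dens_zero h (hj0.trans (Nat.le_succ j)) hj z hz, dens_zero h hj0 hj.le z hz, sub_zero]

theorem dens_setInt (w : ℕ → ℤ → ℤ → ℝ) (j : ℕ) (a b : ℤ) :
    ∫ z in sq j a b, dens w j z = w j a b := by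
  have h1 : ∫ z in sq j a b, dens w j z = ∫ _ in sq j a b, (4 ^ j * w j a b : ℝ) := by
    refine setIntegral_congr_fun (measurableSet_sq j a b) fun z hz => ?_
    simp only [dens]
    rw [hz.1, hz.2]
  rw [h1, setIntegral_const, volume_real_sq, smul_eq_mul, ← mul_assoc, ← mul_pow]
  norm_num

theorem sq_split (j : ℕ) (a b : ℤ) : sq j a b =
    (sq (j + 1) (2 * a) (2 * b) ∪ sq (j + 1) (2 * a + 1) (2 * b)) ∪
      (sq (j + 1) (2 * a) (2 * b + 1) ∪ sq (j + 1) (2 * a + 1) (2 * b + 1)) := by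
  ext z
  have key : ∀ a' b' : ℤ, z ∈ sq (j + 1) a' b' → z ∈ sq j (a' / 2) (b' / 2) := by
    intro a' b' h
    have := sq_nested (Nat.le_succ j) h
    simpa using this
  constructor
  · intro hz
    have h0 : z ∈ sq (j + 1) ⌊(2 : ℝ) ^ (j + 1) * z.re⌋ ⌊(2 : ℝ) ^ (j + 1) * z.im⌋ := ⟨rfl, rfl⟩
    have h1 := key _ _ h0
    have ha : ⌊(2 : ℝ) ^ (j + 1) * z.re⌋ / 2 = a := h1.1.symm.trans hz.1
    have hb : ⌊(2 : ℝ) ^ (j + 1) * z.im⌋ / 2 = b := h1.2.symm.trans hz.2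
    rcases (by omega : ⌊(2 : ℝ) ^ (j + 1) * z.re⌋ = 2 * a ∨
      ⌊(2 : ℝ) ^ (j + 1) * z.re⌋ = 2 * a + 1) with h2 | h2 <;>
    rcases (by omega : ⌊(2 : ℝ) ^ (j + 1) * z.im⌋ = 2 * b ∨
      ⌊(2 : ℝ) ^ (j + 1) * z.im⌋ = 2 * b + 1) with h3 | h3
    · exact Or.inl (Or.inl ⟨h2, h3⟩)
    · exact Or.inr (Or.inl ⟨h2, h3⟩)
    · exact Or.inl (Or.inr ⟨h2, h3⟩)
    · exact Or.inr (Or.inr ⟨h2, h3⟩)
  · have e1 : 2 * a / 2 = a := by omega
    have e2 : (2 * a + 1) / 2 = a := by omega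
    have e3 : 2 * b / 2 = b := by omega
    have e4 : (2 * b + 1) / 2 = b := by omega
    rintro ((h | h) | (h | h))
    · have := key _ _ h; rwa [e1, e3] at this
    · have := key _ _ h; rwa [e2, e3] at this
    · have := key _ _ h; rwa [e1, e4] at this
    · have := key _ _ h; rwa [e2, e4] at this

theorem dens_diff_zm {j0 J : ℕ} {β : ℝ} {w : ℕ → ℤ → ℤ → ℝ} (h : MT j0 J β w) {j : ℕ}
    (hj0 : j0 ≤ j) (hj : j < J) : ZM j (fun z => dens w (j + 1) z - dens w j z) := by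
  intro a b
  have hi1 : Integrable (dens w (j + 1)) :=
    (dens_adm' h (hj0.trans (Nat.le_succ j)) hj).integrable
  have hi0 : Integrable (dens w j) := (dens_adm' h hj0 hj.le).integrable
  rw [integral_sub hi1.integrableOn hi0.integrableOn, dens_setInt]
  have hms := fun a' b' => measurableSet_sq (j + 1) a' b'
  have hd : ∀ p q : ℤ × ℤ, p ≠ q → Disjoint (sq (j + 1) p.1 p.2) (sq (j + 1) q.1 q.2) :=
    fun p q hpq => sq_disjoint hpq
  have hne : ∀ a' b' c' d' : ℤ, (a' ≠ c' ∨ b' ≠ d') →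
      Disjoint (sq (j + 1) a' b') (sq (j + 1) c' d') := by
    intro a' b' c' d' h1
    refine hd (a', b') (c', d') fun h2 => ?_
    have h3 := congrArg Prod.fst h2
    have h4 := congrArg Prod.snd h2
    simp only at h3 h4
    rcases h1 with h1 | h1
    · exact h1 h3
    · exact h1 h4
  rw [sq_split j a b, setIntegral_union _ ((hms _ _).union (hms _ _)) hi1.integrableOn
      hi1.integrableOn, setIntegral_union (hne _ _ _ _ (Or.inl (by omega))) (hms _ _)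
      hi1.integrableOn hi1.integrableOn, setIntegral_union (hne _ _ _ _ (Or.inl (by omega)))
      (hms _ _) hi1.integrableOn hi1.integrableOn, dens_setInt, dens_setInt, dens_setInt,
      dens_setInt, h.add j a b hj0 hj]
  · ring
  · rw [Set.disjoint_union_left, Set.disjoint_union_right, Set.disjoint_union_right]
    exact ⟨⟨hne _ _ _ _ (Or.inr (by omega)), hne _ _ _ _ (Or.inr (by omega))⟩,
      ⟨hne _ _ _ _ (Or.inr (by omega)), hne _ _ _ _ (Or.inr (by omega))⟩⟩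

end PinR
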