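import Pool.Agent.PinR.Tree

set_option autoImplicit false

/-!
PIN-Frost: the finite level Frostman lemma (max flow on the tree).
Capacity with remaining depth `k`: `T 0 j a b = q^j` if `sq j a b` meets `E`, else `0`;
`T (k+1) j a b = min (q^j) (∑ of the four T k (j+1) (children))` (zero if the square misses `E`).
Flow, top down: `w 0 a b = T n 0 a b`, `w (j+1) child = w j parent * T (n-j-1) child /
∑ T (n-j-1) children` (zero if the sum is zero); by induction `w j ≤ T (n-j) j ≤ q^j`.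
Lower bound: by induction on `k`, `E ∩ sq j a b` is covered by finitely many dyadic squares of
levels in `[j, j+k]` with `∑ q^level ≤ T k j a b`.  If `inf_n T n 0 a0 b0 = 0`, then `E` has finite
covers by dyadic squares with `∑ q^level → 0`; `q = 2^(-s) < 1`, so the diameters
(`≤ 2 (1/2)^level`) tend to `0` and `∑ diam^s ≤ 2^s ∑ q^level → 0`:
`hausdorffMeasure_le_liminf_sum` gives `μH[s] E = 0`.
-/

namespace PinR

open MeasureTheory

open Classical in
/-- the capacity of the square `sq j a b` with remaining depth `k` -/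
noncomputable def frT (q : ℝ) (E : Set ℂ) : ℕ → ℕ → ℤ → ℤ → ℝ
  | 0, j, a, b => if (sq j a b ∩ E).Nonempty then q ^ j else 0
  | k + 1, j, a, b => min (q ^ j) (frT q E k (j + 1) (2 * a) (2 * b) + frT q E k (j + 1) (2 * a + 1) (2 * b) +
      frT q E k (j + 1) (2 * a) (2 * b + 1) + frT q E k (j + 1) (2 * a + 1) (2 * b + 1))

/-- the sum of the capacities of the children -/
noncomputable def frS (q : ℝ) (E : Set ℂ) (k j : ℕ) (a b : ℤ) : ℝ :=
  frT q E k (j + 1) (2 * a) (2 * b) + frT q E k (j + 1) (2 * a + 1) (2 * b) +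
      frT q E k (j + 1) (2 * a) (2 * b + 1) + frT q E k (j + 1) (2 * a + 1) (2 * b + 1)

theorem frT_succ (q : ℝ) (E : Set ℂ) (k j : ℕ) (a b : ℤ) : frT q E (k + 1) j a b = min (q ^ j) (frS q E k j a b) := rfl

theorem frT_nonneg {q : ℝ} (hq : 0 < q) (E : Set ℂ) (k : ℕ) : ∀ (j : ℕ) (a b : ℤ), 0 ≤ frT q E k j a b := by
  induction k with
  | zero =>
    intro j a b
    unfold frT
    split_ifs
    · exact pow_nonneg hq.le _
    · exact le_refl _
  | succ k ih =>
    intro j a b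
    rw [frT_succ]
    refine le_min (pow_nonneg hq.le _) ?_
    unfold frS
    have h1 := ih (j + 1) (2 * a) (2 * b)
    have h2 := ih (j + 1) (2 * a + 1) (2 * b)
    have h3 := ih (j + 1) (2 * a) (2 * b + 1)
    have h4 := ih (j + 1) (2 * a + 1) (2 * b + 1)
    linarith

theorem frS_nonneg {q : ℝ} (hq : 0 < q) (E : Set ℂ) (k j : ℕ) (a b : ℤ) : 0 ≤ frS q E k j a b := by
  have h1 := frT_nonneg hq E k (j + 1) (2 * a) (2 * b)
  have h2 := frT_nonneg hq E k (j + 1) (2 * a + 1) (2 * b)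
  have h3 := frT_nonneg hq E k (j + 1) (2 * a) (2 * b + 1)
  have h4 := frT_nonneg hq E k (j + 1) (2 * a + 1) (2 * b + 1)
  unfold frS
  linarith

theorem frT_le {q : ℝ} (hq : 0 < q) (E : Set ℂ) (k j : ℕ) (a b : ℤ) : frT q E k j a b ≤ q ^ j := by
  cases k with
  | zero =>
    unfold frT
    split_ifs
    · exact le_refl _
    · exact pow_nonneg hq.le _
  | succ k =>
    rw [frT_succ]
    exact min_le_left _ _

/-- the children of a square are in the square -/
theorem fr_child {j : ℕ} {a b a' b' : ℤ} {z : ℂ} (ha : a' / 2 = a) (hb : b' / 2 = b) (h : z ∈ sq (j + 1) a' b') :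
    z ∈ sq j a b := by
  have h1 := sq_nested (i := j) (j := j + 1) (Nat.le_succ j) h
  have e : j + 1 - j = 1 := by omega
  rw [e, pow_one, ha, hb] at h1
  exact h1

/-- the square is covered by its children -/
theorem fr_cover {j : ℕ} {a b : ℤ} {z : ℂ} (h : z ∈ sq j a b) :
    z ∈ sq (j + 1) (2 * a) (2 * b) ∨ z ∈ sq (j + 1) (2 * a + 1) (2 * b) ∨ z ∈ sq (j + 1) (2 * a) (2 * b + 1) ∨
      z ∈ sq (j + 1) (2 * a + 1) (2 * b + 1) := by
  have h0 : z ∈ sq (j + 1) ⌊(2 : ℝ) ^ (j + 1) * z.re⌋ ⌊(2 : ℝ) ^ (j + 1) * z.im⌋ := ⟨rfl, rfl⟩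
  have h1 := fr_child rfl rfl h0
  have ha : ⌊(2 : ℝ) ^ (j + 1) * z.re⌋ / 2 = a := h1.1.symm.trans h.1
  have hb : ⌊(2 : ℝ) ^ (j + 1) * z.im⌋ / 2 = b := h1.2.symm.trans h.2
  have ha' : ⌊(2 : ℝ) ^ (j + 1) * z.re⌋ = 2 * a ∨ ⌊(2 : ℝ) ^ (j + 1) * z.re⌋ = 2 * a + 1 := by omega
  have hb' : ⌊(2 : ℝ) ^ (j + 1) * z.im⌋ = 2 * b ∨ ⌊(2 : ℝ) ^ (j + 1) * z.im⌋ = 2 * b + 1 := by omega
  rcases ha' with ha' | ha' <;> rcases hb' with hb' | hb' <;> rw [ha', hb'] at h0
  · exact Or.inl h0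
  · exact Or.inr (Or.inr (Or.inl h0))
  · exact Or.inr (Or.inl h0)
  · exact Or.inr (Or.inr (Or.inr h0))

theorem frT_ne {q : ℝ} (hq : 0 < q) (E : Set ℂ) (k : ℕ) : ∀ (j : ℕ) (a b : ℤ), frT q E k j a b ≠ 0 →
    (sq j a b ∩ E).Nonempty := by
  induction k with
  | zero =>
    intro j a b h
    unfold frT at h
    by_contra hcon
    rw [if_neg hcon] at h
    exact h rfl
  | succ k ih =>
    intro j a b h
    by_contra hcon
    have hch : ∀ a' b' : ℤ, a' / 2 = a → b' / 2 = b → frT q E k (j + 1) a' b' = 0 := by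
      intro a' b' ha hb
      by_contra h1
      obtain ⟨z, hz, hzE⟩ := ih (j + 1) a' b' h1
      exact hcon ⟨z, fr_child ha hb hz, hzE⟩
    apply h
    rw [frT_succ, frS, hch _ _ (by omega) (by omega), hch _ _ (by omega) (by omega), hch _ _ (by omega) (by omega),
      hch _ _ (by omega) (by omega)]
    simp only [add_zero]
    exact min_eq_right (pow_nonneg hq.le _)

/-- covers -/
theorem frT_cover {q : ℝ} (E : Set ℂ) (k : ℕ) : ∀ (j : ℕ) (a b : ℤ), ∃ L : List (ℕ × ℤ × ℤ),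
    (∀ z ∈ sq j a b ∩ E, ∃ c ∈ L, z ∈ sq c.1 c.2.1 c.2.2) ∧ (L.map fun c => q ^ c.1).sum ≤ frT q E k j a b := by
  induction k with
  | zero =>
    intro j a b
    by_cases h : (sq j a b ∩ E).Nonempty
    · refine ⟨[(j, a, b)], fun z hz => ⟨(j, a, b), by simp, hz.1⟩, ?_⟩
      unfold frT
      rw [if_pos h]
      simp
    · refine ⟨[], fun z hz => absurd ⟨z, hz⟩ h, ?_⟩
      unfold frT
      rw [if_neg h]
      simp
  | succ k ih =>
    intro j a b
    rw [frT_succ]
    rcases le_total (q ^ j) (frS q E k j a b) with h | h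
    · rw [min_eq_left h]
      refine ⟨[(j, a, b)], fun z hz => ⟨(j, a, b), by simp, hz.1⟩, ?_⟩
      simp
    · rw [min_eq_right h]
      obtain ⟨L1, c1, s1⟩ := ih (j + 1) (2 * a) (2 * b)
      obtain ⟨L2, c2, s2⟩ := ih (j + 1) (2 * a + 1) (2 * b)
      obtain ⟨L3, c3, s3⟩ := ih (j + 1) (2 * a) (2 * b + 1)
      obtain ⟨L4, c4, s4⟩ := ih (j + 1) (2 * a + 1) (2 * b + 1)
      refine ⟨L1 ++ L2 ++ L3 ++ L4, ?_, ?_⟩
      · intro z hz
        rcases fr_cover hz.1 with h1 | h1 | h1 | h1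
        · obtain ⟨c, hc, hzc⟩ := c1 z ⟨h1, hz.2⟩
          exact ⟨c, by simp [hc], hzc⟩
        · obtain ⟨c, hc, hzc⟩ := c2 z ⟨h1, hz.2⟩
          exact ⟨c, by simp [hc], hzc⟩
        · obtain ⟨c, hc, hzc⟩ := c3 z ⟨h1, hz.2⟩
          exact ⟨c, by simp [hc], hzc⟩
        · obtain ⟨c, hc, hzc⟩ := c4 z ⟨h1, hz.2⟩
          exact ⟨c, by simp [hc], hzc⟩
      · simp only [List.map_append, List.sum_append]
        unfold frS
        linarith

/-- the flow -/
noncomputable def frW (q : ℝ) (E : Set ℂ) (n : ℕ) : ℕ → ℤ → ℤ → ℝ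
  | 0, a, b => frT q E n 0 a b
  | j + 1, a, b => frW q E n j (a / 2) (b / 2) * frT q E (n - j - 1) (j + 1) a b / frS q E (n - j - 1) j (a / 2) (b / 2)

theorem frW_bd {q : ℝ} (hq : 0 < q) (E : Set ℂ) (n j : ℕ) : j ≤ n → ∀ (a b : ℤ), 0 ≤ frW q E n j a b ∧
    frW q E n j a b ≤ frT q E (n - j) j a b := by
  induction j with
  | zero =>
    intro _ a b
    exact ⟨frT_nonneg hq E n 0 a b, le_refl _⟩
  | succ j ih =>
    intro hj a b
    obtain ⟨h1, h2⟩ := ih (by omega) (a / 2) (b / 2)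
    have e1 : n - j = (n - j - 1) + 1 := by omega
    have e2 : n - (j + 1) = n - j - 1 := by omega
    rw [e1, frT_succ] at h2
    have h3 := h2.trans (min_le_right _ _)
    have h4 := frT_nonneg hq E (n - j - 1) (j + 1) a b
    have h5 := frS_nonneg hq E (n - j - 1) j (a / 2) (b / 2)
    rw [e2]
    show 0 ≤ frW q E n j (a / 2) (b / 2) * frT q E (n - j - 1) (j + 1) a b / frS q E (n - j - 1) j (a / 2) (b / 2) ∧
      frW q E n j (a / 2) (b / 2) * frT q E (n - j - 1) (j + 1) a b / frS q E (n - j - 1) j (a / 2) (b / 2) ≤ _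
    refine ⟨div_nonneg (mul_nonneg h1 h4) h5, ?_⟩
    refine div_le_of_le_mul₀ h5 h4 ?_
    rw [mul_comm (frT q E (n - j - 1) (j + 1) a b)]
    exact mul_le_mul_of_nonneg_right h3 h4

theorem frW_FM {q : ℝ} (hq : 0 < q) (E : Set ℂ) (n : ℕ) : FM n q E (frW q E n) where
  nonneg j a b hj := (frW_bd hq E n j hj a b).1
  le j a b hj := (frW_bd hq E n j hj a b).2.trans (frT_le hq E _ _ _ _)
  add j a b hj := by
    obtain ⟨h1, h2⟩ := frW_bd hq E n j hj.le a b
    have e1 : n - j = (n - j - 1) + 1 := by omega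
    rw [e1, frT_succ] at h2
    have h3 := h2.trans (min_le_right _ _)
    have d1 : 2 * a / 2 = a := by omega
    have d2 : (2 * a + 1) / 2 = a := by omega
    have d3 : 2 * b / 2 = b := by omega
    have d4 : (2 * b + 1) / 2 = b := by omega
    simp only [frW, d1, d2, d3, d4]
    rcases (frS_nonneg hq E (n - j - 1) j a b).eq_or_lt with h5 | h5
    · have h6 : frW q E n j a b = 0 := le_antisymm (by rw [h5]; exact h3) h1
      rw [h6]
      simp
    · rw [← add_div, ← add_div, ← add_div, ← mul_add, ← mul_add, ← mul_add]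
      have h6 : frT q E (n - j - 1) (j + 1) (2 * a) (2 * b) + frT q E (n - j - 1) (j + 1) (2 * a + 1) (2 * b) +
          frT q E (n - j - 1) (j + 1) (2 * a) (2 * b + 1) + frT q E (n - j - 1) (j + 1) (2 * a + 1) (2 * b + 1) =
          frS q E (n - j - 1) j a b := rfl
      rw [h6, mul_div_assoc, div_self h5.ne', mul_one]
  supp j a b hj h := by
    obtain ⟨h1, h2⟩ := frW_bd hq E n j hj a b
    refine frT_ne hq E (n - j) j a b ?_
    intro h3
    rw [h3] at h2
    exact h (le_antisymm h2 h1)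

theorem fr_diam (l : ℕ) (a b : ℤ) : Metric.ediam (sq l a b) ≤ ENNReal.ofReal (2 * (1 / 2 : ℝ) ^ l) := by
  refine Metric.ediam_le ?_
  intro x hx y hy
  rw [edist_dist, dist_eq_norm]
  exact ENNReal.ofReal_le_ofReal (sq_dist hx hy).le

theorem finite_frostman (s : ℝ) (hs : 0 < s) (E : Set ℂ) (a0 b0 : ℤ) (hE : E ⊆ sq 0 a0 b0)
    (hH : Measure.hausdorffMeasure s E ≠ 0) :
    ∃ c : ℝ, 0 < c ∧ ∀ n : ℕ, ∃ w : ℕ → ℤ → ℤ → ℝ, FM n ((2 : ℝ) ^ (-s)) E w ∧ c ≤ w 0 a0 b0 := by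
  set q : ℝ := (2 : ℝ) ^ (-s) with hqdef
  have hq : 0 < q := Real.rpow_pos_of_pos two_pos _
  have hq1 : q < 1 := Real.rpow_lt_one_of_one_lt_of_neg one_lt_two (by linarith)
  by_contra hcon
  push Not at hcon
  apply hH
  -- small covers
  have hsmall : ∀ m : ℕ, ∃ L : List (ℕ × ℤ × ℤ), (∀ z ∈ E, ∃ c ∈ L, z ∈ sq c.1 c.2.1 c.2.2) ∧
      (L.map fun c => q ^ c.1).sum ≤ q ^ m := by
    intro m
    obtain ⟨n, hn⟩ := hcon (q ^ m) (pow_pos hq _)
    have h1 := hn (frW q E n) (frW_FM hq E n)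
    obtain ⟨L, hL, hL'⟩ := frT_cover (q := q) E n 0 a0 b0
    exact ⟨L, fun z hz => hL z ⟨hE hz, hz⟩, hL'.trans h1.le⟩
  choose L hL hL' using hsmall
  have hlev : ∀ m, ∀ c ∈ L m, m ≤ c.1 := by
    intro m c hc
    have h1 : q ^ c.1 ≤ (L m |>.map fun c => q ^ c.1).sum :=
      List.single_le_sum (by
        intro x hx
        obtain ⟨c', -, rfl⟩ := List.mem_map.1 hx
        exact pow_nonneg hq.le _) _ (List.mem_map.2 ⟨c, hc, rfl⟩)
    exact (pow_le_pow_iff_right_of_lt_one₀ hq hq1).1 (h1.trans (hL' m))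
  have hqs : ∀ l : ℕ, (2 * (1 / 2 : ℝ) ^ l) ^ s = 2 ^ s * q ^ l := by
    intro l
    rw [Real.mul_rpow (by norm_num) (by positivity), hqdef, Real.rpow_neg (by norm_num)]
    congr 1
    rw [← Real.rpow_natCast ((1 / 2 : ℝ)) l, ← Real.rpow_mul (by norm_num), mul_comm, Real.rpow_mul (by norm_num),
      Real.rpow_natCast, one_div, Real.inv_rpow (by norm_num)]
  have key := Measure.hausdorffMeasure_le_liminf_sum (X := ℂ) (β := ℕ) (ι := fun m => Fin (L m).length) s E
    (l := Filter.atTop) (fun m => ENNReal.ofReal (2 * (1 / 2 : ℝ) ^ m)) (by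
      have h1 : Filter.Tendsto (fun m : ℕ => 2 * (1 / 2 : ℝ) ^ m) Filter.atTop (nhds (2 * 0)) :=
        (tendsto_pow_atTop_nhds_zero_of_lt_one (by norm_num) (by norm_num)).const_mul 2
      rw [mul_zero] at h1
      simpa using ENNReal.tendsto_ofReal h1)
    (fun m i => sq ((L m).get i).1 ((L m).get i).2.1 ((L m).get i).2.2)
    (Filter.Eventually.of_forall fun m i => (fr_diam _ _ _).trans (ENNReal.ofReal_le_ofReal (by
      have h1 := hlev m _ (List.get_mem (L m) i)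
      have h2 : (1 / 2 : ℝ) ^ ((L m).get i).1 ≤ (1 / 2 : ℝ) ^ m := pow_le_pow_of_le_one (by norm_num) (by norm_num) h1
      linarith)))
    (Filter.Eventually.of_forall fun m z hz => by
      obtain ⟨c, hc, hzc⟩ := hL m z hz
      obtain ⟨i, hi⟩ := List.get_of_mem hc
      rw [Set.mem_iUnion]
      refine ⟨i, ?_⟩
      rw [hi]
      exact hzc)
  have hup : ∀ m, ∑ i : Fin (L m).length, Metric.ediam (sq ((L m).get i).1 ((L m).get i).2.1 ((L m).get i).2.2) ^ s ≤
      ENNReal.ofReal (2 ^ s * q ^ m) := by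
    intro m
    have h1 : ∀ i : Fin (L m).length, Metric.ediam (sq ((L m).get i).1 ((L m).get i).2.1 ((L m).get i).2.2) ^ s ≤
        ENNReal.ofReal (2 ^ s * q ^ ((L m).get i).1) := by
      intro i
      refine (ENNReal.rpow_le_rpow (fr_diam _ _ _) hs.le).trans ?_
      rw [ENNReal.ofReal_rpow_of_nonneg (by positivity) hs.le, hqs]
    refine (Finset.sum_le_sum fun i _ => h1 i).trans ?_
    rw [← ENNReal.ofReal_sum_of_nonneg (fun i _ => by positivity)]
    refine ENNReal.ofReal_le_ofReal ?_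
    rw [← Finset.mul_sum]
    refine mul_le_mul_of_nonneg_left ?_ (by positivity)
    have h2 : ∑ i : Fin (L m).length, q ^ ((L m).get i).1 = ((L m).map fun c => q ^ c.1).sum := by
      rw [← List.sum_ofFn]
      congr 1
      refine List.ext_get ?_ ?_
      · simp
      · intro i h1 h2
        simp
    rw [h2]
    exact hL' m
  have hlim : Filter.Tendsto (fun m : ℕ => ENNReal.ofReal (2 ^ s * q ^ m)) Filter.atTop (nhds 0) := by
    have h1 : Filter.Tendsto (fun m : ℕ => (2 : ℝ) ^ s * q ^ m) Filter.atTop (nhds (2 ^ s * 0)) :=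
      (tendsto_pow_atTop_nhds_zero_of_lt_one hq.le hq1).const_mul _
    rw [mul_zero] at h1
    simpa using ENNReal.tendsto_ofReal h1
  have h0 := key.trans (Filter.liminf_le_liminf (Filter.Eventually.of_forall hup))
  rw [hlim.liminf_eq] at h0
  exact le_antisymm h0 bot_le

end PinR
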