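import Pool.Agent.PinR.Tree

set_option autoImplicit false

/-!
PIN-Nest: two nested record squares at relative depth `m`.
Potential `θ (l, Q) = w l Q / q1^l`.  From the square `Q` (level `k`, positive mass) go to a child
with the largest mass if `Q` is a record square (`Reg`), `θ (child) ≥ θ Q / (4 q1)`; otherwise to a
descendant `R` of level in `(k, n]` with `θ R > θ Q`.  Start at the root, `θ ≥ c`, stop at the first
level `≥ L` (`L ≤ n`).  Let `G` be the set of levels `< L` of the visited record squares.  If there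
is no nested pair, `G` and `G + m` are disjoint subsets of `[0, L + m)`, so `2 |G| ≤ L + m`.
At the end `c (4 q1)^(-|G|) ≤ θ ≤ (q/q1)^level ≤ (q/q1)^L`, so
`c^2 ≤ (4 q1)^(L+m) (q/q1)^(2L) = (4 q1)^m (4 q^2/q1)^L`, false for `L` large as `4 q^2 < q1`.
-/

namespace PinR

open MeasureTheory

theorem nest_div (a : ℤ) {g k l : ℕ} (hgk : g ≤ k) (hkl : k ≤ l) :
    a / 2 ^ (l - k) / 2 ^ (k - g) = a / 2 ^ (l - g) := by
  rw [Int.ediv_ediv_of_nonneg (by positivity), ← pow_add]
  congr 2
  omega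

/-- The state of the walk: at the square `(k, a, b)`, with the set `G` of levels of visited record
squares. -/
structure NestInv (q1 c : ℝ) (L n : ℕ) (w : ℕ → ℤ → ℤ → ℝ) (k : ℕ) (a b : ℤ) (G : Finset ℕ) :
    Prop where
  le : k ≤ n
  mem : ∀ g ∈ G, g < k ∧ g < L ∧ Reg q1 n w g (a / 2 ^ (k - g)) (b / 2 ^ (k - g)) ∧
    0 < w g (a / 2 ^ (k - g)) (b / 2 ^ (k - g))
  pot : c * q1 ^ k ≤ (4 * q1) ^ G.card * w k a b

theorem NestInv.pos {q1 c : ℝ} {L n : ℕ} {w : ℕ → ℤ → ℤ → ℝ} {k : ℕ} {a b : ℤ} {G : Finset ℕ}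
    (h : NestInv q1 c L n w k a b G) (hq1 : 0 < q1) (hc : 0 < c) : 0 < w k a b := by
  have h1 : 0 < c * q1 ^ k := by positivity
  have h2 : 0 < (4 * q1) ^ G.card * w k a b := lt_of_lt_of_le h1 h.pot
  exact pos_of_mul_pos_right h2 (by positivity)

theorem nest_child {n : ℕ} {q : ℝ} {E : Set ℂ} {w : ℕ → ℤ → ℤ → ℝ} (hF : FM n q E w) {k : ℕ}
    (hk : k < n) (a b : ℤ) : ∃ a' b' : ℤ, a' / 2 = a ∧ b' / 2 = b ∧ w k a b ≤ 4 * w (k + 1) a' b' := by
  by_contra hcon
  push Not at hcon
  have e := hF.add k a b hk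
  have h1 := hcon (2 * a) (2 * b) (by omega) (by omega)
  have h2 := hcon (2 * a + 1) (2 * b) (by omega) (by omega)
  have h3 := hcon (2 * a) (2 * b + 1) (by omega) (by omega)
  have h4 := hcon (2 * a + 1) (2 * b + 1) (by omega) (by omega)
  linarith

theorem nest_walk {q q1 c : ℝ} (hq1 : 0 < q1) (hc : 0 < c) {L n : ℕ} (hL : L ≤ n) {E : Set ℂ}
    {w : ℕ → ℤ → ℤ → ℝ} (hF : FM n q E w) (d : ℕ) :
    ∀ (k : ℕ) (a b : ℤ) (G : Finset ℕ), L ≤ k + d → NestInv q1 c L n w k a b G →
      ∃ (k' : ℕ) (a' b' : ℤ) (G' : Finset ℕ), L ≤ k' ∧ NestInv q1 c L n w k' a' b' G' := by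
  induction d with
  | zero =>
    intro k a b G hk h
    exact ⟨k, a, b, G, by omega, h⟩
  | succ d ih =>
    intro k a b G hk h
    by_cases hkL : L ≤ k
    · exact ⟨k, a, b, G, hkL, h⟩
    · push Not at hkL
      have hkn : k < n := lt_of_lt_of_le hkL hL
      have hpos := h.pos hq1 hc
      by_cases hR : Reg q1 n w k a b
      · obtain ⟨a', b', ha', hb', hw⟩ := nest_child hF hkn a b
        have hkG : k ∉ G := fun hkG => lt_irrefl _ (h.mem k hkG).1
        refine ih (k + 1) a' b' (insert k G) (by omega) ⟨hkn, ?_, ?_⟩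
        · intro g hg
          rw [Finset.mem_insert] at hg
          rcases hg with hg | hg
          · subst hg
            have e : g + 1 - g = 1 := by omega
            rw [e, pow_one, ha', hb']
            exact ⟨Nat.lt_succ_self g, hkL, hR, hpos⟩
          · obtain ⟨g1, g2, g3, g4⟩ := h.mem g hg
            have e1 := nest_div a' g1.le (Nat.le_succ k)
            have e2 := nest_div b' g1.le (Nat.le_succ k)
            have e : k.succ - k = 1 := by omega
            rw [e, pow_one] at e1 e2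
            rw [ha'] at e1
            rw [hb'] at e2
            have e3 : k.succ - g = k + 1 - g := rfl
            rw [e3] at e1 e2
            rw [← e1, ← e2]
            exact ⟨by omega, g2, g3, g4⟩
        · rw [Finset.card_insert_of_notMem hkG]
          have h1 := h.pot
          have h2 : (0 : ℝ) ≤ (4 * q1) ^ G.card := by positivity
          calc c * q1 ^ (k + 1) = c * q1 ^ k * q1 := by ring
            _ ≤ (4 * q1) ^ G.card * w k a b * q1 := mul_le_mul_of_nonneg_right h1 hq1.le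
            _ ≤ (4 * q1) ^ G.card * (4 * w (k + 1) a' b') * q1 :=
                mul_le_mul_of_nonneg_right (mul_le_mul_of_nonneg_left hw h2) hq1.le
            _ = (4 * q1) ^ (G.card + 1) * w (k + 1) a' b' := by ring
      · unfold Reg at hR
        push Not at hR
        obtain ⟨l, a', b', h1, h2, h3, h4, h5⟩ := hR
        have hlk : k < l := by
          rcases Nat.lt_or_ge k l with h6 | h6
          · exact h6
          · exfalso
            have h7 : l = k := le_antisymm h6 h1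
            subst h7
            rw [Nat.sub_self, pow_zero, Int.ediv_one] at h3 h4
            rw [Nat.sub_self, pow_zero, mul_one, h3, h4] at h5
            exact lt_irrefl _ h5
        refine ih l a' b' G (by omega) ⟨h2, ?_, ?_⟩
        · intro g hg
          obtain ⟨g1, g2, g3, g4⟩ := h.mem g hg
          have e1 := nest_div a' g1.le h1
          have e2 := nest_div b' g1.le h1
          rw [h3] at e1
          rw [h4] at e2
          rw [← e1, ← e2]
          exact ⟨by omega, g2, g3, g4⟩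
        · have h6 := h.pot
          have h7 : (0 : ℝ) ≤ (4 * q1) ^ G.card := by positivity
          have h8 : q1 ^ l = q1 ^ k * q1 ^ (l - k) := by
            rw [← pow_add]
            congr 1
            omega
          calc c * q1 ^ l = c * q1 ^ k * q1 ^ (l - k) := by rw [h8]; ring
            _ ≤ (4 * q1) ^ G.card * w k a b * q1 ^ (l - k) :=
                mul_le_mul_of_nonneg_right h6 (by positivity)
            _ = (4 * q1) ^ G.card * (w k a b * q1 ^ (l - k)) := by ring
            _ ≤ (4 * q1) ^ G.card * w l a' b' := mul_le_mul_of_nonneg_left h5.le h7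

theorem nest_card {G : Finset ℕ} {L m : ℕ} (hG : ∀ g ∈ G, g < L) (hm : ∀ g ∈ G, g + m ∉ G) :
    2 * G.card ≤ L + m := by
  classical
  have h1 : Disjoint G (G.image (fun g => g + m)) := by
    rw [Finset.disjoint_left]
    intro x hx hx'
    rw [Finset.mem_image] at hx'
    obtain ⟨g, hg, rfl⟩ := hx'
    exact hm g hg hx
  have h2 : (G.image (fun g => g + m)).card = G.card :=
    Finset.card_image_of_injective _ (fun x y h => by simpa using h)
  have h3 : G ∪ G.image (fun g => g + m) ⊆ Finset.range (L + m) := by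
    intro x hx
    rw [Finset.mem_union, Finset.mem_image] at hx
    rw [Finset.mem_range]
    rcases hx with hx | ⟨g, hg, rfl⟩
    · have := hG x hx
      omega
    · have := hG g hg
      omega
  have h4 := Finset.card_le_card h3
  rw [Finset.card_union_of_disjoint h1, h2, Finset.card_range] at h4
  omega

theorem nest (q q1 c : ℝ) (hq : 1 / 4 ≤ q) (hqq : q < q1) (h1 : 4 * q ^ 2 < q1) (hc : 0 < c)
    (m : ℕ) :
    ∃ L : ℕ, ∀ (n : ℕ) (E : Set ℂ) (w : ℕ → ℤ → ℤ → ℝ) (a0 b0 : ℤ), L ≤ n → FM n q E w →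
      c ≤ w 0 a0 b0 → ∃ (k : ℕ) (a b a' b' : ℤ), k + m ≤ L ∧ a' / 2 ^ m = a ∧ b' / 2 ^ m = b ∧
        0 < w k a b ∧ 0 < w (k + m) a' b' ∧ Reg q1 n w k a b ∧ Reg q1 n w (k + m) a' b' := by
  have hq0 : 0 < q := by linarith
  have hq1 : 0 < q1 := by linarith
  have hr : 4 * q ^ 2 / q1 < 1 := by
    rw [div_lt_one hq1]
    exact h1
  obtain ⟨L, hL⟩ := exists_pow_lt_of_lt_one (show 0 < c ^ 2 / (4 * q1) ^ m by positivity) hr
  refine ⟨L, ?_⟩
  intro n E w a0 b0 hLn hF hw0
  have hinit : NestInv q1 c L n w 0 a0 b0 ∅ := by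
    refine ⟨Nat.zero_le n, ?_, ?_⟩
    · intro g hg
      exact absurd hg (Finset.notMem_empty g)
    · simpa using hw0
  obtain ⟨k', a', b', G, hk', hI⟩ := nest_walk hq1 hc hLn hF L 0 a0 b0 ∅ (by omega) hinit
  by_contra hcon
  push Not at hcon
  have hno : ∀ g ∈ G, g + m ∉ G := by
    intro g hg hgm
    obtain ⟨g1, g2, g3, g4⟩ := hI.mem g hg
    obtain ⟨m1, m2, m3, m4⟩ := hI.mem (g + m) hgm
    have e1 := nest_div a' (Nat.le_add_right g m) m1.le
    have e2 := nest_div b' (Nat.le_add_right g m) m1.le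
    have e3 : g + m - g = m := by omega
    rw [e3] at e1 e2
    exact hcon g _ _ _ _ m2.le e1 e2 g4 m4 g3 m3
  have hcard := nest_card (fun g hg => (hI.mem g hg).2.1) hno
  have hle := hF.le k' a' b' hI.le
  have hpot := hI.pot
  have hB : (1 : ℝ) ≤ 4 * q1 := by linarith
  -- `c * q1 ^ L ≤ (4 * q1) ^ G.card * q ^ L`
  have hfin : c * q1 ^ L ≤ (4 * q1) ^ G.card * q ^ L := by
    have e1 : c * q1 ^ k' ≤ (4 * q1) ^ G.card * q ^ k' :=
      hpot.trans (mul_le_mul_of_nonneg_left hle (by positivity))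
    have e2 : q1 ^ k' = q1 ^ L * q1 ^ (k' - L) := by
      rw [← pow_add]
      congr 1
      omega
    have e3 : q ^ k' = q ^ L * q ^ (k' - L) := by
      rw [← pow_add]
      congr 1
      omega
    have e4 : q ^ (k' - L) ≤ q1 ^ (k' - L) := pow_le_pow_left₀ hq0.le hqq.le _
    have e5 : c * q1 ^ L * q1 ^ (k' - L) ≤ (4 * q1) ^ G.card * q ^ L * q1 ^ (k' - L) := by
      calc c * q1 ^ L * q1 ^ (k' - L) = c * q1 ^ k' := by rw [e2]; ring
        _ ≤ (4 * q1) ^ G.card * q ^ k' := e1
        _ = (4 * q1) ^ G.card * q ^ L * q ^ (k' - L) := by rw [e3]; ring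
        _ ≤ (4 * q1) ^ G.card * q ^ L * q1 ^ (k' - L) :=
            mul_le_mul_of_nonneg_left e4 (by positivity)
    exact le_of_mul_le_mul_right e5 (by positivity)
  have hsq : (c * q1 ^ L) ^ 2 ≤ ((4 * q1) ^ G.card * q ^ L) ^ 2 :=
    pow_le_pow_left₀ (by positivity) hfin 2
  have hpw : ((4 * q1) ^ G.card) ^ 2 ≤ (4 * q1) ^ (L + m) := by
    rw [← pow_mul]
    exact pow_le_pow_right₀ hB (by omega)
  have h6 : c ^ 2 * (q1 ^ L * q1 ^ L) ≤ (4 * q1) ^ (L + m) * (q ^ 2) ^ L := by
    calc c ^ 2 * (q1 ^ L * q1 ^ L) = (c * q1 ^ L) ^ 2 := by ring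
      _ ≤ ((4 * q1) ^ G.card * q ^ L) ^ 2 := hsq
      _ = ((4 * q1) ^ G.card) ^ 2 * (q ^ 2) ^ L := by ring
      _ ≤ (4 * q1) ^ (L + m) * (q ^ 2) ^ L := mul_le_mul_of_nonneg_right hpw (by positivity)
  have h7 : (4 * q1) ^ m * (4 * q ^ 2 / q1) ^ L < c ^ 2 := by
    rw [lt_div_iff₀ (by positivity)] at hL
    rw [mul_comm]
    exact hL
  have h8 : (4 * q1) ^ m * (4 * q ^ 2 / q1) ^ L * (q1 ^ L * q1 ^ L) = (4 * q1) ^ (L + m) * (q ^ 2) ^ L := by
    rw [div_pow, mul_pow 4 (q ^ 2) L, pow_add (4 * q1) L m, mul_pow 4 q1 L]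
    have hne : q1 ^ L ≠ 0 := by positivity
    generalize (4 * q1) ^ m = A
    generalize (q ^ 2) ^ L = C
    field_simp
  have h9 : (4 * q1) ^ m * (4 * q ^ 2 / q1) ^ L * (q1 ^ L * q1 ^ L) < c ^ 2 * (q1 ^ L * q1 ^ L) :=
    mul_lt_mul_of_pos_right h7 (by positivity)
  rw [h8] at h9
  exact absurd h6 (not_le.2 h9)

end PinR
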