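import Pool.Agent.PinR.Tree

set_option autoImplicit false

/-!
PIN-Norm: the mass function below a record square, normalised, is a mass function `MT`.
`wn j d e = w (k+j) (2^j a + d) (2^j b + e) / w k a b` for `0 ≤ d, e < 2^j`, else `0`.
`le`: `Reg` gives `≤ q1^j = (β/4)^j`; `total`: the sum over the descendants of level `k + j` is
`w k a b` (induction on `j`, `FM.add`).
-/

namespace PinR

open MeasureTheory

/-- The normalised mass function below the square `(k, a, b)`. -/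
noncomputable def wn (w : ℕ → ℤ → ℤ → ℝ) (k : ℕ) (a b : ℤ) (j : ℕ) (d e : ℤ) : ℝ :=
  if 0 ≤ d ∧ d < 2 ^ j ∧ 0 ≤ e ∧ e < 2 ^ j then
    w (k + j) (2 ^ j * a + d) (2 ^ j * b + e) / w k a b else 0

theorem wn_root (w : ℕ → ℤ → ℤ → ℝ) (k : ℕ) (a b : ℤ) (h : 0 < w k a b) : wn w k a b 0 0 0 = 1 := by
  unfold wn
  rw [if_pos (by norm_num)]
  simp only [pow_zero, one_mul, add_zero]
  exact div_self h.ne'

theorem wn_of_mem (w : ℕ → ℤ → ℤ → ℝ) (k : ℕ) (a b : ℤ) {j : ℕ} {d e : ℤ}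
    (h : 0 ≤ d ∧ d < 2 ^ j ∧ 0 ≤ e ∧ e < 2 ^ j) :
    wn w k a b j d e = w (k + j) (2 ^ j * a + d) (2 ^ j * b + e) / w k a b := if_pos h

theorem wn_of_not (w : ℕ → ℤ → ℤ → ℝ) (k : ℕ) (a b : ℤ) {j : ℕ} {d e : ℤ}
    (h : ¬ (0 ≤ d ∧ d < 2 ^ j ∧ 0 ≤ e ∧ e < 2 ^ j)) : wn w k a b j d e = 0 := if_neg h

theorem wn_sum_range_two (f : ℕ → ℝ) (m : ℕ) :
    ∑ i ∈ Finset.range (2 * m), f i = ∑ i ∈ Finset.range m, (f (2 * i) + f (2 * i + 1)) := by
  induction m with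
  | zero => simp
  | succ m ih =>
    rw [Finset.sum_range_succ _ m, ← ih, show 2 * (m + 1) = 2 * m + 1 + 1 by ring,
      Finset.sum_range_succ, Finset.sum_range_succ, add_assoc]

theorem wn_add {n : ℕ} {q : ℝ} {E : Set ℂ} {w : ℕ → ℤ → ℤ → ℝ} (h : FM n q E w) {k : ℕ}
    {a b : ℤ} {j : ℕ} (hj : k + j < n) (d e : ℤ) : wn w k a b j d e =
    wn w k a b (j + 1) (2 * d) (2 * e) + wn w k a b (j + 1) (2 * d + 1) (2 * e) +
      wn w k a b (j + 1) (2 * d) (2 * e + 1) + wn w k a b (j + 1) (2 * d + 1) (2 * e + 1) := by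
  have hp : (2 : ℤ) ^ (j + 1) = 2 * 2 ^ j := by ring
  by_cases hc : 0 ≤ d ∧ d < 2 ^ j ∧ 0 ≤ e ∧ e < 2 ^ j
  · obtain ⟨h1, h2, h3, h4⟩ := hc
    rw [wn_of_mem w k a b ⟨h1, h2, h3, h4⟩,
      wn_of_mem w k a b (j := j + 1) (d := 2 * d) (e := 2 * e)
        ⟨by omega, by omega, by omega, by omega⟩,
      wn_of_mem w k a b (j := j + 1) (d := 2 * d + 1) (e := 2 * e)
        ⟨by omega, by omega, by omega, by omega⟩,
      wn_of_mem w k a b (j := j + 1) (d := 2 * d) (e := 2 * e + 1)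
        ⟨by omega, by omega, by omega, by omega⟩,
      wn_of_mem w k a b (j := j + 1) (d := 2 * d + 1) (e := 2 * e + 1)
        ⟨by omega, by omega, by omega, by omega⟩]
    rw [h.add (k + j) _ _ hj, ← add_div, ← add_div, ← add_div]
    have e1 : ∀ t s : ℤ, 2 * (2 ^ j * t + s) = 2 ^ (j + 1) * t + 2 * s := by intro t s; ring
    have e2 : ∀ t s : ℤ, 2 * (2 ^ j * t + s) + 1 = 2 ^ (j + 1) * t + (2 * s + 1) := by
      intro t s; ring
    rw [e1 a d, e1 b e]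
    rw [show (2 : ℤ) ^ (j + 1) * a + 2 * d + 1 = 2 ^ (j + 1) * a + (2 * d + 1) by ring,
      show (2 : ℤ) ^ (j + 1) * b + 2 * e + 1 = 2 ^ (j + 1) * b + (2 * e + 1) by ring]
    rfl
  · rw [wn_of_not w k a b hc,
      wn_of_not w k a b (j := j + 1) (d := 2 * d) (e := 2 * e) (by omega),
      wn_of_not w k a b (j := j + 1) (d := 2 * d + 1) (e := 2 * e) (by omega),
      wn_of_not w k a b (j := j + 1) (d := 2 * d) (e := 2 * e + 1) (by omega),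
      wn_of_not w k a b (j := j + 1) (d := 2 * d + 1) (e := 2 * e + 1) (by omega)]
    ring

theorem wn_total {n : ℕ} {q : ℝ} {E : Set ℂ} {w : ℕ → ℤ → ℤ → ℝ} (h : FM n q E w) {k : ℕ}
    {a b : ℤ} (hpos : 0 < w k a b) (j : ℕ) (hj : k + j ≤ n) :
    ∑ d ∈ Finset.range (2 ^ j), ∑ e ∈ Finset.range (2 ^ j), wn w k a b j (d : ℤ) (e : ℤ) = 1 := by
  induction j with
  | zero => simpa using wn_root w k a b hpos
  | succ j ih =>
    rw [← ih (by omega)]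
    have hp : 2 ^ (j + 1) = 2 * 2 ^ j := by ring
    rw [hp, wn_sum_range_two]
    refine Finset.sum_congr rfl fun d _ => ?_
    rw [wn_sum_range_two, wn_sum_range_two, ← Finset.sum_add_distrib]
    refine Finset.sum_congr rfl fun e _ => ?_
    rw [wn_add h (by omega) (d : ℤ) (e : ℤ)]
    push_cast
    ring

theorem wn_MT {n : ℕ} {q q1 : ℝ} {E : Set ℂ} {w : ℕ → ℤ → ℤ → ℝ} (h : FM n q E w) {k : ℕ}
    (hk : k ≤ n) {a b : ℤ} (hpos : 0 < w k a b) (hreg : Reg q1 n w k a b) (hq1 : 0 ≤ q1) {J : ℕ}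
    (hJ : k + J ≤ n) : MT 0 J (4 * q1) (wn w k a b) where
  nonneg j d e _ hj := by
    by_cases hc : 0 ≤ d ∧ d < 2 ^ j ∧ 0 ≤ e ∧ e < 2 ^ j
    · rw [wn_of_mem w k a b hc]
      exact div_nonneg (h.nonneg _ _ _ (by omega)) hpos.le
    · rw [wn_of_not w k a b hc]
  le j d e _ hj := by
    rw [show 4 * q1 / 4 = q1 by ring]
    by_cases hc : 0 ≤ d ∧ d < 2 ^ j ∧ 0 ≤ e ∧ e < 2 ^ j
    · rw [wn_of_mem w k a b hc, div_le_iff₀ hpos]
      obtain ⟨h1, h2, h3, h4⟩ := hc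
      have hdiv : ∀ t s : ℤ, 0 ≤ s → s < 2 ^ j → (2 ^ j * t + s) / 2 ^ (k + j - k) = t := by
        intro t s hs0 hs1
        rw [show k + j - k = j by omega, Int.add_comm, Int.add_mul_ediv_left _ _ (by positivity),
          Int.ediv_eq_zero_of_lt hs0 hs1, zero_add]
      have := hreg (k + j) (2 ^ j * a + d) (2 ^ j * b + e) (by omega) (by omega)
        (hdiv a d h1 h2) (hdiv b e h3 h4)
      rw [show k + j - k = j by omega] at this
      linarith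
    · rw [wn_of_not w k a b hc]
      positivity
  add j d e _ hj := wn_add h (by omega) d e
  supp j d e _ hj hne := by
    by_contra hc
    have hc' : ¬ (0 ≤ d ∧ d < 2 ^ j ∧ 0 ≤ e ∧ e < 2 ^ j) := fun h' => hc h'
    exact hne (wn_of_not w k a b hc')
  total j _ hj := (wn_total h hpos j (by omega)).le

/-- A point of positive density is close (after scaling) to a point of `E`. -/
theorem wn_close {n : ℕ} {q : ℝ} {E : Set ℂ} {w : ℕ → ℤ → ℤ → ℝ} (h : FM n q E w) {k : ℕ}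
    {a b : ℤ} {j : ℕ} (hj : k + j ≤ n) (x : ℂ) (hx : 0 < dens (wn w k a b) j x) :
    ∃ p ∈ E, ‖p - ((⟨a, b⟩ : ℂ) + x) / 2 ^ k‖ ≤ 2 * (1 / 2 : ℝ) ^ (k + j) := by
  unfold dens at hx
  set d : ℤ := ⌊(2 : ℝ) ^ j * x.re⌋ with hd
  set e : ℤ := ⌊(2 : ℝ) ^ j * x.im⌋ with he
  have hc : 0 ≤ d ∧ d < 2 ^ j ∧ 0 ≤ e ∧ e < 2 ^ j := by
    by_contra hc
    rw [wn_of_not w k a b hc, mul_zero] at hx
    exact lt_irrefl _ hx
  rw [wn_of_mem w k a b hc] at hx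
  have hne : w (k + j) (2 ^ j * a + d) (2 ^ j * b + e) ≠ 0 := by
    intro h0
    rw [h0, zero_div, mul_zero] at hx
    exact lt_irrefl _ hx
  obtain ⟨p, hp, hpE⟩ := h.supp (k + j) _ _ hj hne
  refine ⟨p, hpE, (sq_dist hp ?_).le⟩
  have hcast : (2 : ℂ) ^ k = (((2 : ℝ) ^ k : ℝ) : ℂ) := by push_cast; rfl
  have h2k : (2 : ℝ) ^ k ≠ 0 := by positivity
  have hre : ((((⟨a, b⟩ : ℂ) + x) / 2 ^ k)).re = (a + x.re) / 2 ^ k := by
    rw [hcast, Complex.div_ofReal_re]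
    simp
  have him : ((((⟨a, b⟩ : ℂ) + x) / 2 ^ k)).im = (b + x.im) / 2 ^ k := by
    rw [hcast, Complex.div_ofReal_im]
    simp
  have hfl : ∀ (t : ℤ) (y : ℝ), ⌊(2 : ℝ) ^ (k + j) * (((t : ℝ) + y) / 2 ^ k)⌋ =
      2 ^ j * t + ⌊(2 : ℝ) ^ j * y⌋ := by
    intro t y
    have e1 : (2 : ℝ) ^ (k + j) * (((t : ℝ) + y) / 2 ^ k) =
        ((2 ^ j * t : ℤ) : ℝ) + 2 ^ j * y := by
      rw [pow_add]
      push_cast
      field_simp
    rw [e1, Int.floor_intCast_add]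
  refine ⟨?_, ?_⟩
  · rw [hre, hfl]
  · rw [him, hfl]

end PinR
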