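import Pool.Agent.PinR.Core
import Pool.Agent.PinR.Norm
import Pool.Agent.PinR.Nest
import Pool.Agent.PinR.Frost

set_option autoImplicit false

/-!
PIN-Final (helper73): assembly.
-/

namespace PinR

open MeasureTheory Filter Topology

/-- the limit argument -/
theorem limit_point (E : Set ℂ) (hE : IsCompact E) (r C c0 : ℝ) (hc0 : 0 < c0)
    (H : ∀ n : ℕ, ∃ p ∈ E, ∃ p' ∈ E, ∃ p'' ∈ E,
      |‖p'' - p‖ - r * ‖p' - p‖| ≤ C * (1 / 2 : ℝ) ^ n ∧ c0 - C * (1 / 2 : ℝ) ^ n ≤ ‖p' - p‖) :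
    ∃ x ∈ E, ∃ y ∈ E, ∃ z ∈ E, x ≠ y ∧ ‖z - x‖ = r * ‖y - x‖ := by
  choose p hp p' hp' p'' hp'' h1 h2 using H
  have hK : IsCompact (E ×ˢ E ×ˢ E) := hE.prod (hE.prod hE)
  obtain ⟨⟨x, y, z⟩, hmem, φ, hφ, hlim⟩ := hK.tendsto_subseq
    (x := fun n => (p n, p' n, p'' n)) (fun n => ⟨hp n, hp' n, hp'' n⟩)
  have hx : Tendsto (fun n => p (φ n)) atTop (𝓝 x) :=
    (continuous_fst.tendsto _).comp hlim
  have hy : Tendsto (fun n => p' (φ n)) atTop (𝓝 y) :=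
    ((continuous_fst.comp continuous_snd).tendsto _).comp hlim
  have hz : Tendsto (fun n => p'' (φ n)) atTop (𝓝 z) :=
    ((continuous_snd.comp continuous_snd).tendsto _).comp hlim
  have hgeo : Tendsto (fun n : ℕ => C * (1 / 2 : ℝ) ^ (φ n)) atTop (𝓝 0) := by
    have : Tendsto (fun n : ℕ => C * (1 / 2 : ℝ) ^ n) atTop (𝓝 (C * 0)) :=
      (tendsto_pow_atTop_nhds_zero_of_lt_one (by norm_num) (by norm_num)).const_mul C
    rw [mul_zero] at this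
    exact this.comp hφ.tendsto_atTop
  have hA : Tendsto (fun n => |‖p'' (φ n) - p (φ n)‖ - r * ‖p' (φ n) - p (φ n)‖|) atTop
      (𝓝 |‖z - x‖ - r * ‖y - x‖|) :=
    (((hz.sub hx).norm).sub (((hy.sub hx).norm).const_mul r)).abs
  have hA0 : |‖z - x‖ - r * ‖y - x‖| ≤ 0 :=
    le_of_tendsto_of_tendsto' hA hgeo (fun n => h1 (φ n))
  have hB : c0 ≤ ‖y - x‖ := by
    have t1 : Tendsto (fun n => c0 - C * (1 / 2 : ℝ) ^ (φ n)) atTop (𝓝 (c0 - 0)) :=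
      tendsto_const_nhds.sub hgeo
    rw [sub_zero] at t1
    exact le_of_tendsto_of_tendsto' t1 ((hy.sub hx).norm) (fun n => h2 (φ n))
  refine ⟨x, hmem.1, y, hmem.2.1, z, hmem.2.2, ?_, ?_⟩
  · intro h
    rw [h, sub_self, norm_zero] at hB
    linarith
  · have := abs_nonpos_iff.mp hA0
    linarith

theorem main_ge (β : ℝ) (K0 : ℕ) (hβ : 1 < β)
    (hcore : ∀ (κ ρ : ℝ) (x0 : ℂ), Par κ ρ x0 →
      ∀ n J : ℕ, K0 ≤ n → 2 * n ≤ J → ∀ w w' : ℕ → ℤ → ℤ → ℝ, MT 0 J β w → w 0 0 0 = 1 →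
      MT 0 J β w' → w' 0 0 0 = 1 →
      ∃ x y z : ℂ, 1 / 8 ≤ ‖y - x‖ ∧ ‖z - (x0 + (κ : ℂ) * x)‖ = ρ * ‖y - x‖ ∧
        0 < dens w n x ∧ 0 < dens w n y ∧ 0 < dens w' (2 * n) z)
    (q s : ℝ) (hq : 1 / 4 ≤ q) (hq1 : q < β / 4) (hq2 : 4 * q ^ 2 < β / 4) (hs : 0 < s)
    (hqs : (2 : ℝ) ^ (-s) = q) (E : Set ℂ) (hE : IsCompact E)
    (hH : Measure.hausdorffMeasure s E ≠ 0) (r : ℝ) (hr : 1 ≤ r) :
    ∃ x ∈ E, ∃ y ∈ E, ∃ z ∈ E, x ≠ y ∧ ‖z - x‖ = r * ‖y - x‖ := by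
  -- a unit square carrying positive Hausdorff measure
  obtain ⟨a0, b0, hab⟩ : ∃ a0 b0 : ℤ, Measure.hausdorffMeasure s (E ∩ sq 0 a0 b0) ≠ 0 := by
    by_contra hcon
    push Not at hcon
    apply hH
    have e : E = ⋃ p : ℤ × ℤ, E ∩ sq 0 p.1 p.2 := by
      rw [← Set.inter_iUnion, iUnion_sq, Set.inter_univ]
    rw [e]
    exact measure_iUnion_null (fun p => hcon p.1 p.2)
  obtain ⟨c, hc, hfr⟩ := finite_frostman s hs (E ∩ sq 0 a0 b0) a0 b0 Set.inter_subset_right hab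
  rw [hqs] at hfr
  obtain ⟨m, hm1, hm2⟩ := exists_nat_pow_near hr (show (1 : ℝ) < 2 by norm_num)
  have h2m : (0 : ℝ) < 2 ^ m := by positivity
  set ρ : ℝ := r / 2 ^ m with hρdef
  have hρ1 : 1 ≤ ρ := by rw [hρdef, le_div_iff₀ h2m]; linarith
  have hρ2 : ρ ≤ 2 := by
    rw [hρdef, div_le_iff₀ h2m]
    rw [pow_succ] at hm2
    linarith
  have hrρ : r = ρ * 2 ^ m := by rw [hρdef]; field_simp
  obtain ⟨L, hL⟩ := nest q (β / 4) c hq hq1 hq2 hc m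
  have hc0 : (0 : ℝ) < 1 / 8 * (1 / 2 : ℝ) ^ L := by positivity
  apply limit_point E hE r (4 + 4 * r) (1 / 8 * (1 / 2 : ℝ) ^ L) hc0
  intro n0
  set n : ℕ := n0 + K0 with hn
  obtain ⟨w, hw, hwc⟩ := hfr (L + 2 * n)
  obtain ⟨k, a, b, a', b', hkm, ha', hb', hpos, hpos', hreg, hreg'⟩ :=
    hL (L + 2 * n) _ w a0 b0 (by omega) hw hwc
  have hβ4 : (0 : ℝ) ≤ β / 4 := by linarith
  have e4 : 4 * (β / 4) = β := by ring
  have mt : MT 0 (2 * n) β (wn w k a b) := by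
    have := wn_MT hw (k := k) (by omega) hpos hreg hβ4 (J := 2 * n) (by omega)
    rwa [e4] at this
  have mt' : MT 0 (2 * n) β (wn w (k + m) a' b') := by
    have := wn_MT hw (k := k + m) (by omega) hpos' hreg' hβ4 (J := 2 * n) (by omega)
    rwa [e4] at this
  -- the parameters
  set κ : ℝ := (1 / 2 : ℝ) ^ m with hκ
  have hκ0 : 0 < κ := by positivity
  have hκ1 : κ ≤ 1 := pow_le_one₀ (by norm_num) (by norm_num)
  have hκ2 : κ * 2 ^ m = 1 := by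
    rw [hκ, ← mul_pow]; norm_num
  set x0 : ℂ := ⟨(a' : ℝ) * κ - a, (b' : ℝ) * κ - b⟩ with hx0
  have hpz : (0 : ℤ) < 2 ^ m := by positivity
  have coord : ∀ t' t : ℤ, t' / 2 ^ m = t → 0 ≤ (t' : ℝ) * κ - t ∧ (t' : ℝ) * κ - t + κ ≤ 1 := by
    intro t' t ht
    have h1 : t * 2 ^ m ≤ t' := by
      rw [← ht]; exact Int.ediv_mul_le t' hpz.ne'
    have h2 : t' + 1 ≤ (t + 1) * 2 ^ m := by
      rw [← ht]
      have := Int.lt_ediv_add_one_mul_self t' hpz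
      omega
    have h1' : (t : ℝ) * 2 ^ m ≤ t' := by exact_mod_cast h1
    have h2' : (t' : ℝ) + 1 ≤ (t + 1) * 2 ^ m := by exact_mod_cast h2
    have g1 := mul_le_mul_of_nonneg_right h1' hκ0.le
    have g2 := mul_le_mul_of_nonneg_right h2' hκ0.le
    have g3 : (t : ℝ) * 2 ^ m * κ = t := by
      rw [mul_assoc, mul_comm ((2 : ℝ) ^ m) κ, hκ2, mul_one]
    have g4 : ((t : ℝ) + 1) * 2 ^ m * κ = t + 1 := by
      rw [mul_assoc, mul_comm ((2 : ℝ) ^ m) κ, hκ2, mul_one]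
    rw [g3] at g1
    rw [g4] at g2
    constructor <;> linarith
  have hP : Par κ ρ x0 :=
    ⟨hκ0.le, hκ1, hρ1, hρ2, (coord a' a ha').1, (coord a' a ha').2, (coord b' b hb').1,
      (coord b' b hb').2⟩
  obtain ⟨x, y, z, hsep, hrat, dx, dy, dz⟩ := hcore κ ρ x0 hP n (2 * n) (by omega) le_rfl
    (wn w (k + m) a' b') (wn w k a b) mt' (wn_root w (k + m) a' b' hpos') mt
    (wn_root w k a b hpos)
  obtain ⟨p, hp, cp⟩ := wn_close hw (k := k + m) (j := n) (by omega) x dx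
  obtain ⟨p', hp', cp'⟩ := wn_close hw (k := k + m) (j := n) (by omega) y dy
  obtain ⟨p'', hp'', cp''⟩ := wn_close hw (k := k) (j := 2 * n) (by omega) z dz
  set X : ℂ := ((⟨a', b'⟩ : ℂ) + x) / 2 ^ (k + m) with hX
  set Y : ℂ := ((⟨a', b'⟩ : ℂ) + y) / 2 ^ (k + m) with hY
  set Z : ℂ := ((⟨a, b⟩ : ℂ) + z) / 2 ^ k with hZ
  have n2 : ∀ j : ℕ, ‖(2 : ℂ) ^ j‖ = 2 ^ j := by
    intro j
    rw [norm_pow]
    norm_num
  have hYX : ‖Y - X‖ = ‖y - x‖ / 2 ^ (k + m) := by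
    have e : Y - X = (y - x) / 2 ^ (k + m) := by rw [hX, hY]; ring
    rw [e, norm_div, n2]
  have hc2 : (κ : ℂ) * 2 ^ m = 1 := by
    have := congrArg (fun t : ℝ => (t : ℂ)) hκ2
    push_cast at this
    exact this
  have hx0e : x0 = (κ : ℂ) * (⟨a', b'⟩ : ℂ) - (⟨a, b⟩ : ℂ) := by
    rw [hx0]
    apply Complex.ext
    · simp [mul_comm]
    · simp [mul_comm]
  have h2k : (2 : ℂ) ^ k ≠ 0 := pow_ne_zero _ (by norm_num)
  have h2mm : (2 : ℂ) ^ m ≠ 0 := pow_ne_zero _ (by norm_num)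
  have hZX : Z - X = (z - (x0 + (κ : ℂ) * x)) / 2 ^ k := by
    have hκe : (κ : ℂ) = 1 / 2 ^ m := by
      field_simp
      exact hc2
    rw [hX, hZ, hx0e, hκe, pow_add]
    field_simp
    ring
  have hZXn : ‖Z - X‖ = r * ‖Y - X‖ := by
    rw [hZX, norm_div, hrat, n2, hYX, hrρ, pow_add]
    have h2k' : (2 : ℝ) ^ k ≠ 0 := by positivity
    field_simp
  -- closeness
  have hle : ∀ j : ℕ, n0 ≤ j → 2 * (1 / 2 : ℝ) ^ j ≤ 2 * (1 / 2 : ℝ) ^ n0 := by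
    intro j hj
    have := pow_le_pow_of_le_one (show (0 : ℝ) ≤ 1 / 2 by norm_num) (by norm_num) hj
    linarith
  have cp1 := le_trans cp (hle _ (by omega))
  have cp2 := le_trans cp' (hle _ (by omega))
  have cp3 := le_trans cp'' (hle _ (by omega))
  refine ⟨p, hp.1, p', hp'.1, p'', hp''.1, ?_, ?_⟩
  · have e1 : |‖p'' - p‖ - ‖Z - X‖| ≤ ‖p'' - Z‖ + ‖p - X‖ := by
      refine le_trans (abs_norm_sub_norm_le _ _) ?_
      have : p'' - p - (Z - X) = (p'' - Z) - (p - X) := by ring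
      rw [this]
      exact norm_sub_le _ _
    have e2 : |‖p' - p‖ - ‖Y - X‖| ≤ ‖p' - Y‖ + ‖p - X‖ := by
      refine le_trans (abs_norm_sub_norm_le _ _) ?_
      have : p' - p - (Y - X) = (p' - Y) - (p - X) := by ring
      rw [this]
      exact norm_sub_le _ _
    have e3 : ‖p'' - p‖ - r * ‖p' - p‖ = (‖p'' - p‖ - ‖Z - X‖) - r * (‖p' - p‖ - ‖Y - X‖) := by
      rw [hZXn]; ring
    rw [e3]
    refine le_trans (abs_sub _ _) ?_
    rw [abs_mul, abs_of_nonneg (by linarith : (0 : ℝ) ≤ r)]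
    have e4' : r * |‖p' - p‖ - ‖Y - X‖| ≤ r * (‖p' - Y‖ + ‖p - X‖) :=
      mul_le_mul_of_nonneg_left e2 (by linarith)
    have e5 : r * (‖p' - Y‖ + ‖p - X‖) ≤ r * (4 * (1 / 2 : ℝ) ^ n0) :=
      mul_le_mul_of_nonneg_left (by linarith) (by linarith)
    linarith
  · have e2 : |‖p' - p‖ - ‖Y - X‖| ≤ ‖p' - Y‖ + ‖p - X‖ := by
      refine le_trans (abs_norm_sub_norm_le _ _) ?_
      have : p' - p - (Y - X) = (p' - Y) - (p - X) := by ring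
      rw [this]
      exact norm_sub_le _ _
    have e6 := (abs_le.mp e2).1
    have e7 : 1 / 8 * (1 / 2 : ℝ) ^ L ≤ ‖Y - X‖ := by
      rw [hYX]
      have h1 : (1 / 2 : ℝ) ^ L ≤ (1 / 2 : ℝ) ^ (k + m) :=
        pow_le_pow_of_le_one (by norm_num) (by norm_num) hkm
      have h2 : ‖y - x‖ / 2 ^ (k + m) = ‖y - x‖ * (1 / 2 : ℝ) ^ (k + m) := by
        rw [one_div, inv_pow, div_eq_mul_inv]
      rw [h2]
      exact mul_le_mul hsep h1 (by positivity) (norm_nonneg _)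
    have e8 : 0 ≤ r * (1 / 2 : ℝ) ^ n0 := by positivity
    linarith

theorem main_C : ∃ s0 : ℝ, 0 < s0 ∧ s0 < 2 ∧ ∀ E : Set ℂ, IsCompact E →
    ENNReal.ofReal s0 < dimH E → ∀ r : ℝ, 0 < r →
    ∃ x ∈ E, ∃ y ∈ E, ∃ z ∈ E, x ≠ y ∧ ‖z - x‖ = r * ‖y - x‖ := by
  obtain ⟨β, K0, hβ, hcore⟩ := core
  -- choose `q = γ / 4`, `1 < γ`, `γ ^ 2 < β`, `γ < 2`
  obtain ⟨γ, hγ1, hγ2, hγ3⟩ : ∃ γ : ℝ, 1 < γ ∧ γ ^ 2 < β ∧ γ < 2 := by
    have hc2 : Tendsto (fun t : ℝ => t ^ 2) (𝓝[>] 1) (𝓝 1) := by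
      have : Tendsto (fun t : ℝ => t ^ 2) (𝓝 1) (𝓝 (1 ^ 2)) := (continuous_pow 2).tendsto 1
      rw [one_pow] at this
      exact this.mono_left nhdsWithin_le_nhds
    have hc1 : Tendsto (fun t : ℝ => t) (𝓝[>] 1) (𝓝 1) := tendsto_id.mono_left nhdsWithin_le_nhds
    have e1 := hc2.eventually (gt_mem_nhds hβ)
    have e2 := hc1.eventually (gt_mem_nhds (show (1 : ℝ) < 2 by norm_num))
    have e3 : ∀ᶠ t : ℝ in 𝓝[>] 1, 1 < t := eventually_mem_nhdsWithin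
    obtain ⟨t, h1, h2, h3⟩ := (e1.and (e2.and e3)).exists
    exact ⟨t, h3, h1, h2⟩
  have hlog : 0 < Real.logb 2 γ := Real.logb_pos (by norm_num) hγ1
  have hlog1 : Real.logb 2 γ < 1 := by
    have := Real.logb_lt_logb (b := 2) (by norm_num) (by linarith : 0 < γ) hγ3
    rwa [Real.logb_self_eq_one (by norm_num)] at this
  set s : ℝ := 2 - Real.logb 2 γ with hs
  have hs0 : 0 < s := by linarith
  have hqs : (2 : ℝ) ^ (-s) = γ / 4 := by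
    have e : -s = Real.logb 2 γ - 2 := by rw [hs]; ring
    rw [e, Real.rpow_sub (by norm_num), Real.rpow_logb (by norm_num) (by norm_num) (by linarith)]
    norm_num
  refine ⟨s, hs0, by linarith, ?_⟩
  intro E hE hdim
  have hH : Measure.hausdorffMeasure s E ≠ 0 := by
    have h1 : ((s.toNNReal : NNReal) : ENNReal) < dimH E := hdim
    have h2 := hausdorffMeasure_of_lt_dimH h1
    rw [Real.coe_toNNReal s hs0.le] at h2
    rw [h2]
    exact ENNReal.top_ne_zero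
  have hge : ∀ r : ℝ, 1 ≤ r → ∃ x ∈ E, ∃ y ∈ E, ∃ z ∈ E, x ≠ y ∧ ‖z - x‖ = r * ‖y - x‖ := by
    intro r hr
    refine main_ge β K0 hβ hcore (γ / 4) s (by linarith) ?_ ?_ hs0 hqs E hE hH r hr
    · have : γ < β := by nlinarith
      linarith
    · have : 4 * (γ / 4) ^ 2 = γ ^ 2 / 4 := by ring
      rw [this]
      linarith
  intro r hr
  rcases le_or_gt 1 r with h | h
  · exact hge r h
  · obtain ⟨x, hx, y, hy, z, hz, hxy, heq⟩ := hge (1 / r) (by rw [le_div_iff₀ hr]; linarith)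
    refine ⟨x, hx, z, hz, y, hy, ?_, ?_⟩
    · intro hxz
      rw [hxz, sub_self, norm_zero] at heq
      have h1 : ‖y - z‖ = 0 := by
        have : 1 / r ≠ 0 := by positivity
        rcases mul_eq_zero.mp heq.symm with h' | h'
        · exact absurd h' this
        · exact h'
      rw [norm_eq_zero, sub_eq_zero] at h1
      exact hxy (by rw [hxz, h1])
    · rw [heq]
      field_simp

theorem main_E : ∃ s0 : ℝ, 0 < s0 ∧ s0 < 2 ∧ ∀ E : Set (EuclideanSpace ℝ (Fin 2)), IsCompact E →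
    ENNReal.ofReal s0 < dimH E → ∀ r : ℝ, 0 < r →
    ∃ x ∈ E, ∃ y ∈ E, ∃ z ∈ E, x ≠ y ∧ dist x z = r * dist x y := by
  obtain ⟨s0, h0, h2, H⟩ := main_C
  refine ⟨s0, h0, h2, ?_⟩
  intro E hE hdim r hr
  set e : EuclideanSpace ℝ (Fin 2) ≃ₗᵢ[ℝ] ℂ := Complex.orthonormalBasisOneI.repr.symm with he
  have hdim' : ENNReal.ofReal s0 < dimH (e '' E) := by
    rw [e.isometry.dimH_image]
    exact hdim
  obtain ⟨x, ⟨x', hx', rfl⟩, y, ⟨y', hy', rfl⟩, z, ⟨z', hz', rfl⟩, hxy, heq⟩ :=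
    H (e '' E) (hE.image e.continuous) hdim' r hr
  refine ⟨x', hx', y', hy', z', hz', fun h => hxy (by rw [h]), ?_⟩
  rw [← dist_eq_norm, ← dist_eq_norm, e.dist_map, e.dist_map] at heq
  rw [dist_comm x' z', dist_comm x' y']
  exact heq

end PinR
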