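import Pool.Agent.PinR.TT
import Pool.Agent.PinR.Lin
import Pool.Agent.PinR.Rot

set_option autoImplicit false

/-!
PIN-SlotG.  Substitute `v → conj (u_i) v` (`subst_fst`, norm one): `Lam u_i f F h =
∫ f x F (x + conj u_i v) h (x0 + κ x + ρ v)`.  Sum over `i`, take the absolute value inside:
`f x ≠ 0` needs `x ∈ unit square`, and `F (x + conj u_i v) ≠ 0` needs `‖v‖ < 2`, so the whole is
`≤ Bf Bh ∫ 1_D 1_{unit square} |1/N ∑ F (x + conj u_i v)|`: `tt_L1` with `c = 1`, `conj_rot_sep`.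
(Integrability of the summands: `lam_integrable` composed with the measure preserving map, or
directly.)
-/

namespace PinR

open MeasureTheory

private theorem SlotG_int (M : ℝ) (Φ : ℂ × ℂ → ℝ) (hΦ : Measurable Φ) (hb : ∀ p, |Φ p| ≤ M)
    (hs : ∀ p : ℂ × ℂ, Φ p ≠ 0 → p.1 ∈ Metric.ball (0 : ℂ) 5 ∧ p.2 ∈ sq 0 0 0) :
    Integrable Φ := by
  have hfin : (volume : Measure (ℂ × ℂ)) (Metric.ball (0 : ℂ) 5 ×ˢ sq 0 0 0) ≠ ⊤ := by
    rw [Measure.volume_eq_prod, Measure.prod_prod, volume_sq]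
    exact ENNReal.mul_ne_top measure_ball_lt_top.ne ENNReal.ofReal_ne_top
  have hsub : Function.support Φ ⊆ Metric.ball (0 : ℂ) 5 ×ˢ sq 0 0 0 := by
    intro p hp
    exact ⟨(hs p hp).1, (hs p hp).2⟩
  rw [← integrableOn_iff_integrable_of_support_subset hsub]
  exact Measure.integrableOn_of_bounded hfin hΦ.aestronglyMeasurable
    (Filter.Eventually.of_forall fun p => by rw [Real.norm_eq_abs]; exact hb p)

private theorem SlotG_norm {z : ℂ} (hz : z ∈ sq 0 0 0) : ‖z‖ < 2 := by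
  rw [mem_unit_iff] at hz
  have h1 := Complex.norm_le_abs_re_add_abs_im z
  rw [abs_of_nonneg hz.1, abs_of_nonneg hz.2.2.1] at h1
  linarith [hz.2.1, hz.2.2.2]

private theorem SlotG_supp {x v l : ℂ} (hl : ‖l‖ = 1) (hx : x ∈ sq 0 0 0) (hv : x + l * v ∈ sq 0 0 0) :
    v ∈ Metric.ball (0 : ℂ) 5 := by
  have h1 := SlotG_norm hx
  have h2 := SlotG_norm hv
  have h3 : l * v = (x + l * v) - x := by ring
  have h4 : ‖l * v‖ ≤ ‖x + l * v‖ + ‖x‖ := by
    conv_lhs => rw [h3]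
    exact norm_sub_le _ _
  rw [norm_mul, hl, one_mul] at h4
  rw [mem_ball_zero_iff]
  linarith

private theorem SlotG_lam (N i : ℕ) (hN : 1 ≤ N) (hi : i < N) (κ ρ : ℝ) (x0 : ℂ) (f F h : ℂ → ℝ) :
    Lam κ ρ x0 (rot N i) f F h = ∫ p : ℂ × ℂ, f p.2 * F (p.2 + (starRingEnd ℂ) (rot N i) * p.1) *
      h (x0 + (κ : ℂ) * p.2 + (ρ : ℂ) * p.1) := by
  have hu := norm_rot hN hi
  have hc : ‖(starRingEnd ℂ) (rot N i)‖ = 1 := by rw [Complex.norm_conj, hu]
  have hne : (starRingEnd ℂ) (rot N i) ≠ 0 := by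
    intro h0
    rw [h0, norm_zero] at hc
    exact zero_ne_one hc
  have h1 := subst_fst (fun p : ℂ × ℂ => f p.2 * F (p.2 + p.1) *
    h (x0 + (κ : ℂ) * p.2 + (ρ : ℂ) * (rot N i) * p.1)) ((starRingEnd ℂ) (rot N i)) hne
  rw [hc] at h1
  have h2 : rot N i * (starRingEnd ℂ) (rot N i) = 1 := by
    rw [Complex.mul_conj, Complex.normSq_eq_norm_sq, hu]
    norm_num
  unfold Lam
  have h3 : (∫ p : ℂ × ℂ, f p.2 * F (p.2 + p.1) * h (x0 + (κ : ℂ) * p.2 + (ρ : ℂ) * (rot N i) * p.1)) =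
      ∫ p : ℂ × ℂ, f p.2 * F (p.2 + (starRingEnd ℂ) (rot N i) * p.1) *
        h (x0 + (κ : ℂ) * p.2 + (ρ : ℂ) * (rot N i) * ((starRingEnd ℂ) (rot N i) * p.1)) := by
    rw [h1]
    norm_num
  rw [h3]
  congr 1
  funext p
  have h4 : (ρ : ℂ) * (rot N i) * ((starRingEnd ℂ) (rot N i) * p.1) = (ρ : ℂ) * p.1 := by
    calc (ρ : ℂ) * (rot N i) * ((starRingEnd ℂ) (rot N i) * p.1) =
        (ρ : ℂ) * (rot N i * (starRingEnd ℂ) (rot N i)) * p.1 := by ring
      _ = (ρ : ℂ) * p.1 := by rw [h2, mul_one]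
  rw [h4]

theorem slotG (N : ℕ) (hN : 1 ≤ N) (κ ρ : ℝ) (x0 : ℂ) (hP : Par κ ρ x0) (B δ Bf Bh : ℝ)
    (hδ : 0 < δ) (hδ1 : δ ≤ 1) (hNδ : 1 ≤ (N : ℝ) * δ) (f F h : ℂ → ℝ) (hf : Adm Bf f)
    (hF : Adm B F) (hD : DB δ B F) (hh : Adm Bh h) :
    |(1 / (N : ℝ)) * ∑ i ∈ Finset.range N, Lam κ ρ x0 (rot N i) f F h| ≤
      400 * Bf * Bh * B * Real.sqrt (Real.sqrt δ) := by
  have hN0 : (0 : ℝ) < N := by exact_mod_cast hN
  have hBf := hf.nonneg_B
  have hBh := hh.nonneg_B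
  have hB := hF.nonneg_B
  -- the functions
  have hmH : ∀ i : ℕ, Measurable (fun p : ℂ × ℂ => f p.2 * F (p.2 + (starRingEnd ℂ) (rot N i) * p.1) *
      h (x0 + (κ : ℂ) * p.2 + (ρ : ℂ) * p.1)) := by
    intro i
    refine ((hf.1.comp measurable_snd).mul (hF.1.comp ?_)).mul (hh.1.comp ?_)
    · exact measurable_snd.add (measurable_fst.const_mul _)
    · exact ((measurable_snd.const_mul _).const_add _).add (measurable_fst.const_mul _)
  have hint : ∀ i ∈ Finset.range N, Integrable (fun p : ℂ × ℂ =>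
      f p.2 * F (p.2 + (starRingEnd ℂ) (rot N i) * p.1) * h (x0 + (κ : ℂ) * p.2 + (ρ : ℂ) * p.1)) := by
    intro i hi
    have hi' := Finset.mem_range.1 hi
    refine SlotG_int (Bf * B * Bh) _ (hmH i) ?_ ?_
    · intro p
      rw [abs_mul, abs_mul]
      exact mul_le_mul (mul_le_mul (hf.2.1 _) (hF.2.1 _) (abs_nonneg _) hBf) (hh.2.1 _) (abs_nonneg _)
        (mul_nonneg hBf hB)
    · intro p hp
      have hp1 : p.2 ∈ sq 0 0 0 := by
        by_contra hc
        exact hp (by simp only [hf.2.2 _ hc, zero_mul])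
      have hp2 : p.2 + (starRingEnd ℂ) (rot N i) * p.1 ∈ sq 0 0 0 := by
        by_contra hc
        exact hp (by simp only [hF.2.2 _ hc, mul_zero, zero_mul])
      exact ⟨SlotG_supp (by rw [Complex.norm_conj, norm_rot hN hi']) hp1 hp2, hp1⟩
  have hsum : (1 / (N : ℝ)) * ∑ i ∈ Finset.range N, Lam κ ρ x0 (rot N i) f F h =
      ∫ p : ℂ × ℂ, (1 / (N : ℝ)) * ∑ i ∈ Finset.range N,
        f p.2 * F (p.2 + (starRingEnd ℂ) (rot N i) * p.1) * h (x0 + (κ : ℂ) * p.2 + (ρ : ℂ) * p.1) := by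
    rw [integral_const_mul, integral_finset_sum _ hint]
    congr 1
    exact Finset.sum_congr rfl fun i hi => SlotG_lam N i hN (Finset.mem_range.1 hi) κ ρ x0 f F h
  rw [hsum]
  have htt := tt_L1 N hN B δ hδ hδ1 hNδ F hF hD (fun i => (starRingEnd ℂ) (rot N i)) (fun _ => 1)
    (fun _ => ⟨zero_le_one, le_refl _⟩) (fun i j hi hj => conj_rot_sep hN hi hj)
  -- the dominating function
  have hbint : Integrable (fun p : ℂ × ℂ => Bf * Bh * ((Metric.ball (0 : ℂ) 5).indicator (fun _ => (1 : ℝ)) p.1 *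
      (sq 0 0 0).indicator (fun _ => (1 : ℝ)) p.2 *
      |(1 / (N : ℝ)) * ∑ i ∈ Finset.range N, 1 * F (p.2 + (starRingEnd ℂ) (rot N i) * p.1)|)) := by
    refine Integrable.const_mul ?_ _
    refine SlotG_int B _ ?_ ?_ ?_
    · refine ((((measurable_const.indicator measurableSet_ball)).comp measurable_fst).mul
        ((measurable_const.indicator (measurableSet_sq 0 0 0)).comp measurable_snd)).mul ?_
      refine (measurable_const.mul (Finset.measurable_fun_sum _ fun i _ => ?_)).abs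
      exact (measurable_const.mul (hF.1.comp (measurable_snd.add (measurable_fst.const_mul _))))
    · intro p
      have h1 : |(Metric.ball (0 : ℂ) 5).indicator (fun _ => (1 : ℝ)) p.1| ≤ 1 := by
        by_cases hc : p.1 ∈ Metric.ball (0 : ℂ) 5
        · rw [Set.indicator_of_mem hc]; norm_num
        · rw [Set.indicator_of_notMem hc]; norm_num
      have h2 : |(sq 0 0 0).indicator (fun _ => (1 : ℝ)) p.2| ≤ 1 := by
        by_cases hc : p.2 ∈ sq 0 0 0
        · rw [Set.indicator_of_mem hc]; norm_num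
        · rw [Set.indicator_of_notMem hc]; norm_num
      have h3 : |(1 / (N : ℝ)) * ∑ i ∈ Finset.range N, 1 * F (p.2 + (starRingEnd ℂ) (rot N i) * p.1)| ≤ B := by
        rw [abs_mul, abs_of_pos (by positivity : (0 : ℝ) < 1 / N)]
        have h4 : |∑ i ∈ Finset.range N, 1 * F (p.2 + (starRingEnd ℂ) (rot N i) * p.1)| ≤ N * B := by
          refine le_trans (Finset.abs_sum_le_sum_abs _ _) ?_
          refine le_trans (Finset.sum_le_sum (g := fun _ => B) fun i _ => ?_) ?_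
          · rw [one_mul]; exact hF.2.1 _
          · rw [Finset.sum_const, Finset.card_range, nsmul_eq_mul]
        calc 1 / (N : ℝ) * |∑ i ∈ Finset.range N, 1 * F (p.2 + (starRingEnd ℂ) (rot N i) * p.1)|
            ≤ 1 / (N : ℝ) * (N * B) := mul_le_mul_of_nonneg_left h4 (by positivity)
          _ = B := by field_simp
      rw [abs_mul, abs_mul, abs_abs]
      calc |(Metric.ball (0 : ℂ) 5).indicator (fun _ => (1 : ℝ)) p.1| * |(sq 0 0 0).indicator (fun _ => (1 : ℝ)) p.2| *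
            |(1 / (N : ℝ)) * ∑ i ∈ Finset.range N, 1 * F (p.2 + (starRingEnd ℂ) (rot N i) * p.1)|
          ≤ 1 * 1 * B := mul_le_mul (mul_le_mul h1 h2 (abs_nonneg _) zero_le_one) h3 (abs_nonneg _) (by norm_num)
        _ = B := by ring
    · intro p hp
      constructor
      · by_contra hc
        exact hp (by simp only [Set.indicator_of_notMem hc, zero_mul])
      · by_contra hc
        exact hp (by simp only [Set.indicator_of_notMem hc, mul_zero, zero_mul])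
  have hpt : ∀ p : ℂ × ℂ, ‖(1 / (N : ℝ)) * ∑ i ∈ Finset.range N,
        f p.2 * F (p.2 + (starRingEnd ℂ) (rot N i) * p.1) * h (x0 + (κ : ℂ) * p.2 + (ρ : ℂ) * p.1)‖ ≤
      Bf * Bh * ((Metric.ball (0 : ℂ) 5).indicator (fun _ => (1 : ℝ)) p.1 *
      (sq 0 0 0).indicator (fun _ => (1 : ℝ)) p.2 *
      |(1 / (N : ℝ)) * ∑ i ∈ Finset.range N, 1 * F (p.2 + (starRingEnd ℂ) (rot N i) * p.1)|) := by
    intro p
    have h1 : (1 / (N : ℝ)) * ∑ i ∈ Finset.range N,
        f p.2 * F (p.2 + (starRingEnd ℂ) (rot N i) * p.1) * h (x0 + (κ : ℂ) * p.2 + (ρ : ℂ) * p.1) =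
        f p.2 * h (x0 + (κ : ℂ) * p.2 + (ρ : ℂ) * p.1) *
          ((1 / (N : ℝ)) * ∑ i ∈ Finset.range N, 1 * F (p.2 + (starRingEnd ℂ) (rot N i) * p.1)) := by
      rw [Finset.mul_sum, Finset.mul_sum, Finset.mul_sum]
      refine Finset.sum_congr rfl fun i _ => ?_
      ring
    rw [h1, Real.norm_eq_abs, abs_mul, abs_mul]
    by_cases hp1 : p.2 ∈ sq 0 0 0
    · by_cases hp2 : p.1 ∈ Metric.ball (0 : ℂ) 5
      · rw [Set.indicator_of_mem hp1, Set.indicator_of_mem hp2, one_mul, one_mul]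
        refine mul_le_mul_of_nonneg_right ?_ (abs_nonneg _)
        exact mul_le_mul (hf.2.1 _) (hh.2.1 _) (abs_nonneg _) hBf
      · have h2 : ∑ i ∈ Finset.range N, 1 * F (p.2 + (starRingEnd ℂ) (rot N i) * p.1) = 0 := by
          refine Finset.sum_eq_zero fun i hi => ?_
          have h3 : p.2 + (starRingEnd ℂ) (rot N i) * p.1 ∉ sq 0 0 0 := fun hc =>
            hp2 (SlotG_supp (by rw [Complex.norm_conj, norm_rot hN (Finset.mem_range.1 hi)]) hp1 hc)
          rw [hF.2.2 _ h3, mul_zero]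
        rw [h2, mul_zero, abs_zero, mul_zero, mul_zero, mul_zero]
    · rw [hf.2.2 _ hp1, Set.indicator_of_notMem hp1, abs_zero, zero_mul, zero_mul, mul_zero, zero_mul, mul_zero]
  have hfinal := norm_integral_le_of_norm_le hbint (Filter.Eventually.of_forall hpt)
  rw [Real.norm_eq_abs] at hfinal
  refine le_trans hfinal ?_
  rw [integral_const_mul]
  refine le_trans (mul_le_mul_of_nonneg_left htt (mul_nonneg hBf hBh)) (le_of_eq ?_)
  ring

end PinR
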