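import Pool.Agent.PinR.Basic

set_option autoImplicit false

/-!
PIN-Subst: linear substitutions in `ℂ` and `ℂ × ℂ` (no integrability hypothesis: all maps are
measurable equivalences).  Multiplication by a complex number of norm one is a linear isometry
(`rotation`), so it preserves `volume`; a real factor is `Measure.integral_comp_smul`.
The maps of `ℂ × ℂ`: `MeasurePreserving.skew_product` (and `volume_eq_prod`).
-/

namespace PinR

open MeasureTheory

theorem Subst_map (l : ℂ) (hl : l ≠ 0) :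
    Measure.map (fun z : ℂ => l * z) (volume : Measure ℂ) =
      ENNReal.ofReal ((‖l‖ ^ 2)⁻¹) • (volume : Measure ℂ) := by
  have hd : LinearMap.det (Algebra.lmul ℝ ℂ l : ℂ →ₗ[ℝ] ℂ) = ‖l‖ ^ 2 := by
    rw [← Algebra.norm_apply, Algebra.norm_complex_eq, Complex.sq_norm]
    rfl
  have hp : 0 < ‖l‖ ^ 2 := by
    have := norm_pos_iff.mpr hl
    positivity
  have h1 := Measure.map_linearMap_addHaar_eq_smul_addHaar (volume : Measure ℂ)
    (f := (Algebra.lmul ℝ ℂ l : ℂ →ₗ[ℝ] ℂ)) (by rw [hd]; exact hp.ne')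
  rw [hd, abs_of_pos (inv_pos.mpr hp)] at h1
  exact h1

theorem Subst_emb (l : ℂ) (hl : l ≠ 0) : MeasurableEmbedding (fun z : ℂ => l * z) :=
  (Homeomorph.mulLeft₀ l hl).measurableEmbedding

theorem subst_mul (F : ℂ → ℝ) (y l : ℂ) (hl : l ≠ 0) :
    ∫ w, F (y + l * w) = (‖l‖ ^ 2)⁻¹ * ∫ z, F z := by
  have h1 := (Subst_emb l hl).integral_map (μ := (volume : Measure ℂ)) (fun z => F (y + z))
  rw [← h1, Subst_map l hl, integral_smul_measure, ENNReal.toReal_ofReal (by positivity),
    smul_eq_mul, integral_add_left_eq_self]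

theorem subst_ball (F : ℂ → ℝ) (y l : ℂ) (hl : l ≠ 0) (R : ℝ) :
    ∫ w in Metric.ball (0 : ℂ) R, F (y + l * w) =
      (‖l‖ ^ 2)⁻¹ * ∫ z in Metric.ball y (‖l‖ * R), F z := by
  have hp := norm_pos_iff.mpr hl
  rw [← integral_indicator Metric.isOpen_ball.measurableSet,
    ← integral_indicator Metric.isOpen_ball.measurableSet, ← subst_mul _ y l hl]
  congr 1
  ext w
  have h1 : w ∈ Metric.ball (0 : ℂ) R ↔ y + l * w ∈ Metric.ball y (‖l‖ * R) := by
    rw [Metric.mem_ball, Metric.mem_ball, dist_zero_right, dist_eq_norm, add_sub_cancel_left,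
      norm_mul, mul_lt_mul_iff_right₀ hp]
  by_cases h : w ∈ Metric.ball (0 : ℂ) R
  · rw [Set.indicator_of_mem h, Set.indicator_of_mem (h1.mp h)]
  · rw [Set.indicator_of_notMem h, Set.indicator_of_notMem (fun h' => h (h1.mpr h'))]

/-- the shear -/
def Subst_shear (a : ℂ) : ℂ × ℂ ≃ₜ ℂ × ℂ where
  toFun p := (p.1, p.2 + a * p.1)
  invFun p := (p.1, p.2 - a * p.1)
  left_inv p := by simp
  right_inv p := by simp
  continuous_toFun := by fun_prop
  continuous_invFun := by fun_prop

theorem subst_shear (G : ℂ × ℂ → ℝ) (a : ℂ) :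
    ∫ p : ℂ × ℂ, G (p.1, p.2 + a * p.1) = ∫ p : ℂ × ℂ, G p := by
  have h1 : MeasurePreserving (fun p : ℂ × ℂ => (p.1, p.2 + a * p.1))
      ((volume : Measure ℂ).prod volume) ((volume : Measure ℂ).prod volume) :=
    MeasurePreserving.skew_product (f := id) (g := fun p q => q + a * p)
      (MeasurePreserving.id volume) (by
        have : Measurable (fun x : ℂ × ℂ => x.2 + a * x.1) := by fun_prop
        exact this) (Filter.Eventually.of_forall fun p => by
        exact map_add_right_eq_self volume (a * p))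
  rw [Measure.volume_eq_prod]
  exact h1.integral_comp (Subst_shear a).measurableEmbedding G

theorem subst_fst (G : ℂ × ℂ → ℝ) (l : ℂ) (hl : l ≠ 0) :
    ∫ p : ℂ × ℂ, G (l * p.1, p.2) = (‖l‖ ^ 2)⁻¹ * ∫ p : ℂ × ℂ, G p := by
  have h0 : MeasurableEmbedding (Prod.map (fun z : ℂ => l * z) (id : ℂ → ℂ)) :=
    ((Homeomorph.mulLeft₀ l hl).prodCongr (Homeomorph.refl ℂ)).measurableEmbedding
  have h1 : Measure.map (Prod.map (fun z : ℂ => l * z) (id : ℂ → ℂ))
      ((volume : Measure ℂ).prod volume) =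
      ENNReal.ofReal ((‖l‖ ^ 2)⁻¹) • ((volume : Measure ℂ).prod volume) := by
    rw [← Measure.map_prod_map _ _ (Subst_emb l hl).measurable measurable_id, Subst_map l hl,
      Measure.map_id, Measure.prod_smul_left]
  have h2 := h0.integral_map (μ := (volume : Measure ℂ).prod volume) G
  rw [Measure.volume_eq_prod]
  have h3 : ∫ p : ℂ × ℂ, G (l * p.1, p.2) ∂((volume : Measure ℂ).prod volume) =
      ∫ p : ℂ × ℂ, G (Prod.map (fun z : ℂ => l * z) (id : ℂ → ℂ) p)
        ∂((volume : Measure ℂ).prod volume) := rfl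
  rw [h3, ← h2, h1, integral_smul_measure, ENNReal.toReal_ofReal (by positivity), smul_eq_mul]

/-- the same for a shear with a translation depending on nothing else -/
theorem subst_snd (G : ℂ × ℂ → ℝ) (l : ℂ) (hl : l ≠ 0) :
    ∫ p : ℂ × ℂ, G (p.1, l * p.2) = (‖l‖ ^ 2)⁻¹ * ∫ p : ℂ × ℂ, G p := by
  have h0 : MeasurableEmbedding (Prod.map (id : ℂ → ℂ) (fun z : ℂ => l * z)) :=
    ((Homeomorph.refl ℂ).prodCongr (Homeomorph.mulLeft₀ l hl)).measurableEmbedding
  have h1 : Measure.map (Prod.map (id : ℂ → ℂ) (fun z : ℂ => l * z))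
      ((volume : Measure ℂ).prod volume) =
      ENNReal.ofReal ((‖l‖ ^ 2)⁻¹) • ((volume : Measure ℂ).prod volume) := by
    rw [← Measure.map_prod_map _ _ measurable_id (Subst_emb l hl).measurable, Subst_map l hl,
      Measure.map_id, Measure.prod_smul_right]
  have h2 := h0.integral_map (μ := (volume : Measure ℂ).prod volume) G
  rw [Measure.volume_eq_prod]
  have h3 : ∫ p : ℂ × ℂ, G (p.1, l * p.2) ∂((volume : Measure ℂ).prod volume) =
      ∫ p : ℂ × ℂ, G (Prod.map (id : ℂ → ℂ) (fun z : ℂ => l * z) p)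
        ∂((volume : Measure ℂ).prod volume) := rfl
  rw [h3, ← h2, h1, integral_smul_measure, ENNReal.toReal_ofReal (by positivity), smul_eq_mul]

end PinR
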