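import Pool.Agent.PinR.Subst

set_option autoImplicit false

/-!
PIN-TT: the `T T*` estimate.  With `D = ball 0 5`, expand the square:
`N^-2 ∑_{i,j} c_i c_j ∫_{D × ℂ} F (y + a_i ω) F (y + a_j ω)`; by `subst_shear` each term equals
`∫_{D × ℂ} F y * F (y + (a_j - a_i) ω)`, and by Fubini `= ∫_y F y * ∫_{ω ∈ D} F (y + l ω)`,
`l = a_j - a_i`.  The inner integral is at most `25 π B`, and for `l ≠ 0` it is
`‖l‖^-2 ∫_{ball y (5 ‖l‖)} F` (`subst_ball`), at most `20 π δ B / ‖l‖` by the disc bound.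
`∫ |F| ≤ B`.  For `|i - j| ≤ √δ N` (at most `2 √δ N + 1` values of `j`) use the first bound, for
`|i - j| > √δ N`, `‖l‖ ≥ √δ / 25`, the second: `≤ 500 π √δ B`.
Total `≤ π B^2 (50 √δ + 25/N + 500 √δ) ≤ 2000 B^2 √δ` as `1/N ≤ δ ≤ √δ`.
`tt_L1`: instead of Cauchy-Schwarz, `|S| ≤ λ/2 + S^2/(2 λ)` with `λ = 5 B δ^(1/4)`.
-/

namespace PinR

open MeasureTheory

/-- the indicator of the ball -/
private noncomputable def TT_chi (w : ℂ) : ℝ := (Metric.ball (0 : ℂ) 5).indicator (fun _ => (1 : ℝ)) w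

private theorem TT_chi_nonneg (w : ℂ) : 0 ≤ TT_chi w := Set.indicator_nonneg (fun _ _ => zero_le_one) w

private theorem TT_chi_le (w : ℂ) : TT_chi w ≤ 1 := Set.indicator_le_self' (fun _ _ => zero_le_one) w

private theorem TT_chi_int : Integrable TT_chi :=
  (integrable_indicator_iff measurableSet_ball).2 (integrableOn_const measure_ball_lt_top.ne)

private theorem TT_chi_meas : Measurable TT_chi := measurable_const.indicator measurableSet_ball

private theorem TT_vol : volume.real (Metric.ball (0 : ℂ) 5) = 25 * Real.pi := by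
  rw [Measure.real, Complex.volume_ball]
  rw [ENNReal.toReal_mul, ENNReal.toReal_pow, ENNReal.toReal_ofReal (by norm_num)]
  simp
  ring

private theorem TT_shear (a : ℂ) :
    MeasurePreserving (fun p : ℂ × ℂ => (p.1, p.2 + a * p.1)) volume volume := by
  rw [Measure.volume_eq_prod]
  refine MeasurePreserving.skew_product (MeasurePreserving.id volume) (g := fun w y => y + a * w) ?_ ?_
  · unfold Function.uncurry
    fun_prop
  · exact Filter.Eventually.of_forall fun w => (measurePreserving_add_right volume (a * w)).map_eq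

private theorem TT_int {B : ℝ} {F : ℂ → ℝ} (hF : Adm B F) (a b : ℂ) :
    Integrable (fun p : ℂ × ℂ => TT_chi p.1 * (F (p.2 + a * p.1) * F (p.2 + b * p.1))) := by
  have h0 : Integrable (fun p : ℂ × ℂ => TT_chi p.1 * F p.2) := by
    rw [Measure.volume_eq_prod]
    exact Integrable.mul_prod TT_chi_int hF.integrable
  have h1 : Integrable ((fun p : ℂ × ℂ => TT_chi p.1 * F p.2) ∘ (fun p : ℂ × ℂ => (p.1, p.2 + a * p.1))) :=
    ((TT_shear a).integrable_comp h0.aestronglyMeasurable).2 h0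
  have hm : Measurable (fun p : ℂ × ℂ => F (p.2 + b * p.1)) := hF.1.comp (by fun_prop)
  have h2 := h1.mul_bdd (g := fun p : ℂ × ℂ => F (p.2 + b * p.1)) (c := B) hm.aestronglyMeasurable
    (Filter.Eventually.of_forall fun p => hF.2.1 _)
  refine h2.congr (Filter.Eventually.of_forall fun p => ?_)
  show TT_chi p.1 * F (p.2 + a * p.1) * F (p.2 + b * p.1) = _
  rw [mul_assoc]

private theorem TT_term {B M : ℝ} {F : ℂ → ℝ} (hF : Adm B F) (a b : ℂ) (hM : 0 ≤ M)
    (hJ : ∀ y : ℂ, |∫ w in Metric.ball (0 : ℂ) 5, F (y + (b - a) * w)| ≤ M) :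
    |∫ p : ℂ × ℂ, TT_chi p.1 * (F (p.2 + a * p.1) * F (p.2 + b * p.1))| ≤ B * M := by
  have e1 : ∫ p : ℂ × ℂ, TT_chi p.1 * (F (p.2 + a * p.1) * F (p.2 + b * p.1)) =
      ∫ p : ℂ × ℂ, TT_chi p.1 * (F p.2 * F (p.2 + (b - a) * p.1)) := by
    rw [← subst_shear (fun p : ℂ × ℂ => TT_chi p.1 * (F p.2 * F (p.2 + (b - a) * p.1))) a]
    congr 1
    ext p
    show _ = TT_chi p.1 * (F (p.2 + a * p.1) * F (p.2 + a * p.1 + (b - a) * p.1))
    rw [show p.2 + a * p.1 + (b - a) * p.1 = p.2 + b * p.1 by ring]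
  have hint : Integrable (fun p : ℂ × ℂ => TT_chi p.1 * (F p.2 * F (p.2 + (b - a) * p.1)))
      ((volume : Measure ℂ).prod volume) := by
    rw [← Measure.volume_eq_prod]
    have h := TT_int hF 0 (b - a)
    simpa using h
  have e2 : ∫ p : ℂ × ℂ, TT_chi p.1 * (F p.2 * F (p.2 + (b - a) * p.1)) =
      ∫ y : ℂ, F y * ∫ w in Metric.ball (0 : ℂ) 5, F (y + (b - a) * w) := by
    rw [Measure.volume_eq_prod, integral_prod_symm _ hint]
    congr 1
    ext y
    show ∫ w : ℂ, TT_chi w * (F y * F (y + (b - a) * w)) = _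
    rw [← integral_const_mul, ← integral_indicator measurableSet_ball]
    congr 1
    ext w
    unfold TT_chi
    by_cases hw : w ∈ Metric.ball (0 : ℂ) 5
    · rw [Set.indicator_of_mem hw, Set.indicator_of_mem hw, one_mul]
    · rw [Set.indicator_of_notMem hw, Set.indicator_of_notMem hw, zero_mul]
  rw [e1, e2]
  have h3 : ‖∫ y : ℂ, F y * ∫ w in Metric.ball (0 : ℂ) 5, F (y + (b - a) * w)‖ ≤ ∫ y : ℂ, |F y| * M := by
    refine norm_integral_le_of_norm_le (hF.integrable.abs.mul_const M) (Filter.Eventually.of_forall fun y => ?_)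
    rw [norm_mul, Real.norm_eq_abs, Real.norm_eq_abs]
    exact mul_le_mul_of_nonneg_left (hJ y) (abs_nonneg _)
  rw [Real.norm_eq_abs] at h3
  refine h3.trans ?_
  rw [integral_mul_const]
  exact mul_le_mul_of_nonneg_right hF.int_abs_le hM

private theorem TT_J1 {B : ℝ} {F : ℂ → ℝ} (hF : Adm B F) (l y : ℂ) :
    |∫ w in Metric.ball (0 : ℂ) 5, F (y + l * w)| ≤ 25 * Real.pi * B := by
  have h := norm_setIntegral_le_of_norm_le_const (μ := (volume : Measure ℂ)) (s := Metric.ball (0 : ℂ) 5)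
    (f := fun w => F (y + l * w)) (C := B) measure_ball_lt_top (fun w _ => hF.2.1 _)
  rw [Real.norm_eq_abs, TT_vol] at h
  linarith

private theorem TT_J2 {B δ : ℝ} {F : ℂ → ℝ} (hD : DB δ B F) {l : ℂ} (hl : l ≠ 0) (y : ℂ) :
    |∫ w in Metric.ball (0 : ℂ) 5, F (y + l * w)| ≤ 20 * Real.pi * δ * B / ‖l‖ := by
  have hl0 : 0 < ‖l‖ := norm_pos_iff.2 hl
  rw [subst_ball F y l hl 5, abs_mul, abs_of_nonneg (by positivity : 0 ≤ (‖l‖ ^ 2)⁻¹)]
  have h := hD y (‖l‖ * 5) (by positivity)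
  calc (‖l‖ ^ 2)⁻¹ * |∫ z in Metric.ball y (‖l‖ * 5), F z|
      ≤ (‖l‖ ^ 2)⁻¹ * (4 * Real.pi * δ * (‖l‖ * 5) * B) := mul_le_mul_of_nonneg_left h (by positivity)
    _ = 20 * Real.pi * δ * B / ‖l‖ := by
        field_simp
        ring

/-- the number of `j` near `i` -/
private theorem TT_count (N i : ℕ) (s : ℝ) (hs : 0 ≤ s) :
    (((Finset.range N).filter (fun j : ℕ => |(i : ℝ) - (j : ℝ)| ≤ s)).card : ℝ) ≤ 2 * s + 1 := by
  have hsub : (Finset.range N).filter (fun j : ℕ => |(i : ℝ) - (j : ℝ)| ≤ s) ⊆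
      Finset.Icc (i - ⌊s⌋₊) (i + ⌊s⌋₊) := by
    intro j hj
    rw [Finset.mem_filter] at hj
    obtain ⟨h1, h2⟩ := abs_le.1 hj.2
    rw [Finset.mem_Icc]
    constructor
    · by_contra hcon
      push Not at hcon
      have h3 : j + ⌊s⌋₊ + 1 ≤ i := by omega
      have h4 : (j : ℝ) + ⌊s⌋₊ + 1 ≤ i := by exact_mod_cast h3
      have h5 := Nat.lt_floor_add_one s
      linarith
    · by_contra hcon
      push Not at hcon
      have h3 : i + ⌊s⌋₊ + 1 ≤ j := by omega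
      have h4 : (i : ℝ) + ⌊s⌋₊ + 1 ≤ j := by exact_mod_cast h3
      have h5 := Nat.lt_floor_add_one s
      linarith
  have h1 := Finset.card_le_card hsub
  rw [Nat.card_Icc] at h1
  have h2 : ((Finset.range N).filter (fun j : ℕ => |(i : ℝ) - (j : ℝ)| ≤ s)).card ≤ 2 * ⌊s⌋₊ + 1 := by omega
  have h3 : (((Finset.range N).filter (fun j : ℕ => |(i : ℝ) - (j : ℝ)| ≤ s)).card : ℝ) ≤ 2 * ⌊s⌋₊ + 1 := by
    exact_mod_cast h2
  have h4 := Nat.floor_le hs
  linarith

private theorem TT_expand (N : ℕ) (F : ℂ → ℝ) (a : ℕ → ℂ) (c : ℕ → ℝ) (p : ℂ × ℂ) :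
    TT_chi p.1 * ((1 / (N : ℝ)) * ∑ i ∈ Finset.range N, c i * F (p.2 + a i * p.1)) ^ 2 =
      ∑ i ∈ Finset.range N, ∑ j ∈ Finset.range N, ((1 / (N : ℝ)) ^ 2 * (c i * c j)) *
        (TT_chi p.1 * (F (p.2 + a i * p.1) * F (p.2 + a j * p.1))) := by
  rw [mul_pow, pow_two (∑ i ∈ Finset.range N, c i * F (p.2 + a i * p.1)), Finset.sum_mul_sum, Finset.mul_sum,
    Finset.mul_sum]
  refine Finset.sum_congr rfl fun i _ => ?_
  rw [Finset.mul_sum, Finset.mul_sum]
  refine Finset.sum_congr rfl fun j _ => ?_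
  ring

private theorem TT_int2 {B : ℝ} {F : ℂ → ℝ} (hF : Adm B F) (N : ℕ) (a : ℕ → ℂ) (c : ℕ → ℝ) :
    Integrable (fun p : ℂ × ℂ =>
      TT_chi p.1 * ((1 / (N : ℝ)) * ∑ i ∈ Finset.range N, c i * F (p.2 + a i * p.1)) ^ 2) := by
  have h : Integrable (fun p : ℂ × ℂ => ∑ i ∈ Finset.range N, ∑ j ∈ Finset.range N,
      ((1 / (N : ℝ)) ^ 2 * (c i * c j)) * (TT_chi p.1 * (F (p.2 + a i * p.1) * F (p.2 + a j * p.1)))) :=
    integrable_finset_sum _ fun i _ => integrable_finset_sum _ fun j _ => (TT_int hF (a i) (a j)).const_mul _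
  refine h.congr (Filter.Eventually.of_forall fun p => ?_)
  exact (TT_expand N F a c p).symm

private theorem TT_main (N : ℕ) (hN : 1 ≤ N) (B δ : ℝ) (hδ : 0 < δ) (hδ1 : δ ≤ 1) (hNδ : 1 ≤ (N : ℝ) * δ)
    (F : ℂ → ℝ) (hF : Adm B F) (hD : DB δ B F) (a : ℕ → ℂ) (c : ℕ → ℝ)
    (hc : ∀ i, 0 ≤ c i ∧ c i ≤ 1)
    (ha : ∀ i j : ℕ, i < N → j < N → (1 / 25 : ℝ) * (|(i : ℝ) - (j : ℝ)| / N) ≤ ‖a i - a j‖) :
    ∫ p : ℂ × ℂ, TT_chi p.1 * ((1 / (N : ℝ)) * ∑ i ∈ Finset.range N, c i * F (p.2 + a i * p.1)) ^ 2 ≤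
      2000 * B ^ 2 * Real.sqrt δ := by
  have hN0 : (0 : ℝ) < N := by exact_mod_cast hN
  have hB := hF.nonneg_B
  have hpi := Real.pi_pos
  obtain ⟨s, hs⟩ : ∃ s, s = Real.sqrt δ := ⟨_, rfl⟩
  have hs0 : 0 < s := by rw [hs]; exact Real.sqrt_pos.2 hδ
  have hss : s * s = δ := by rw [hs]; exact Real.mul_self_sqrt hδ.le
  have hs1 : s ≤ 1 := by rw [hs]; exact Real.sqrt_le_one.2 hδ1
  rw [← hs]
  -- the terms
  have hterm : ∀ i ∈ Finset.range N, ∀ j ∈ Finset.range N,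
      ∫ p : ℂ × ℂ, ((1 / (N : ℝ)) ^ 2 * (c i * c j)) *
        (TT_chi p.1 * (F (p.2 + a i * p.1) * F (p.2 + a j * p.1))) ≤
      (1 / (N : ℝ)) ^ 2 * ((if |(i : ℝ) - (j : ℝ)| ≤ s * N then B * (25 * Real.pi * B) else 0) +
        500 * Real.pi * s * B ^ 2) := by
    intro i hi j hj
    rw [Finset.mem_range] at hi hj
    rw [integral_const_mul, mul_assoc]
    refine mul_le_mul_of_nonneg_left ?_ (by positivity)
    have hT : |∫ p : ℂ × ℂ, TT_chi p.1 * (F (p.2 + a i * p.1) * F (p.2 + a j * p.1))| ≤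
        (if |(i : ℝ) - (j : ℝ)| ≤ s * N then B * (25 * Real.pi * B) else 0) + 500 * Real.pi * s * B ^ 2 := by
      split_ifs with hij
      · have h1 := TT_term hF (a i) (a j) (M := 25 * Real.pi * B) (by positivity) (fun y => TT_J1 hF _ y)
        have h2 : 0 ≤ 500 * Real.pi * s * B ^ 2 := by positivity
        linarith
      · push Not at hij
        have h0 : s / 25 ≤ ‖a j - a i‖ := by
          have h1 := ha i j hi hj
          rw [norm_sub_rev] at h1
          refine le_trans ?_ h1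
          have h2 : s ≤ |(i : ℝ) - (j : ℝ)| / N := by
            rw [le_div_iff₀ hN0]
            exact hij.le
          linarith
        have hl0 : 0 < ‖a j - a i‖ := lt_of_lt_of_le (by positivity) h0
        have hl : a j - a i ≠ 0 := norm_pos_iff.1 hl0
        have h3 : 20 * Real.pi * δ * B / ‖a j - a i‖ ≤ 500 * Real.pi * s * B := by
          rw [div_le_iff₀ hl0, ← hss]
          have h4 : 0 ≤ 500 * Real.pi * s * B := by positivity
          calc 20 * Real.pi * (s * s) * B = (500 * Real.pi * s * B) * (s / 25) := by ring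
            _ ≤ (500 * Real.pi * s * B) * ‖a j - a i‖ := mul_le_mul_of_nonneg_left h0 h4
        have h5 := TT_term hF (a i) (a j) (M := 500 * Real.pi * s * B) (by positivity)
          (fun y => (TT_J2 hD hl y).trans h3)
        calc _ ≤ B * (500 * Real.pi * s * B) := h5
          _ = 0 + 500 * Real.pi * s * B ^ 2 := by ring
    have hcc : 0 ≤ c i * c j := mul_nonneg (hc i).1 (hc j).1
    have hcc1 : c i * c j ≤ 1 := mul_le_one₀ (hc i).2 (hc j).1 (hc j).2
    calc (c i * c j) * ∫ p : ℂ × ℂ, TT_chi p.1 * (F (p.2 + a i * p.1) * F (p.2 + a j * p.1))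
        ≤ (c i * c j) * |∫ p : ℂ × ℂ, TT_chi p.1 * (F (p.2 + a i * p.1) * F (p.2 + a j * p.1))| :=
          mul_le_mul_of_nonneg_left (le_abs_self _) hcc
      _ ≤ 1 * |∫ p : ℂ × ℂ, TT_chi p.1 * (F (p.2 + a i * p.1) * F (p.2 + a j * p.1))| :=
          mul_le_mul_of_nonneg_right hcc1 (abs_nonneg _)
      _ ≤ _ := by rw [one_mul]; exact hT
  have hsum : ∫ p : ℂ × ℂ, TT_chi p.1 *
      ((1 / (N : ℝ)) * ∑ i ∈ Finset.range N, c i * F (p.2 + a i * p.1)) ^ 2 =
      ∑ i ∈ Finset.range N, ∑ j ∈ Finset.range N, ∫ p : ℂ × ℂ, ((1 / (N : ℝ)) ^ 2 * (c i * c j)) *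
        (TT_chi p.1 * (F (p.2 + a i * p.1) * F (p.2 + a j * p.1))) := by
    rw [show (fun p : ℂ × ℂ => TT_chi p.1 *
        ((1 / (N : ℝ)) * ∑ i ∈ Finset.range N, c i * F (p.2 + a i * p.1)) ^ 2) =
        fun p : ℂ × ℂ => ∑ i ∈ Finset.range N, ∑ j ∈ Finset.range N, ((1 / (N : ℝ)) ^ 2 * (c i * c j)) *
        (TT_chi p.1 * (F (p.2 + a i * p.1) * F (p.2 + a j * p.1))) from funext (TT_expand N F a c)]
    rw [integral_finset_sum]
    · refine Finset.sum_congr rfl fun i _ => ?_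
      rw [integral_finset_sum]
      exact fun j _ => (TT_int hF (a i) (a j)).const_mul _
    · exact fun i _ => integrable_finset_sum _ fun j _ => (TT_int hF (a i) (a j)).const_mul _
  rw [hsum]
  calc ∑ i ∈ Finset.range N, ∑ j ∈ Finset.range N, ∫ p : ℂ × ℂ, ((1 / (N : ℝ)) ^ 2 * (c i * c j)) *
        (TT_chi p.1 * (F (p.2 + a i * p.1) * F (p.2 + a j * p.1)))
      ≤ ∑ i ∈ Finset.range N, ∑ j ∈ Finset.range N, (1 / (N : ℝ)) ^ 2 *
        ((if |(i : ℝ) - (j : ℝ)| ≤ s * N then B * (25 * Real.pi * B) else 0) + 500 * Real.pi * s * B ^ 2) :=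
        Finset.sum_le_sum fun i hi => Finset.sum_le_sum fun j hj => hterm i hi j hj
    _ ≤ ∑ i ∈ Finset.range N, (1 / (N : ℝ)) ^ 2 *
        ((2 * (s * N) + 1) * (B * (25 * Real.pi * B)) + N * (500 * Real.pi * s * B ^ 2)) := by
        refine Finset.sum_le_sum fun i _ => ?_
        rw [← Finset.mul_sum, Finset.sum_add_distrib, Finset.sum_const, Finset.card_range, nsmul_eq_mul,
          ← Finset.sum_filter, Finset.sum_const, nsmul_eq_mul]
        refine mul_le_mul_of_nonneg_left ?_ (by positivity)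
        have h1 := TT_count N i (s * N) (by positivity)
        have h2 : 0 ≤ B * (25 * Real.pi * B) := by positivity
        have h3 := mul_le_mul_of_nonneg_right h1 h2
        linarith
    _ = (25 * Real.pi * B ^ 2) * (2 * s + 1 / N) + 500 * Real.pi * s * B ^ 2 := by
        rw [Finset.sum_const, Finset.card_range, nsmul_eq_mul]
        field_simp
    _ ≤ (25 * Real.pi * B ^ 2) * (3 * s) + 500 * Real.pi * s * B ^ 2 := by
        have h1 : 1 / (N : ℝ) ≤ s := by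
          rw [div_le_iff₀ hN0]
          have h2 : δ ≤ s := by rw [← hss]; nlinarith
          nlinarith
        have h2 : 2 * s + 1 / (N : ℝ) ≤ 3 * s := by linarith
        have h3 := mul_le_mul_of_nonneg_left h2 (show 0 ≤ 25 * Real.pi * B ^ 2 by positivity)
        linarith
    _ = (575 * Real.pi) * (B ^ 2 * s) := by ring
    _ ≤ 2000 * (B ^ 2 * s) := by
        refine mul_le_mul_of_nonneg_right ?_ (by positivity)
        have := Real.pi_lt_d2
        linarith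
    _ = 2000 * B ^ 2 * s := by ring

theorem tt_star (N : ℕ) (hN : 1 ≤ N) (B δ : ℝ) (hδ : 0 < δ) (hδ1 : δ ≤ 1) (hNδ : 1 ≤ (N : ℝ) * δ)
    (F : ℂ → ℝ) (hF : Adm B F) (hD : DB δ B F) (a : ℕ → ℂ) (c : ℕ → ℝ)
    (hc : ∀ i, 0 ≤ c i ∧ c i ≤ 1)
    (ha : ∀ i j : ℕ, i < N → j < N → (1 / 25 : ℝ) * (|(i : ℝ) - (j : ℝ)| / N) ≤ ‖a i - a j‖) :
    ∫ p : ℂ × ℂ, (Metric.ball (0 : ℂ) 5).indicator (fun _ => (1 : ℝ)) p.1 *
      ((1 / (N : ℝ)) * ∑ i ∈ Finset.range N, c i * F (p.2 + a i * p.1)) ^ 2 ≤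
      2000 * B ^ 2 * Real.sqrt δ :=
  TT_main N hN B δ hδ hδ1 hNδ F hF hD a c hc ha

theorem tt_L1 (N : ℕ) (hN : 1 ≤ N) (B δ : ℝ) (hδ : 0 < δ) (hδ1 : δ ≤ 1) (hNδ : 1 ≤ (N : ℝ) * δ)
    (F : ℂ → ℝ) (hF : Adm B F) (hD : DB δ B F) (a : ℕ → ℂ) (c : ℕ → ℝ)
    (hc : ∀ i, 0 ≤ c i ∧ c i ≤ 1)
    (ha : ∀ i j : ℕ, i < N → j < N → (1 / 25 : ℝ) * (|(i : ℝ) - (j : ℝ)| / N) ≤ ‖a i - a j‖) :
    ∫ p : ℂ × ℂ, (Metric.ball (0 : ℂ) 5).indicator (fun _ => (1 : ℝ)) p.1 *
      (sq 0 0 0).indicator (fun _ => (1 : ℝ)) p.2 *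
      |(1 / (N : ℝ)) * ∑ i ∈ Finset.range N, c i * F (p.2 + a i * p.1)| ≤
      400 * B * Real.sqrt (Real.sqrt δ) := by
  have hB := hF.nonneg_B
  have hs0 : 0 < Real.sqrt δ := Real.sqrt_pos.2 hδ
  obtain ⟨q, hq⟩ : ∃ q, q = Real.sqrt (Real.sqrt δ) := ⟨_, rfl⟩
  have hq0 : 0 < q := by rw [hq]; exact Real.sqrt_pos.2 hs0
  have hqq : q ^ 2 = Real.sqrt δ := by rw [hq]; exact Real.sq_sqrt hs0.le
  rw [← hq]
  rcases eq_or_lt_of_le hB with hB0 | hBpos
  · -- `B = 0`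
    have hF0 : ∀ z, F z = 0 := by
      intro z
      have h1 := hF.2.1 z
      rw [← hB0] at h1
      exact abs_eq_zero.1 (le_antisymm h1 (abs_nonneg _))
    have e : (fun p : ℂ × ℂ => (Metric.ball (0 : ℂ) 5).indicator (fun _ => (1 : ℝ)) p.1 *
      (sq 0 0 0).indicator (fun _ => (1 : ℝ)) p.2 *
      |(1 / (N : ℝ)) * ∑ i ∈ Finset.range N, c i * F (p.2 + a i * p.1)|) = fun _ => 0 := by
      ext p
      simp [hF0]
    rw [e, integral_zero, ← hB0]
    simp
  obtain ⟨L, hL⟩ : ∃ L, L = 5 * B * q := ⟨_, rfl⟩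
  have hL0 : 0 < L := by rw [hL]; positivity
  obtain ⟨g, hg⟩ : ∃ g : ℂ → ℝ, g = (sq 0 0 0).indicator (fun _ => (1 : ℝ)) := ⟨_, rfl⟩
  have hg0 : ∀ z, 0 ≤ g z := fun z => by rw [hg]; exact Set.indicator_nonneg (fun _ _ => zero_le_one) z
  have hg1 : ∀ z, g z ≤ 1 := fun z => by rw [hg]; exact Set.indicator_le_self' (fun _ _ => zero_le_one) z
  have hvol : volume.real (sq 0 0 0) = 1 := by rw [volume_real_sq]; simp
  have hvfin : volume (sq 0 0 0) ≠ ⊤ := by rw [volume_sq]; exact ENNReal.ofReal_ne_top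
  have hgint : Integrable g := by
    rw [hg]
    exact (integrable_indicator_iff (measurableSet_sq 0 0 0)).2 (integrableOn_const hvfin)
  have hgI : ∫ z, g z = 1 := by
    rw [hg, integral_indicator_const _ (measurableSet_sq 0 0 0), hvol]
    simp
  have hchiI : ∫ w, TT_chi w = 25 * Real.pi := by
    unfold TT_chi
    rw [integral_indicator_const _ measurableSet_ball, TT_vol]
    simp
  have i1 : Integrable (fun p : ℂ × ℂ => (L / 2) * (TT_chi p.1 * g p.2)) := by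
    refine Integrable.const_mul ?_ _
    rw [Measure.volume_eq_prod]
    exact Integrable.mul_prod TT_chi_int hgint
  have i2 : Integrable (fun p : ℂ × ℂ => (1 / (2 * L)) *
      (TT_chi p.1 * ((1 / (N : ℝ)) * ∑ i ∈ Finset.range N, c i * F (p.2 + a i * p.1)) ^ 2)) :=
    (TT_int2 hF N a c).const_mul _
  have hI1 : ∫ p : ℂ × ℂ, (L / 2) * (TT_chi p.1 * g p.2) = (L / 2) * (25 * Real.pi) := by
    rw [integral_const_mul, Measure.volume_eq_prod, integral_prod_mul, hchiI, hgI, mul_one]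
  have hI2 : ∫ p : ℂ × ℂ, (1 / (2 * L)) *
      (TT_chi p.1 * ((1 / (N : ℝ)) * ∑ i ∈ Finset.range N, c i * F (p.2 + a i * p.1)) ^ 2) ≤
      (1 / (2 * L)) * (2000 * B ^ 2 * q ^ 2) := by
    rw [integral_const_mul, hqq]
    exact mul_le_mul_of_nonneg_left (TT_main N hN B δ hδ hδ1 hNδ F hF hD a c hc ha) (by positivity)
  calc ∫ p : ℂ × ℂ, (Metric.ball (0 : ℂ) 5).indicator (fun _ => (1 : ℝ)) p.1 *
      (sq 0 0 0).indicator (fun _ => (1 : ℝ)) p.2 *
      |(1 / (N : ℝ)) * ∑ i ∈ Finset.range N, c i * F (p.2 + a i * p.1)|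
      ≤ ∫ p : ℂ × ℂ, ((L / 2) * (TT_chi p.1 * g p.2) + (1 / (2 * L)) *
      (TT_chi p.1 * ((1 / (N : ℝ)) * ∑ i ∈ Finset.range N, c i * F (p.2 + a i * p.1)) ^ 2)) := by
        refine integral_mono_of_nonneg (Filter.Eventually.of_forall fun p => ?_) (i1.add i2)
          (Filter.Eventually.of_forall fun p => ?_)
        · have h1 := TT_chi_nonneg p.1
          have h2 := hg0 p.2
          rw [hg] at h2
          exact mul_nonneg (mul_nonneg h1 h2) (abs_nonneg _)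
        · obtain ⟨S, hS⟩ : ∃ S, S = (1 / (N : ℝ)) * ∑ i ∈ Finset.range N, c i * F (p.2 + a i * p.1) := ⟨_, rfl⟩
          show TT_chi p.1 * (sq 0 0 0).indicator (fun _ => (1 : ℝ)) p.2 *
            |(1 / (N : ℝ)) * ∑ i ∈ Finset.range N, c i * F (p.2 + a i * p.1)| ≤
            (L / 2) * (TT_chi p.1 * g p.2) + (1 / (2 * L)) *
            (TT_chi p.1 * ((1 / (N : ℝ)) * ∑ i ∈ Finset.range N, c i * F (p.2 + a i * p.1)) ^ 2)
          rw [← hS, ← hg]
          have h1 := TT_chi_nonneg p.1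
          have h2 := hg0 p.2
          have h3 := hg1 p.2
          -- `|S| ≤ L / 2 + S ^ 2 / (2 L)`
          have h4 : |S| ≤ L / 2 + (1 / (2 * L)) * S ^ 2 := by
            have h5 : 0 ≤ (|S| - L) ^ 2 := sq_nonneg _
            have h6 : S ^ 2 = |S| ^ 2 := (sq_abs S).symm
            rw [h6]
            have h7 : |S| * (2 * L) ≤ (L / 2 + (1 / (2 * L)) * |S| ^ 2) * (2 * L) := by
              have e1 : (L / 2 + (1 / (2 * L)) * |S| ^ 2) * (2 * L) = L ^ 2 + |S| ^ 2 := by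
                field_simp
              rw [e1]
              nlinarith
            exact le_of_mul_le_mul_right h7 (by positivity)
          have h8 : 0 ≤ TT_chi p.1 * g p.2 := mul_nonneg h1 h2
          calc TT_chi p.1 * g p.2 * |S| ≤ TT_chi p.1 * g p.2 * (L / 2 + (1 / (2 * L)) * S ^ 2) :=
                mul_le_mul_of_nonneg_left h4 h8
            _ = (L / 2) * (TT_chi p.1 * g p.2) + (1 / (2 * L)) * (TT_chi p.1 * S ^ 2) * g p.2 := by ring
            _ ≤ (L / 2) * (TT_chi p.1 * g p.2) + (1 / (2 * L)) * (TT_chi p.1 * S ^ 2) * 1 := by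
                have h9 : 0 ≤ (1 / (2 * L)) * (TT_chi p.1 * S ^ 2) := by positivity
                have := mul_le_mul_of_nonneg_left h3 h9
                linarith
            _ = _ := by ring
    _ = (L / 2) * (25 * Real.pi) + ∫ p : ℂ × ℂ, (1 / (2 * L)) *
      (TT_chi p.1 * ((1 / (N : ℝ)) * ∑ i ∈ Finset.range N, c i * F (p.2 + a i * p.1)) ^ 2) := by
        rw [integral_add i1 i2, hI1]
    _ ≤ (L / 2) * (25 * Real.pi) + (1 / (2 * L)) * (2000 * B ^ 2 * q ^ 2) := by linarith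
    _ = (B * q) * (62.5 * Real.pi + 200) := by
        rw [hL]
        field_simp
        ring
    _ ≤ (B * q) * 400 := by
        refine mul_le_mul_of_nonneg_left ?_ (by positivity)
        have := Real.pi_lt_d2
        norm_num at this ⊢
        linarith
    _ = 400 * B * q := by ring

end PinR
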