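import Pool.Agent.PinR.Basic

set_option autoImplicit false

/-!
Finite level masses on the dyadic squares carried by `E`.
-/

namespace PinR

open MeasureTheory

/-- Masses at the levels `≤ n`, at most `q^j` at level `j`, carried by squares meeting `E`. -/
structure FM (n : ℕ) (q : ℝ) (E : Set ℂ) (w : ℕ → ℤ → ℤ → ℝ) : Prop where
  nonneg : ∀ (j : ℕ) (a b : ℤ), j ≤ n → 0 ≤ w j a b
  le : ∀ (j : ℕ) (a b : ℤ), j ≤ n → w j a b ≤ q ^ j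
  add : ∀ (j : ℕ) (a b : ℤ), j < n → w j a b =
    w (j + 1) (2 * a) (2 * b) + w (j + 1) (2 * a + 1) (2 * b) +
      w (j + 1) (2 * a) (2 * b + 1) + w (j + 1) (2 * a + 1) (2 * b + 1)
  supp : ∀ (j : ℕ) (a b : ℤ), j ≤ n → w j a b ≠ 0 → (sq j a b ∩ E).Nonempty

/-- Record squares. -/
def Reg (q1 : ℝ) (n : ℕ) (w : ℕ → ℤ → ℤ → ℝ) (k : ℕ) (a b : ℤ) : Prop :=
  ∀ (l : ℕ) (a' b' : ℤ), k ≤ l → l ≤ n → a' / 2 ^ (l - k) = a → b' / 2 ^ (l - k) = b →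
    w l a' b' ≤ w k a b * q1 ^ (l - k)

end PinR
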